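import Pool.Agent.Lib.MP_72e2e6_nt.Sm.D.Spec

/-!
# MP_72e2e6_nt, `Sm`, block D: the constants
-/

namespace Pool.Agent.MP72S.D

open Polynomial IntermediateField Pool.Agent.MP72W

private theorem cs_iter {L : Type} [Field L] (q n : ℕ) (x : L) (h : x ^ q ^ n = x) (k : ℕ) :
    x ^ q ^ (n * k) = x := by
  induction k with
  | zero => rw [mul_zero, pow_zero, pow_one]
  | succ k ih => rw [Nat.mul_succ, pow_add, pow_mul, ih, h]

/-- The subfield of the solutions of `x ^ (p ^ s) = x`. -/
private def csFix (L : Type) [Field L] (p : ℕ) [Fact p.Prime] [CharP L p] (s : ℕ) :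
    Subfield L where
  carrier := {x | x ^ p ^ s = x}
  mul_mem' := by
    intro a b ha hb
    change (a * b) ^ p ^ s = a * b
    rw [mul_pow, show a ^ p ^ s = a from ha, show b ^ p ^ s = b from hb]
  one_mem' := one_pow _
  add_mem' := by
    intro a b ha hb
    change (a + b) ^ p ^ s = a + b
    rw [add_pow_char_pow, show a ^ p ^ s = a from ha, show b ^ p ^ s = b from hb]
  zero_mem' := zero_pow (pow_pos (Fact.out : p.Prime).pos s).ne'
  neg_mem' := by
    intro a ha
    change (-a) ^ p ^ s = -a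
    have h1 : (0 - a) ^ p ^ s = 0 ^ p ^ s - a ^ p ^ s := sub_pow_char_pow (p := p) (n := s) 0 a
    rw [zero_pow (pow_pos (Fact.out : p.Prime).pos s).ne', show a ^ p ^ s = a from ha,
      zero_sub] at h1
    exact h1
  inv_mem' := by
    intro a ha
    change (a⁻¹) ^ p ^ s = a⁻¹
    rw [inv_pow, show a ^ p ^ s = a from ha]

theorem tCs : S_Cs := by
  classical
  intro p q r _ hr hq L _ _ _
  have hp : p.Prime := Fact.out
  have hq2 : ∀ n, q ^ n = p ^ (r * n) := fun n => by rw [hq, ← pow_mul]
  have hfr : ∀ (n : ℕ) (x y : L), (x + y) ^ q ^ n = x ^ q ^ n + y ^ q ^ n := by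
    intro n x y
    rw [hq2]
    exact add_pow_char_pow x y p (r * n)
  have hfs : ∀ (n : ℕ) (x y : L), (x - y) ^ q ^ n = x ^ q ^ n - y ^ q ^ n := by
    intro n x y
    rw [hq2]
    exact sub_pow_char_pow (p := p) x y (r * n)
  have hq1 : 1 < q := by
    rw [hq]
    exact Nat.one_lt_pow (by omega) hp.one_lt
  have c1 : (0 : L) ∈ Cst q L := by
    refine ⟨1, le_rfl, ?_⟩
    rw [zero_pow]
    exact (pow_pos (by omega) 1).ne'
  have c2 : (1 : L) ∈ Cst q L := ⟨1, le_rfl, one_pow _⟩
  have c3 : ∀ x ∈ Cst q L, ∀ y ∈ Cst q L, x + y ∈ Cst q L ∧ x * y ∈ Cst q L := by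
    rintro x ⟨n, hn, hx⟩ y ⟨m, hm, hy⟩
    have hx' := cs_iter q n x hx m
    have hy' := cs_iter q m y hy n
    rw [mul_comm m n] at hy'
    have hnm : 1 ≤ n * m := Nat.mul_pos hn hm
    refine ⟨⟨n * m, hnm, ?_⟩, ⟨n * m, hnm, ?_⟩⟩
    · rw [hfr, hx', hy']
    · rw [mul_pow, hx', hy']
  have c4 : ∀ x ∈ Cst q L, -x ∈ Cst q L ∧ x⁻¹ ∈ Cst q L := by
    rintro x ⟨n, hn, hx⟩
    refine ⟨⟨n, hn, ?_⟩, ⟨n, hn, by rw [inv_pow, hx]⟩⟩
    have h1 := hfs n 0 x
    rw [zero_pow (pow_pos (by omega : 0 < q) n).ne', hx, zero_sub] at h1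
    exact h1
  have c6 : ∀ n, 1 ≤ n → {x : L | x ^ q ^ n = x}.ncard = q ^ n := by
    intro n hn
    have hQ : 1 < q ^ n := Nat.one_lt_pow (by omega) hq1
    have h2Q : p ∣ q ^ n := by
      rw [hq2]
      exact dvd_pow_self p (Nat.mul_pos (by omega) (by omega)).ne'
    have hsep : (X ^ q ^ n - X : L[X]).Separable := galois_poly_separable p (q ^ n) h2Q
    have hdeg : (X ^ q ^ n - X : L[X]).natDegree = q ^ n :=
      FiniteField.X_pow_card_sub_X_natDegree_eq L hQ
    have hne : (X ^ q ^ n - X : L[X]) ≠ 0 := FiniteField.X_pow_card_sub_X_ne_zero L hQ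
    have hcard := splits_iff_card_roots.mp (IsSepClosed.splits_of_separable _ hsep)
    rw [hdeg] at hcard
    have hset : {x : L | x ^ q ^ n = x} = ((X ^ q ^ n - X : L[X]).roots.toFinset : Set L) := by
      ext x
      rw [Set.mem_ofPred_eq, Finset.mem_coe, Multiset.mem_toFinset, mem_roots hne, IsRoot,
        eval_sub, eval_pow, eval_X, sub_eq_zero]
    rw [hset, Set.ncard_coe_finset, Multiset.toFinset_card_of_nodup (nodup_roots hsep), hcard]
  have c7 : ∀ f : Polynomial L, f.Monic → (∀ i, f.coeff i ∈ Cst q L) → ∀ x, f.eval x = 0 →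
      x ∈ Cst q L := by
    intro f hf hc x hx
    -- a common exponent for the coefficients
    have hN : ∀ m : ℕ, ∃ N, 1 ≤ N ∧ ∀ i < m, f.coeff i ^ q ^ N = f.coeff i := by
      intro m
      induction m with
      | zero => exact ⟨1, le_rfl, fun i hi => absurd hi (Nat.not_lt_zero i)⟩
      | succ m ih =>
        obtain ⟨N, hN, hi⟩ := ih
        obtain ⟨M, hM, hm⟩ := hc m
        refine ⟨N * M, Nat.mul_pos hN hM, fun i him => ?_⟩
        rcases Nat.lt_succ_iff_lt_or_eq.1 him with h | rfl
        · exact cs_iter q N _ (hi i h) M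
        · have h1 := cs_iter q M _ hm N
          rwa [mul_comm M N] at h1
    obtain ⟨N, hN1, hN2⟩ := hN (f.natDegree + 1)
    have hall : ∀ i, f.coeff i ^ q ^ N = f.coeff i := by
      intro i
      by_cases h : i < f.natDegree + 1
      · exact hN2 i h
      · rw [coeff_eq_zero_of_natDegree_lt (by omega), zero_pow (pow_pos (by omega) N).ne']
    have hmem : ∀ y : L, y ∈ csFix L p (r * N) ↔ y ^ q ^ N = y := by
      intro y
      rw [hq2]
      exact Iff.rfl
    have hset : ((csFix L p (r * N) : Subfield L) : Set L) = {x : L | x ^ q ^ N = x} := by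
      ext y
      exact hmem y
    have hcard : Nat.card (csFix L p (r * N)) = q ^ N := by
      have h1 : Nat.card (csFix L p (r * N)) = ((csFix L p (r * N) : Subfield L) : Set L).ncard :=
        rfl
      rw [h1, hset, c6 N hN1]
    have hfin : Finite (csFix L p (r * N)) := by
      refine Nat.finite_of_card_ne_zero ?_
      rw [hcard]
      exact (pow_pos (by omega) N).ne'
    have hint : IsIntegral (csFix L p (r * N)) x := by
      have hlift : f ∈ lifts (algebraMap (csFix L p (r * N)) L) := by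
        rw [lifts_iff_coeff_lifts]
        intro i
        exact ⟨⟨f.coeff i, (hmem _).2 (hall i)⟩, rfl⟩
      obtain ⟨g, hg1, -, hg2⟩ := lifts_and_natDegree_eq_and_monic hlift hf
      refine ⟨g, hg2, ?_⟩
      rw [← eval_map, hg1]
      exact hx
    have hfd : FiniteDimensional (csFix L p (r * N))
        (IntermediateField.adjoin (csFix L p (r * N)) {x}) :=
      IntermediateField.adjoin.finiteDimensional hint
    have hfE : Finite (IntermediateField.adjoin (csFix L p (r * N)) {x}) :=
      Module.finite_of_finite (csFix L p (r * N))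
    have hcE : Nat.card (IntermediateField.adjoin (csFix L p (r * N)) {x}) =
        q ^ (N * Module.finrank (csFix L p (r * N))
          (IntermediateField.adjoin (csFix L p (r * N)) {x})) := by
      rw [Module.natCard_eq_pow_finrank (K := csFix L p (r * N)), hcard, pow_mul]
    refine ⟨N * Module.finrank (csFix L p (r * N))
          (IntermediateField.adjoin (csFix L p (r * N)) {x}), Nat.mul_pos hN1
          Module.finrank_pos, ?_⟩
    rw [← hcE]
    have : Fintype (IntermediateField.adjoin (csFix L p (r * N)) {x}) := Fintype.ofFinite _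
    have h1 := FiniteField.pow_card
      (⟨x, IntermediateField.mem_adjoin_simple_self (csFix L p (r * N)) x⟩ :
        IntermediateField.adjoin (csFix L p (r * N)) {x})
    rw [Nat.card_eq_fintype_card]
    exact congrArg Subtype.val h1
  refine ⟨c1, c2, c3, c4, ?_, c6, c7⟩
  intro x m hm hx
  refine c7 (X ^ m - C (x ^ m)) (monic_X_pow_sub_C _ (by omega)) ?_ x (by simp)
  intro i
  rw [coeff_sub, coeff_X_pow, coeff_C, sub_eq_add_neg]
  refine (c3 _ ?_ _ (c4 _ ?_).1).1
  · split_ifs
    · exact c2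
    · exact c1
  · split_ifs
    · exact hx
    · exact c1

end Pool.Agent.MP72S.D
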