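import Pool.Agent.Lib.MP_72e2e6_nt.Sm.D.Spec

/-!
# MP_72e2e6_nt, `Sm`, block D: local Frobenius elements
-/

namespace Pool.Agent.MP72S.D

open Polynomial IntermediateField Pool.Agent.MP72W

/-- The subfield of the solutions of `x ^ (p ^ s) = x`. -/
private def fbFix (L : Type) [Field L] (p : ℕ) [Fact p.Prime] [CharP L p] (s : ℕ) :
    Subfield L where
  carrier := {x | x ^ p ^ s = x}
  mul_mem' := by
    intro a b ha hb
    change (a * b) ^ p ^ s = a * b
    rw [mul_pow, show a ^ p ^ s = a from ha, show b ^ p ^ s = b from hb]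
  one_mem' := one_pow _
  add_mem' := by
    intro a b ha hb
    change (a + b) ^ p ^ s = a + b
    rw [add_pow_char_pow, show a ^ p ^ s = a from ha, show b ^ p ^ s = b from hb]
  zero_mem' := zero_pow (pow_pos (Fact.out : p.Prime).pos s).ne'
  neg_mem' := by
    intro a ha
    change (-a) ^ p ^ s = -a
    have h1 : (0 - a) ^ p ^ s = 0 ^ p ^ s - a ^ p ^ s := sub_pow_char_pow (p := p) (n := s) 0 a
    rw [zero_pow (pow_pos (Fact.out : p.Prime).pos s).ne', show a ^ p ^ s = a from ha,
      zero_sub] at h1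
    exact h1
  inv_mem' := by
    intro a ha
    change (a⁻¹) ^ p ^ s = a⁻¹
    rw [inv_pow, show a ^ p ^ s = a from ha]

private theorem fb_gen (L : Type) [Field L] (p : ℕ) [Fact p.Prime] [CharP L p] (s : ℕ)
    (hs : 1 ≤ s) :
    ∃ c : L, c ^ p ^ s = c ∧ ∀ x : L, x ^ p ^ s = x → x ≠ 0 → ∃ k : ℕ, x = c ^ k := by
  classical
  have hQ : 1 < p ^ s := Nat.one_lt_pow (by omega) (Fact.out : p.Prime).one_lt
  have hne : (X ^ p ^ s - X : L[X]) ≠ 0 := FiniteField.X_pow_card_sub_X_ne_zero L hQ
  have hfin : Finite (fbFix L p s) := by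
    have h1 : {x : L | x ^ p ^ s = x}.Finite := by
      refine ((X ^ p ^ s - X : L[X]).roots.toFinset.finite_toSet).subset fun x hx => ?_
      rw [Finset.mem_coe, Multiset.mem_toFinset, mem_roots hne, IsRoot, eval_sub, eval_pow,
        eval_X, sub_eq_zero]
      exact hx
    exact h1.to_subtype
  obtain ⟨g, hg⟩ := IsCyclic.exists_generator (α := (fbFix L p s)ˣ)
  refine ⟨((g : fbFix L p s) : L), (g : fbFix L p s).2, fun x hx hx0 => ?_⟩
  have h1 := hg (Units.mk0 (⟨x, hx⟩ : fbFix L p s) fun h => hx0 (congrArg Subtype.val h))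
  rw [← mem_powers_iff_mem_zpowers] at h1
  obtain ⟨k, hk⟩ := h1
  refine ⟨k, ?_⟩
  have h2 := congrArg (fun t : (fbFix L p s)ˣ => ((t : fbFix L p s) : L)) hk
  simp only [Units.val_pow_eq_pow_val, SubmonoidClass.coe_pow, Units.val_mk0] at h2
  exact h2.symm

/-- The set of the `g` with `g x = y` is closed. -/
private theorem fb_closed {K L : Type} [Field K] [Field L] [Algebra K L]
    [Algebra.IsAlgebraic K L] (x y : L) : IsClosed {g : Gal(L/K) | g x = y} := by
  rw [← isOpen_compl_iff, isOpen_iff_mem_nhds]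
  intro g hg
  have hfd : FiniteDimensional K (adjoin K {x}) :=
    IntermediateField.adjoin.finiteDimensional (Algebra.IsIntegral.isIntegral x)
  have hopen := IntermediateField.fixingSubgroup_isOpen (adjoin K {x})
  have h1 : (fun h : Gal(L/K) => g⁻¹ * h) ⁻¹' ((adjoin K {x}).fixingSubgroup : Set Gal(L/K)) ∈
      nhds g := by
    refine (hopen.preimage (continuous_const_mul g⁻¹)).mem_nhds ?_
    change g⁻¹ * g ∈ (adjoin K {x}).fixingSubgroup
    rw [inv_mul_cancel]
    exact one_mem _
  refine Filter.mem_of_superset h1 fun h hh hx => hg ?_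
  have h2 := (IntermediateField.mem_fixingSubgroup_iff _ _).mp hh x
    (IntermediateField.mem_adjoin_simple_self K x)
  have h3 : g⁻¹ (h x) = x := h2
  have h4 : h x = y := hx
  rw [h4] at h3
  change g x = y
  rw [← h3]
  exact AlgEquiv.apply_symm_apply g y

theorem tFb (_ : S_Ln) (hCs : S_Cs) (hNn : S_Nn) : S_Fb := by
  classical
  intro F _ _ v d ϖ R hLF
  obtain ⟨p, hpF⟩ := CharP.exists F
  have : CharP (RatFunc F) p := charP_of_injective_algebraMap
    (algebraMap F (RatFunc F)).injective p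
  have hC : CharP v.Completion p := charP_of_injective_algebraMap
    (algebraMap (RatFunc F) v.Completion).injective p
  have hcharK : CharP (Kvs v) p :=
    charP_of_injective_algebraMap (algebraMap v.Completion (Kvs v)).injective p
  have : Fintype F := Fintype.ofFinite F
  obtain ⟨r0, hp, hn⟩ := FiniteField.card F p
  have : Fact p.Prime := ⟨hp⟩
  obtain ⟨r, hr, hq⟩ : ∃ r : ℕ, 1 ≤ r ∧ Nat.card F = p ^ r :=
    ⟨r0, r0.2, by rw [Nat.card_eq_fintype_card, hn]⟩
  have hdpos := hLF.dpos
  have hq1 : 1 < Nat.card F := Finite.one_lt_card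
  have hqn : ∀ n, Nat.card F ^ n = p ^ (r * n) := fun n => by rw [hq, ← pow_mul]
  obtain ⟨c1, c2, c3, c4, c5, c6, -⟩ := hCs p (Nat.card F) r hr hq (Kvs v)
  have hnr5 := (hNn F v d ϖ R hLF).2.2.2.2
  have hiter : ∀ (n : ℕ) (x : Kvs v), x ^ Nat.card F ^ n = x →
      ∀ k, x ^ Nat.card F ^ (n * k) = x := by
    intro n x hx k
    induction k with
    | zero => rw [mul_zero, pow_zero, pow_one]
    | succ k ih => rw [Nat.mul_succ, pow_add, pow_mul, ih, hx]
  -- the constants as a subring
  let S : Subring (Kvs v) :=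
    { carrier := Cst (Nat.card F) (Kvs v)
      mul_mem' := fun ha hb => (c3 _ ha _ hb).2
      one_mem' := c2
      add_mem' := fun ha hb => (c3 _ ha _ hb).1
      zero_mem' := c1
      neg_mem' := fun {a} ha => (c4 a ha).1 }
  have hone : ∀ n, 1 ≤ n → ∃ g : Gal(Kvs v/v.Completion), ∀ x : Kvs v,
      x ^ Nat.card F ^ n = x → g x = x ^ (Nat.card F ^ d) := by
    intro n hn1
    obtain ⟨c, hc, hcgen⟩ := fb_gen (Kvs v) p (r * n) (Nat.mul_pos hr hn1)
    rw [← hqn] at hc hcgen
    have hcint : IsIntegral v.Completion c := Algebra.IsIntegral.isIntegral c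
    let P := minpoly v.Completion c
    have hroot : ∀ z ∈ (P.map (algebraMap v.Completion (Kvs v))).roots, z ∈ S := by
      intro z hz
      have h1 : P ∣ (X ^ Nat.card F ^ n - X : v.Completion[X]) := by
        refine minpoly.dvd _ _ ?_
        rw [map_sub, map_pow, aeval_X, hc, sub_self]
      have h2 : eval z (P.map (algebraMap v.Completion (Kvs v))) = 0 := isRoot_of_mem_roots hz
      obtain ⟨s, hs⟩ := h1
      have h3 : z ^ Nat.card F ^ n = z := by
        have h4 := congrArg (fun t : v.Completion[X] =>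
          eval z (t.map (algebraMap v.Completion (Kvs v)))) hs
        simp only [Polynomial.map_mul, eval_mul, h2, zero_mul, Polynomial.map_sub,
          Polynomial.map_pow, Polynomial.map_X, eval_sub, eval_pow, eval_X] at h4
        exact sub_eq_zero.mp h4
      exact ⟨n, hn1, h3⟩
    have hsplit : (P.map (algebraMap v.Completion (Kvs v))).Splits :=
      Normal.splits inferInstance c
    have hlift : P.map (algebraMap v.Completion (Kvs v)) ∈ lifts S.subtype := by
      rw [hsplit.eq_prod_roots_of_monic ((minpoly.monic hcint).map _)]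
      refine Subsemiring.multiset_prod_mem _ _ fun t ht => ?_
      obtain ⟨z, hz, rfl⟩ := Multiset.mem_map.mp ht
      refine ⟨X - C ⟨z, hroot z hz⟩, ?_⟩
      simp
    have hcoeff : ∀ i, (P.coeff i) ^ (Nat.card F ^ d) = P.coeff i := by
      intro i
      refine hnr5 _ ?_
      rw [lifts_iff_coeff_lifts] at hlift
      obtain ⟨⟨y, hy⟩, hy'⟩ := hlift i
      rw [coeff_map] at hy'
      rw [← hy']
      exact hy
    have hpc : aeval (c ^ (Nat.card F ^ d)) P = 0 := by
      have h1 : (aeval c P) ^ (Nat.card F ^ d) = 0 := by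
        rw [minpoly.aeval, zero_pow (pow_pos (by omega) d).ne']
      rw [← h1, aeval_eq_sum_range, aeval_eq_sum_range, hqn, sum_pow_char_pow]
      refine Finset.sum_congr rfl fun i _ => ?_
      rw [← hqn, Algebra.smul_def, Algebra.smul_def, mul_pow, ← map_pow, hcoeff, ← pow_mul,
        ← pow_mul, mul_comm i]
    obtain ⟨g, hg⟩ := minpoly.exists_algEquiv_of_root' (K := v.Completion) (L := Kvs v)
      (Algebra.IsAlgebraic.isAlgebraic c) hpc
    refine ⟨g, fun x hx => ?_⟩
    by_cases hx0 : x = 0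
    · rw [hx0, map_zero, zero_pow (pow_pos (by omega) d).ne']
    · obtain ⟨k, rfl⟩ := hcgen x hx hx0
      rw [map_pow, hg, ← pow_mul, ← pow_mul, mul_comm k]
  have hne : Nonempty {n : ℕ // 1 ≤ n} := ⟨⟨1, le_rfl⟩⟩
  have hclosed : ∀ n : {n : ℕ // 1 ≤ n}, IsClosed {g : Gal(Kvs v/v.Completion) |
      ∀ x : Kvs v, x ^ Nat.card F ^ (n : ℕ) = x → g x = x ^ (Nat.card F ^ d)} := by
    intro n
    have h1 : {g : Gal(Kvs v/v.Completion) |
        ∀ x : Kvs v, x ^ Nat.card F ^ (n : ℕ) = x → g x = x ^ (Nat.card F ^ d)} =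
        ⋂ x : {x : Kvs v // x ^ Nat.card F ^ (n : ℕ) = x},
          {g : Gal(Kvs v/v.Completion) | g x = (x : Kvs v) ^ (Nat.card F ^ d)} := by
      ext g
      rw [Set.mem_iInter]
      constructor
      · intro h x
        exact h x x.2
      · intro h x hx
        exact h ⟨x, hx⟩
    rw [h1]
    exact isClosed_iInter fun x => fb_closed _ _
  have h1 := IsCompact.nonempty_iInter_of_directed_nonempty_isCompact_isClosed
    (fun n : {n : ℕ // 1 ≤ n} => {g : Gal(Kvs v/v.Completion) |
      ∀ x : Kvs v, x ^ Nat.card F ^ (n : ℕ) = x → g x = x ^ (Nat.card F ^ d)}) (by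
      rintro ⟨n, hn1⟩ ⟨m, hm1⟩
      refine ⟨⟨n * m, Nat.mul_pos hn1 hm1⟩, ?_, ?_⟩
      · intro g hg x hx
        exact hg x (hiter n x hx m)
      · intro g hg x hx
        refine hg x ?_
        have h2 := hiter m x hx n
        rw [mul_comm m n] at h2
        exact h2)
    (fun n => by
      obtain ⟨g, hg⟩ := hone n n.2
      exact ⟨g, hg⟩)
    (fun n => (hclosed n).isCompact) hclosed
  obtain ⟨g, hg⟩ := h1
  rw [Set.mem_iInter] at hg
  refine ⟨g, ?_⟩
  rintro x ⟨n, hn1, hx⟩
  exact hg ⟨n, hn1⟩ x hx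

end Pool.Agent.MP72S.D
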