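import Pool.Agent.Lib.MP_72e2e6_nt.Sm.D.Spec

/-!
# MP_72e2e6_nt, `Sm`, block D: the global constants
-/

namespace Pool.Agent.MP72S.D

open Polynomial IntermediateField Pool.Agent.MP72W

/-- constants in `F(t)` -/
private theorem fg_1 (F : Type) [Field F] [Finite F] (x : RatFunc F) (n : ℕ)
    (hn : 1 ≤ n) (hx : x ^ Nat.card F ^ n = x) : ∃ c : F, x = RatFunc.C c := by
  have hq : 1 < Nat.card F := Finite.one_lt_card
  have hN : 1 < Nat.card F ^ n := Nat.one_lt_pow (by omega) hq
  have hint : IsIntegral F[X] x := by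
    refine ⟨X ^ Nat.card F ^ n - X, ?_, ?_⟩
    · apply monic_X_pow_sub
      rw [degree_X]
      exact_mod_cast hN
    · simp [hx]
  obtain ⟨p, rfl⟩ := IsIntegrallyClosed.isIntegral_iff.1 hint
  have hp : p ^ Nat.card F ^ n = p := by
    apply RatFunc.algebraMap_injective F
    rw [map_pow, hx]
  have hd : p.natDegree = 0 := by
    have h1 := congrArg natDegree hp
    rw [natDegree_pow] at h1
    by_contra h0
    have h2 : 1 * p.natDegree < Nat.card F ^ n * p.natDegree :=
      Nat.mul_lt_mul_of_pos_right hN (Nat.pos_of_ne_zero h0)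
    omega
  refine ⟨p.coeff 0, ?_⟩
  rw [← RatFunc.algebraMap_C]
  rw [← eq_C_of_natDegree_eq_zero hd]

theorem tFg (hCs : S_Cs) : S_Fg := by
  classical
  intro F _ _
  obtain ⟨p, hpF⟩ := CharP.exists F
  have : CharP (RatFunc F) p := charP_of_injective_algebraMap
    (algebraMap F (RatFunc F)).injective p
  have : CharP (Kgs F) p :=
    charP_of_injective_algebraMap (algebraMap (RatFunc F) (Kgs F)).injective p
  have : Fintype F := Fintype.ofFinite F
  obtain ⟨r0, hp, hn⟩ := FiniteField.card F p
  have : Fact p.Prime := ⟨hp⟩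
  obtain ⟨r, hr, hq⟩ : ∃ r : ℕ, 1 ≤ r ∧ Nat.card F = p ^ r :=
    ⟨r0, r0.2, by rw [Nat.card_eq_fintype_card, hn]⟩
  obtain ⟨-, -, -, -, -, hcard, -⟩ := hCs p (Nat.card F) r hr hq (Kgs F)
  refine ⟨?_, ?_, ?_⟩
  · rintro x ⟨n, hn, hx⟩
    apply fg_1 F x n hn
    apply (algebraMap (RatFunc F) (Kgs F)).injective
    rw [map_pow, hx]
  · intro L _ _ ι
    constructor
    · rintro c ⟨n, hn, hc⟩
      exact ⟨n, hn, by rw [← map_pow, hc]⟩
    · rintro c ⟨n, hn, hc⟩
      obtain ⟨N, hN⟩ : ∃ N, N = Nat.card F ^ n := ⟨_, rfl⟩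
      have hN1 : 1 < N := by
        rw [hN]
        exact Nat.one_lt_pow (by omega) Finite.one_lt_card
      rw [← hN] at hc
      have hne : (X ^ N - X : L[X]) ≠ 0 := FiniteField.X_pow_card_sub_X_ne_zero _ hN1
      have hnd : (X ^ N - X : L[X]).natDegree = N :=
        FiniteField.X_pow_card_sub_X_natDegree_eq _ hN1
      obtain ⟨A, hA⟩ : ∃ A : Set (Kgs F), A = {x | x ^ N = x} := ⟨_, rfl⟩
      have hAc : A.ncard = N := by
        rw [hA, hN]
        exact hcard n hn
      have hB : ((X ^ N - X : L[X]).roots.toFinset : Set L).ncard ≤ N := by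
        rw [Set.ncard_coe_finset]
        refine (Multiset.toFinset_card_le _).trans ((card_roots' _).trans ?_)
        rw [hnd]
      have hsub : ι '' A ⊆ ((X ^ N - X : L[X]).roots.toFinset : Set L) := by
        rintro _ ⟨x, hx, rfl⟩
        rw [hA] at hx
        have hx' : (ι x) ^ N = ι x := by
          rw [← map_pow]
          exact congrArg ι hx
        simp [hne, hx']
      have heq : ι '' A = ((X ^ N - X : L[X]).roots.toFinset : Set L) := by
        apply Set.eq_of_subset_of_ncard_le hsub
        have hinj : Function.Injective ι := ι.toRingHom.injective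
        rw [Set.ncard_image_of_injective _ hinj, hAc]
        exact hB
      have hcr : c ∈ ((X ^ N - X : L[X]).roots.toFinset : Set L) := by
        simp [hne, hc]
      rw [← heq] at hcr
      obtain ⟨c', hc', hcc⟩ := hcr
      rw [hA] at hc'
      exact ⟨c', ⟨n, hn, by rw [← hN]; exact hc'⟩, hcc⟩
  · intro x
    constructor
    · rintro ⟨n, hn, hx⟩
      have hN1 : 1 < Nat.card F ^ n := Nat.one_lt_pow (by omega) Finite.one_lt_card
      refine ⟨X ^ Nat.card F ^ n - X, FiniteField.X_pow_card_sub_X_ne_zero F hN1, ?_⟩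
      rw [map_sub, map_pow, aeval_X, hx, sub_self]
    · intro h
      have hint : IsIntegral F x := h.isIntegral
      have hfd : FiniteDimensional F (IntermediateField.adjoin F {x}) :=
        IntermediateField.adjoin.finiteDimensional hint
      have hfE : Finite (IntermediateField.adjoin F {x}) := Module.finite_of_finite F
      have hcE : Nat.card (IntermediateField.adjoin F {x}) =
          Nat.card F ^ Module.finrank F (IntermediateField.adjoin F {x}) :=
        Module.natCard_eq_pow_finrank (K := F)
      refine ⟨Module.finrank F (IntermediateField.adjoin F {x}), Module.finrank_pos, ?_⟩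
      rw [← hcE]
      have : Fintype (IntermediateField.adjoin F {x}) := Fintype.ofFinite _
      have h1 := FiniteField.pow_card
        (⟨x, IntermediateField.mem_adjoin_simple_self F x⟩ : IntermediateField.adjoin F {x})
      rw [Nat.card_eq_fintype_card]
      exact congrArg Subtype.val h1

end Pool.Agent.MP72S.D
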