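import Pool.Agent.Lib.MP_72e2e6_nt.Sm.D.Hp

/-!
# MP_72e2e6_nt, `Sm`, block D: module Fi (every open subgroup contains almost all the inertia
generators)
-/

namespace Pool.Agent.MP72S.D

open Polynomial IntermediateField Pool.Agent.MP72W Hp

/-- The monic irreducible divisors of a polynomial are finitely many. -/
private theorem fin_dvd {F : Type} [Field F] {a : F[X]} (ha : a ≠ 0) :
    {P : {P : F[X] // P.Monic ∧ Irreducible P} | P.1 ∣ a}.Finite := by
  classical
  have h1 : ((UniqueFactorizationMonoid.normalizedFactors a).toFinset : Set F[X]).Finite :=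
    Finset.finite_toSet _
  refine Set.Finite.of_finite_image (f := Subtype.val) (h1.subset ?_)
    (Subtype.val_injective.injOn)
  rintro _ ⟨P, hP, rfl⟩
  rw [Finset.mem_coe, Multiset.mem_toFinset, UniqueFactorizationMonoid.mem_normalizedFactors_iff' ha]
  exact ⟨P.2.2, P.2.1.normalize_eq_self, hP⟩

/-- Elements of `K` are units at almost all places. -/
private theorem fin_val {F : Type} [Field F] [Finite F] (A : Pl F → Lcd F) (hA : LDok F A)
    {x : RatFunc F} (hx : x ≠ 0) : {w | (A w).av x ≠ 1}.Finite := by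
  obtain ⟨a, b, hb, hab⟩ := IsFractionRing.div_surjective (A := F[X]) x
  have hb0 : b ≠ 0 := nonZeroDivisors.ne_zero hb
  have ha0 : a ≠ 0 := by
    rintro rfl
    rw [map_zero, zero_div] at hab
    exact hx hab.symm
  refine (((Set.finite_singleton (none : Pl F))).union
    (((fin_dvd ha0).union (fin_dvd hb0)).image some)).subset ?_
  intro w hw
  cases w with
  | none => exact Or.inl rfl
  | some P =>
    right
    refine ⟨P, ?_, rfl⟩
    by_contra hcon
    rw [Set.mem_union, Set.mem_ofPred_eq, Set.mem_ofPred_eq, not_or] at hcon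
    apply hw
    have hpl := (hA.ok (some P)).pl
    have h1 : ∀ c : F[X], c ≠ 0 → ¬ P.1 ∣ c → (A (some P)).av (algebraMap F[X] (RatFunc F) c) = 1 := by
      intro c hc hPc
      have h2 := hpl.2.2 c hc
      rw [h2, multiplicity_eq_zero.2 hPc, pow_zero]
    rw [← hab, map_div₀, h1 a ha0 hcon.1, h1 b hb0 hcon.2, div_one]

/-- Roots of monic polynomials with integral coefficients are integral. -/
private theorem root_le {K L : Type} [Field K] [Field L] {n : L → ℝ} (N : Nrm n) (e : K →+* L)
    {p : K[X]} (hp : p.Monic) (hc : ∀ i, n (e (p.coeff i)) ≤ 1) {a : L} (ha : p.eval₂ e a = 0) :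
    n a ≤ 1 := by
  by_contra hcon
  push Not at hcon
  rw [eval₂_eq_sum_range, Finset.sum_range_succ, hp.coeff_natDegree, map_one, one_mul] at ha
  have h1 : a ^ p.natDegree = - ∑ i ∈ Finset.range p.natDegree, e (p.coeff i) * a ^ i := by
    linear_combination ha
  rcases Nat.eq_zero_or_pos p.natDegree with h0 | h0
  · rw [h0, pow_zero, Finset.range_zero, Finset.sum_empty, neg_zero] at h1
    exact one_ne_zero h1
  have h2 : n (a ^ p.natDegree) ≤ n a ^ (p.natDegree - 1) := by
    rw [h1, N.neg]
    refine N.sum_le _ _ (pow_nonneg (N.nn a) _) fun i hi => ?_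
    rw [Finset.mem_range] at hi
    rw [N.mul, N.pow]
    calc n (e (p.coeff i)) * n a ^ i ≤ 1 * n a ^ i :=
          mul_le_mul_of_nonneg_right (hc i) (pow_nonneg (N.nn a) _)
      _ ≤ n a ^ (p.natDegree - 1) := by
          rw [one_mul]
          exact pow_le_pow_right₀ hcon.le (by omega)
  rw [N.pow] at h2
  have h3 : n a ^ (p.natDegree - 1) < n a ^ p.natDegree := pow_lt_pow_right₀ hcon (by omega)
  exact absurd h2 (not_le.2 h3)

theorem tFi (h1 : S_Lf) (h2 : S_Lc) (h3 : S_Ln) (h4 : S_Cs) (h5 : S_Nn) (h6 : S_Fg) (h7 : S_QG)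
    (h8 : S_Rt) (h9 : S_Rq) (h10 : S_Kt) : S_Fi := by
  intro F _ _ hF A hA U hU
  have hC : ∀ w, Cx w.o (A w).av := fun w => cx_of h1 h2 h3 F _ _ (hA.ok w).pl
  have hcc : ∀ w, Cc (Nat.card F) (Kvs (A w).av) := fun w => cc_of h4 F _ (fv F _)
  have hL2 : ∀ w, (2 : Kvs (A w).av) ≠ 0 := fun w => two_ne hF (fv F _)
  obtain ⟨g1, g2, g3, g4, g5⟩ := h7 F
  -- integrality
  have hle : ∀ a : Qf F, {w | ¬ nm (A w).av ((A w).eQ a) ≤ 1}.Finite := by
    intro a
    have hint : IsIntegral (RatFunc F) a := Algebra.IsIntegral.isIntegral a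
    have hfin : (⋃ i ∈ Finset.range ((minpoly (RatFunc F) a).natDegree + 1),
        {w | ¬ (A w).av ((minpoly (RatFunc F) a).coeff i) ≤ 1}).Finite := by
      refine Set.Finite.biUnion (Finset.finite_toSet _) fun i _ => ?_
      by_cases hi : (minpoly (RatFunc F) a).coeff i = 0
      · refine Set.finite_empty.subset ?_
        intro w hw
        exact hw (by rw [hi, map_zero]; exact zero_le_one)
      · exact (fin_val A hA hi).subset fun w hw h => hw h.le
    refine hfin.subset ?_
    intro w hw
    by_contra hcon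
    apply hw
    refine root_le (hC w).nr (((A w).eQ : Qf F →+* Kvs (A w).av).comp
      (algebraMap (RatFunc F) (Qf F))) (minpoly.monic hint) ?_ (a := (A w).eQ a) ?_
    · intro i
      change nm (A w).av ((A w).eQ (algebraMap (RatFunc F) (Qf F) _)) ≤ 1
      rw [eQ_alg, (hC w).alg]
      by_cases hi : i < (minpoly (RatFunc F) a).natDegree + 1
      · by_contra hc
        apply hcon
        rw [Set.mem_iUnion₂]
        exact ⟨i, Finset.mem_range.2 hi, hc⟩
      · rw [coeff_eq_zero_of_natDegree_lt (by omega), map_zero]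
        exact zero_le_one
    · have e0 := hom_eval₂ (minpoly (RatFunc F) a) (algebraMap (RatFunc F) (Qf F))
        ((A w).eQ : Qf F →+* Kvs (A w).av) a
      refine e0.symm.trans ?_
      change (A w).eQ (aeval a (minpoly (RatFunc F) a)) = 0
      rw [minpoly.aeval, map_zero]
  have hone : ∀ a : Qf F, a ≠ 0 → {w | nm (A w).av ((A w).eQ a) ≠ 1}.Finite := by
    intro a ha
    refine ((hle a).union (hle a⁻¹)).subset ?_
    intro w hw
    by_contra hcon
    rw [Set.mem_union, not_or] at hcon
    obtain ⟨e1, e2⟩ := hcon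
    have e3 : nm (A w).av ((A w).eQ a) ≤ 1 := not_not.1 e1
    have e4 : nm (A w).av ((A w).eQ a⁻¹) ≤ 1 := not_not.1 e2
    rw [map_inv₀, (hC w).nr.inv] at e4
    have e5 : (A w).eQ a ≠ 0 := fun h => ha (eQ_inj (A w) (h.trans (map_zero (A w).eQ).symm))
    have e6 := (inv_le_one₀ ((hC w).nr.pos e5)).1 e4
    exact hw (le_antisymm e3 e6)
  -- almost everywhere unramified
  have hun : ∀ a : Qf F, {w | (A w).eQ a ∉ Knr (A w).av}.Finite := by
    apply g5 (fun a => {w | (A w).eQ a ∉ Knr (A w).av}.Finite)
    · intro x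
      refine Set.finite_empty.subset ?_
      intro w hw
      apply hw
      rw [eQ_alg]
      exact IntermediateField.algebraMap_mem _ _
    · intro c hc
      refine Set.finite_empty.subset ?_
      intro w hw
      apply hw
      obtain ⟨R, hR⟩ := (hC w).lf
      exact (h5 F _ _ _ R hR).2.2.1 _ (eQ_cst h6 (A w) hc)
    · intro a b ha hb
      refine (ha.union hb).subset ?_
      intro w hw
      by_contra hcon
      rw [Set.mem_union, not_or] at hcon
      apply hw
      rw [map_add]
      exact add_mem (not_not.1 hcon.1) (not_not.1 hcon.2)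
    · intro a b ha hb
      refine (ha.union hb).subset ?_
      intro w hw
      by_contra hcon
      rw [Set.mem_union, not_or] at hcon
      apply hw
      rw [map_mul]
      exact mul_mem (not_not.1 hcon.1) (not_not.1 hcon.2)
    · intro a ha
      refine ha.subset ?_
      intro w hw h
      apply hw
      rw [map_inv₀]
      exact inv_mem h
    · intro a ha
      by_cases ha0 : a = 0
      · refine Set.finite_empty.subset ?_
        intro w hw
        apply hw
        rw [ha0, map_zero]
        exact zero_mem _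
      refine (ha.union (hone a ha0)).subset ?_
      intro w hw
      by_contra hcon
      rw [Set.mem_union, not_or] at hcon
      have e1 : (A w).eQ (a ^ 2) ∈ Knr (A w).av := not_not.1 hcon.1
      have e2 : nm (A w).av ((A w).eQ a) = 1 := not_not.1 hcon.2
      apply hw
      have C := hC w
      have cc := hcc w
      have N := C.nr
      obtain ⟨R, hR⟩ := C.lf
      obtain ⟨m1, m2, m3, m4, m5⟩ := h5 F _ _ _ R hR
      obtain ⟨r1, r2, r3, r4⟩ := h8 F hF _ _ _ R hR
      have e3 : nm (A w).av ((A w).eQ (a ^ 2)) = 1 := by rw [map_pow, N.pow, e2, one_pow]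
      obtain ⟨c, hc, hc'⟩ := m2 _ e1 e3.le
      have hc0 : c ≠ 0 := by
        rintro rfl
        rw [sub_zero, e3] at hc'
        exact lt_irrefl _ hc'
      obtain ⟨c₁, hc₁⟩ := ex_root (hL2 w) c 1
      have hc₁c : c₁ ∈ Cst (Nat.card F) (Kvs (A w).av) :=
        cc.root c₁ (2 ^ 1) Nat.one_le_two_pow (by rw [hc₁]; exact hc)
      have hc₁0 : c₁ ≠ 0 := by
        rintro rfl
        rw [zero_pow (pow_ne_zero _ two_ne_zero)] at hc₁
        exact hc0 hc₁.symm
      have hs : ((A w).eQ a / c₁) ^ 2 ^ 1 = (A w).eQ (a ^ 2) / c := by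
        rw [div_pow, hc₁, map_pow, pow_one]
      obtain ⟨z, hz, hz1, hz2⟩ := r3 1 ((A w).eQ a / c₁) (by
        rw [hs]
        have e4 : (A w).eQ (a ^ 2) / c - 1 = ((A w).eQ (a ^ 2) - c) / c := by field_simp
        rw [e4, N.div, C.cst c hc hc0, div_one]
        exact hc')
      have hz0 : z ≠ 0 := by
        rintro rfl
        rw [zero_pow (pow_ne_zero _ two_ne_zero)] at hz1
        exact zero_ne_one hz1
      have e5 : (A w).eQ a / c₁ / z ∈ Knr (A w).av := by
        rw [← InfiniteGalois.fixedField_fixingSubgroup (Knr (A w).av),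
          IntermediateField.mem_fixedField_iff]
        intro g hg
        rw [IntermediateField.mem_fixingSubgroup_iff] at hg
        apply r4 g 1
        · apply hg
          rw [div_pow, hs, hz1, div_one]
          exact div_mem e1 (m3 c hc)
        · have e6 : (A w).eQ a / c₁ / z - 1 = ((A w).eQ a / c₁ - z) / z := by field_simp
          rw [e6, N.div, C.cst z hz hz0, div_one]
          exact hz2
      have e7 : (A w).eQ a = (A w).eQ a / c₁ / z * z * c₁ := by field_simp
      rw [e7]
      exact mul_mem (mul_mem e5 (m3 z hz)) (m3 c₁ hc₁c)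
  -- the stabilizers
  obtain ⟨s, hs⟩ := (h10 F).2.1 U hU (one_mem U)
  have hfin : (⋃ a ∈ s, {w | (A w).eQ a ∉ Knr (A w).av}).Finite :=
    Set.Finite.biUnion (Finset.finite_toSet _) fun a _ => hun a
  refine hfin.subset ?_
  intro w hw
  by_contra hcon
  apply hw
  apply hs
  intro a ha
  have e1 : (A w).eQ a ∈ Knr (A w).av := by
    by_contra h
    apply hcon
    rw [Set.mem_iUnion₂]
    exact ⟨a, ha, h⟩
  change (A w).rQ (A w).t a = a
  apply eQ_inj (A w)
  rw [(h9 F hF _ _ (hA.ok w)).1]
  obtain ⟨R, hR⟩ := (hC w).lf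
  exact ((h5 F _ _ _ R hR).2.2.2.1 _).1 (hA.ok w).tg _ e1

end Pool.Agent.MP72S.D
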