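import Pool.Agent.Lib.MP_72e2e6_nt.Sm.D.Spec

/-!
# MP_72e2e6_nt, `Sm/D/Fx`: the elements fixed by the automorphisms trivial on the constants
-/

namespace Pool.Agent.MP72S.D

open Polynomial IntermediateField Pool.Agent.MP72W

section

variable {k Q : Type} [Field k] [Field Q] [Algebra k Q] (t : Q)

/-- The quotients of polynomials in `t`. -/
private def Fr (a : Q) : Prop := ∃ p s : k[X], a = aeval t p / aeval t s

private theorem fr_ne {a : Q} (h : Fr (k := k) t a) :
    ∃ p s : k[X], aeval t s ≠ 0 ∧ a = aeval t p / aeval t s := by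
  obtain ⟨p, s, rfl⟩ := h
  by_cases hs : aeval t s = 0
  · exact ⟨0, 1, by simp, by simp [hs]⟩
  · exact ⟨p, s, hs, rfl⟩

private theorem fr_add {a b : Q} (ha : Fr (k := k) t a) (hb : Fr (k := k) t b) :
    Fr (k := k) t (a + b) := by
  obtain ⟨p, s, hs, rfl⟩ := fr_ne t ha
  obtain ⟨p', s', hs', rfl⟩ := fr_ne t hb
  refine ⟨p * s' + s * p', s * s', ?_⟩
  rw [div_add_div _ _ hs hs', map_add, map_mul, map_mul, map_mul]

private theorem fr_mul {a b : Q} (ha : Fr (k := k) t a) (hb : Fr (k := k) t b) :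
    Fr (k := k) t (a * b) := by
  obtain ⟨p, s, rfl⟩ := ha
  obtain ⟨p', s', rfl⟩ := hb
  refine ⟨p * p', s * s', ?_⟩
  rw [div_mul_div_comm, map_mul, map_mul]

private theorem fr_inv {a : Q} (ha : Fr (k := k) t a) : Fr (k := k) t a⁻¹ := by
  obtain ⟨p, s, rfl⟩ := ha
  exact ⟨s, p, inv_div _ _⟩

private theorem fr_pol (p : k[X]) : Fr (k := k) t (aeval t p) := ⟨p, 1, by simp⟩

end

theorem tFx (hQG : S_QG) : S_Fx := by
  intro F _ _ a ha
  have := (hQG F).1
  have hal : ∀ x : RatFunc F, Fr (k := kF F) (tQ F) (algebraMap (RatFunc F) (Qf F) x) := by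
    intro x
    have hp : ∀ P : F[X], aeval (tQ F) (P.map (algebraMap F (kF F))) =
        algebraMap (RatFunc F) (Qf F) (algebraMap F[X] (RatFunc F) P) := by
      intro P
      rw [aeval_map_algebraMap, tQ, aeval_algebraMap_apply, RatFunc.aeval_X_left_eq_algebraMap]
    refine ⟨x.num.map (algebraMap F (kF F)), x.denom.map (algebraMap F (kF F)), ?_⟩
    rw [hp, hp, ← map_div₀, RatFunc.num_div_denom]
  let M : IntermediateField (RatFunc F) (Qf F) :=
    { carrier := {a | Fr (k := kF F) (tQ F) a}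
      mul_mem' := fun ha hb => fr_mul _ ha hb
      one_mem' := ⟨1, 1, by simp⟩
      add_mem' := fun ha hb => fr_add _ ha hb
      zero_mem' := ⟨0, 1, by simp⟩
      algebraMap_mem' := hal
      inv_mem' := fun _ ha => fr_inv _ ha }
  have hM : a ∈ M := by
    rw [← InfiniteGalois.fixedField_fixingSubgroup M, IntermediateField.mem_fixedField_iff]
    intro g hg
    rw [IntermediateField.mem_fixingSubgroup_iff] at hg
    refine ha g fun c => hg _ ?_
    have h := fr_pol (k := kF F) (tQ F) (C c)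
    rw [aeval_C] at h
    exact h
  exact hM

end Pool.Agent.MP72S.D
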