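import Pool.Agent.Lib.MP_72e2e6_nt.Sm.D.Spec

/-!
# MP_72e2e6_nt, `Sm/D/Kk`: the field of constants
-/

namespace Pool.Agent.MP72S.D

open Polynomial IntermediateField Pool.Agent.MP72W

theorem tKk (_hCs : S_Cs) (hFg : S_Fg) (hQG : S_QG) : S_Kk := by
  intro F _ _
  obtain ⟨-, hcon, -, -, -⟩ := hQG F
  have i1 : IsScalarTower F (Qf F) (Kgs F) := IsScalarTower.of_algebraMap_eq fun _ => rfl
  have i2 : IsScalarTower F (kF F) (Kgs F) := IsScalarTower.of_algebraMap_eq fun _ => rfl
  have h2 : ∀ c : Qf F, c ∈ kF F ↔ (c : Kgs F) ∈ Cst (Nat.card F) (Kgs F) := by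
    intro c
    rw [(hFg F).2.2, mem_algebraicClosure_iff]
    exact (isAlgebraic_algebraMap_iff (A := Kgs F) (algebraMap (Qf F) (Kgs F)).injective).symm
  refine ⟨?_, h2, ?_, ?_, ?_⟩
  · have : Algebra.IsAlgebraic F (kF F) := inferInstance
    have : PerfectField (kF F) := Algebra.IsAlgebraic.perfectField F
    refine IsAlgClosed.of_exists_root _ fun p hm hirr => ?_
    have hsep : p.Separable := PerfectField.separable_of_irreducible hirr
    have hdeg : p.degree ≠ 0 := (degree_pos_of_irreducible hirr).ne'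
    obtain ⟨x, hx⟩ := IsSepClosed.exists_aeval_eq_zero (Kgs F) p hdeg hsep
    have hxa : IsAlgebraic (kF F) x := ⟨p, hirr.ne_zero, hx⟩
    have hxF : IsAlgebraic F x := hxa.restrictScalars F
    have hxc : x ∈ Cst (Nat.card F) (Kgs F) := (hFg F).2.2 x |>.mpr hxF
    have hxQ := hcon x hxc
    let y : kF F := ⟨⟨x, hxQ⟩, (h2 _).mpr hxc⟩
    refine ⟨y, ?_⟩
    apply (algebraMap (kF F) (Kgs F)).injective
    rw [map_zero, ← hx, ← coe_aeval_eq_eval, ← aeval_algebraMap_apply]
    rfl
  · intro c
    obtain ⟨n, hn, h⟩ := (h2 c).mp c.2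
    refine ⟨n, hn, ?_⟩
    apply Subtype.ext
    apply Subtype.ext
    exact h
  · classical
    intro c hc
    have := Fintype.ofFinite F
    by_contra hne
    have hno : ∀ a : F, algebraMap F (kF F) a ≠ c := by
      intro a ha
      apply hne
      refine ⟨a, ?_⟩
      rw [← ha, ← RatFunc.algebraMap_eq_C, ← IsScalarTower.algebraMap_apply]
      rfl
    have hq : 1 < Nat.card F := Finite.one_lt_card
    have hp0 : (X ^ Nat.card F - X : (kF F)[X]) ≠ 0 := FiniteField.X_pow_card_sub_X_ne_zero _ hq
    let Z : Finset (kF F) := insert c (Finset.univ.image (algebraMap F (kF F)))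
    have hZ : Z.val ⊆ (X ^ Nat.card F - X : (kF F)[X]).roots := by
      intro z hz
      rw [mem_roots hp0, IsRoot, eval_sub, eval_pow, eval_X, sub_eq_zero]
      have hz' : z ∈ Z := hz
      rw [Finset.mem_insert, Finset.mem_image] at hz'
      rcases hz' with rfl | ⟨a, -, rfl⟩
      · exact hc
      · rw [← map_pow, Nat.card_eq_fintype_card, FiniteField.pow_card]
    have hle := card_le_degree_of_subset_roots hZ
    rw [FiniteField.X_pow_card_sub_X_natDegree_eq _ hq] at hle
    have hcard : Z.card = Nat.card F + 1 := by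
      rw [Finset.card_insert_of_notMem, Finset.card_image_of_injective _
        (algebraMap F (kF F)).injective, Finset.card_univ, Nat.card_eq_fintype_card]
      rw [Finset.mem_image]
      rintro ⟨a, -, ha⟩
      exact hno a ha
    omega
  · intro hal
    have h3 : IsAlgebraic F (tQ F) := hal.restrictScalars F
    have h4 : tQ F ∈ kF F := mem_algebraicClosure_iff.mpr h3
    have h5 := (h2 _).mp h4
    obtain ⟨c, hc⟩ := (hFg F).1 RatFunc.X h5
    have h6 : algebraMap F[X] (RatFunc F) X = algebraMap F[X] (RatFunc F) (C c) := by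
      rw [RatFunc.algebraMap_X, hc, RatFunc.algebraMap_C]
    exact X_ne_C c (IsFractionRing.injective F[X] (RatFunc F) h6)

end Pool.Agent.MP72S.D
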