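import Pool.Agent.Lib.MP_72e2e6_nt.Sm.D.Hp

/-!
# MP_72e2e6_nt, `Sm`, block D: module Kl (the values of the quadratic characters at the inertia
generators and at the Frobenius elements)
-/

namespace Pool.Agent.MP72S.D

open Polynomial IntermediateField Pool.Agent.MP72W Hp

/-- Square roots of units of `Knr` are in `Knr`. -/
private theorem knr_sqrt {F : Type} [Field F] [Finite F] {w : Option F[X]}
    {v : AbsoluteValue (RatFunc F) ℝ} (C : Cx w v) (cc : Cc (Nat.card F) (Kvs v)) (h5 : S_Nn)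
    (h8 : S_Rt) (hF : (2 : F) ≠ 0) {a : Kvs v} (e1 : a ^ 2 ∈ Knr v) (e2 : nm v a = 1) :
    a ∈ Knr v := by
  have N := C.nr
  obtain ⟨R, hR⟩ := C.lf
  obtain ⟨m1, m2, m3, m4, m5⟩ := h5 F _ _ _ R hR
  obtain ⟨r1, r2, r3, r4⟩ := h8 F hF _ _ _ R hR
  have e3 : nm v (a ^ 2) = 1 := by rw [N.pow, e2, one_pow]
  obtain ⟨c, hc, hc'⟩ := m2 _ e1 e3.le
  have hc0 : c ≠ 0 := by
    rintro rfl
    rw [sub_zero, e3] at hc'
    exact lt_irrefl _ hc'
  obtain ⟨c₁, hc₁⟩ := ex_root (two_ne hF (fv F v)) c 1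
  have hc₁c : c₁ ∈ Cst (Nat.card F) (Kvs v) :=
    cc.root c₁ (2 ^ 1) Nat.one_le_two_pow (by rw [hc₁]; exact hc)
  have hc₁0 : c₁ ≠ 0 := by
    rintro rfl
    rw [zero_pow (pow_ne_zero _ two_ne_zero)] at hc₁
    exact hc0 hc₁.symm
  have hs : (a / c₁) ^ 2 ^ 1 = a ^ 2 / c := by
    rw [div_pow, hc₁, pow_one]
  obtain ⟨z, hz, hz1, hz2⟩ := r3 1 (a / c₁) (by
    rw [hs]
    have e4 : a ^ 2 / c - 1 = (a ^ 2 - c) / c := by field_simp
    rw [e4, N.div, C.cst c hc hc0, div_one]
    exact hc')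
  have hz0 : z ≠ 0 := by
    rintro rfl
    rw [zero_pow (pow_ne_zero _ two_ne_zero)] at hz1
    exact zero_ne_one hz1
  have e5 : a / c₁ / z ∈ Knr v := by
    rw [← InfiniteGalois.fixedField_fixingSubgroup (Knr v), IntermediateField.mem_fixedField_iff]
    intro g hg
    rw [IntermediateField.mem_fixingSubgroup_iff] at hg
    apply r4 g 1
    · apply hg
      rw [div_pow, hs, hz1, div_one]
      exact div_mem e1 (m3 c hc)
    · have e6 : a / c₁ / z - 1 = (a / c₁ - z) / z := by field_simp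
      rw [e6, N.div, C.cst z hz hz0, div_one]
      exact hz2
  have e7 : a = a / c₁ / z * z * c₁ := by field_simp
  rw [e7]
  exact mul_mem (mul_mem e5 (m3 z hz)) (m3 c₁ hc₁c)

private theorem sq_one_or {L : Type} [Field L] {z : L} (h : z ^ 2 = 1) :
    z = 1 ∨ z = -1 := by
  have h1 : (z - 1) * (z + 1) = 0 := by linear_combination h
  rcases mul_eq_zero.1 h1 with h2 | h2
  · exact Or.inl (by linear_combination h2)
  · exact Or.inr (by linear_combination h2)

theorem tKl (h1 : S_Lf) (h2 : S_Lc) (h3 : S_Ln) (h4 : S_Cs) (h5 : S_Nn) (_h6 : S_Fg) (h7 : S_QG)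
    (h8 : S_Rt) (h9 : S_Rq) (h10 : S_Km) : S_Kl := by
  intro F _ _ hF w A hA
  have C := cx_of h1 h2 h3 F w A.av hA.pl
  have cc : Cc (Nat.card F) (Kvs A.av) := cc_of h4 F _ (fv F _)
  have hL2 : (2 : Kvs A.av) ≠ 0 := two_ne hF (fv F _)
  have N := C.nr
  obtain ⟨q1, -, -, -⟩ := h9 F hF w A hA
  obtain ⟨-, -, -, sq, -⟩ := h7 F
  have sq := sq hF
  obtain ⟨-, c2, c3, c4⟩ := h10 F hF
  obtain ⟨R, hR⟩ := C.lf
  obtain ⟨r1, r2, r3, r4⟩ := h8 F hF _ _ _ R hR
  have hQ2 : (2 : Qf F) ≠ 0 := by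
    intro h
    apply hL2
    have h11 := congrArg A.eQ h
    rw [map_ofNat, map_zero] at h11
    exact h11
  have hinj : ∀ {f : RatFunc F} {x : Qf F}, f ≠ 0 → x ^ 2 = algebraMap (RatFunc F) (Qf F) f →
      x ≠ 0 := by
    rintro f x hf hx rfl
    rw [zero_pow two_ne_zero] at hx
    exact hf ((algebraMap (RatFunc F) (Qf F)).injective (by rw [← hx, map_zero]))
  have H0 : ∀ {f : RatFunc F} {x : Qf F} {σ : GQ F}, f ≠ 0 →
      x ^ 2 = algebraMap (RatFunc F) (Qf F) f → σ x = x → hK f σ = 0 := by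
    intro f x σ hf hx hσ
    by_contra hne
    have h11 := c2 f hf x hx σ
    rw [hσ, if_neg hne] at h11
    have h12 : 2 * x = 0 := by linear_combination h11
    rcases mul_eq_zero.1 h12 with h13 | h13
    · exact hQ2 h13
    · exact hinj hf hx h13
  have z2 : ∀ a : ZMod 2, a ≠ 0 → a = 1 := by decide
  have H1 : ∀ {f : RatFunc F} {x : Qf F} {σ : GQ F}, f ≠ 0 →
      x ^ 2 = algebraMap (RatFunc F) (Qf F) f → σ x = -x → hK f σ = 1 := by
    intro f x σ hf hx hσ
    apply z2
    intro h0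
    have h11 := c2 f hf x hx σ
    rw [hσ, if_pos h0] at h11
    have h12 : 2 * x = 0 := by linear_combination -h11
    rcases mul_eq_zero.1 h12 with h13 | h13
    · exact hQ2 h13
    · exact hinj hf hx h13
  have hu0 : unP w ≠ 0 := by
    intro h
    have h11 := C.hv
    rw [h, map_zero] at h11
    norm_num at h11
  have hunK : ∀ x : Qf F, x ^ 2 = algebraMap (RatFunc F) (Qf F) (unP w) →
      A.eQ x ^ 2 = unK w A.av := by
    intro x hx
    rw [← map_pow, hx, eQ_alg]
    rfl
  -- units at `t`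
  have hunit : ∀ f : RatFunc F, A.av f = 1 → hK f (A.rQ A.t) = 0 := by
    intro f hf
    have hf0 : f ≠ 0 := by
      rintro rfl
      rw [map_zero] at hf
      exact zero_ne_one hf
    obtain ⟨x, hx⟩ := sq (algebraMap (RatFunc F) (Qf F) f)
    refine H0 hf0 hx ?_
    apply eQ_inj A
    rw [q1]
    have e1 : A.eQ x ^ 2 ∈ Knr A.av := by
      rw [← map_pow, hx, eQ_alg]
      exact IntermediateField.algebraMap_mem _ _
    have e2 : nm A.av (A.eQ x) = 1 := by
      apply N.eq_one_of_pow (k := 2) two_ne_zero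
      rw [← N.pow, ← map_pow, hx, eQ_alg, C.alg, hf]
    exact ((h5 F _ _ _ R hR).2.2.2.1 _).1 hA.tg _ (knr_sqrt C cc h5 h8 hF e1 e2)
  have hut : hK (unP w) (A.rQ A.t) = 1 := by
    obtain ⟨x, hx⟩ := sq (algebraMap (RatFunc F) (Qf F) (unP w))
    refine H1 hu0 hx ?_
    apply eQ_inj A
    rw [q1, map_neg]
    exact hA.ts _ (hunK x hx)
  have huf : hK (unP w) (A.rQ A.f) = 0 := by
    obtain ⟨x, hx⟩ := sq (algebraMap (RatFunc F) (Qf F) (unP w))
    refine H0 hu0 hx ?_
    apply eQ_inj A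
    rw [q1]
    exact hA.fs _ (hunK x hx)
  have hprin : ∀ f : RatFunc F, A.av (f - 1) < 1 → hK f (A.rQ A.f) = 0 := by
    intro f hf
    have hf0 : f ≠ 0 := by
      rintro rfl
      have e1 := C.alg (0 - 1)
      rw [map_sub, map_sub, map_zero, map_zero, map_one, map_one, N.sub_comm, sub_zero, N.one] at e1
      rw [← e1] at hf
      exact lt_irrefl _ hf
    obtain ⟨x, hx⟩ := sq (algebraMap (RatFunc F) (Qf F) f)
    refine H0 hf0 hx ?_
    apply eQ_inj A
    rw [q1]
    have e0 : A.eQ x ^ 2 ^ 1 =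
        algebraMap A.av.Completion (Kvs A.av) (algebraMap (RatFunc F) A.av.Completion f) := by
      rw [pow_one, ← map_pow, hx, eQ_alg]
    obtain ⟨z, hz, hz1, hz2⟩ := r3 1 (A.eQ x) (by
      rw [e0]
      have e1 := C.alg (f - 1)
      rw [map_sub, map_sub, map_one, map_one] at e1
      rw [e1]
      exact hf)
    have hz0 : z ≠ 0 := by
      rintro rfl
      rw [zero_pow (pow_ne_zero _ two_ne_zero)] at hz1
      exact zero_ne_one hz1
    have e2 : A.f (A.eQ x / z) = A.eQ x / z := by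
      apply r4 A.f 1
      · rw [div_pow, hz1, div_one, e0, AlgEquiv.commutes]
      · have e3 : A.eQ x / z - 1 = (A.eQ x - z) / z := by field_simp
        rw [e3, N.div, C.cst z hz hz0, div_one]
        exact hz2
    have hzf : A.f z = z := by
      rw [pow_one] at hz1
      rcases sq_one_or hz1 with h | h
      · rw [h, map_one]
      · rw [h, map_neg, map_one]
    rw [map_div₀, hzf] at e2
    have e4 := congrArg (fun y => y * z) e2
    simp only [div_mul_cancel₀ _ hz0] at e4
    exact e4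
  have hpos : ∀ n : ℤ, (1 / 2 : ℝ) ^ n ≠ 0 := fun n => zpow_ne_zero _ (by norm_num)
  refine ⟨?_, huf, hprin, ?_, ?_⟩
  · intro f n hf
    have hf0 : f ≠ 0 := by
      rintro rfl
      rw [map_zero] at hf
      exact hpos n hf.symm
    have hf1 : A.av (f / unP w ^ n) = 1 := by
      rw [map_div₀, map_zpow₀, hf, C.hv, div_self (hpos n)]
    have hf10 : f / unP w ^ n ≠ 0 := div_ne_zero hf0 (zpow_ne_zero _ hu0)
    rcases Int.even_or_odd' n with ⟨k, hk | hk⟩
    · have e1 : f = (unP w ^ k) ^ 2 * (f / unP w ^ n) := by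
        rw [hk, ← zpow_natCast, ← zpow_mul, Nat.cast_ofNat, mul_comm k 2,
          mul_div_cancel₀ _ (zpow_ne_zero _ hu0)]
      rw [e1, c3 _ _ (pow_ne_zero _ (zpow_ne_zero _ hu0)) hf10, c4 _ (zpow_ne_zero _ hu0),
        hunit _ hf1, add_zero, hk]
      push_cast
      have e2 : (2 : ZMod 2) = 0 := rfl
      rw [e2, zero_mul]
    · have e1 : f = (unP w ^ k) ^ 2 * (unP w * (f / unP w ^ n)) := by
        have e3 : unP w ^ n = (unP w ^ k) ^ 2 * unP w := by
          rw [hk, ← zpow_natCast, ← zpow_mul, Nat.cast_ofNat, mul_comm k 2, zpow_add_one₀ hu0]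
        rw [← mul_assoc, ← e3, mul_div_cancel₀ _ (zpow_ne_zero _ hu0)]
      rw [e1, c3 _ _ (pow_ne_zero _ (zpow_ne_zero _ hu0)) (mul_ne_zero hu0 hf10),
        c4 _ (zpow_ne_zero _ hu0), c3 _ _ hu0 hf10, hunit _ hf1, hut, add_zero, zero_add, hk]
      push_cast
      have e2 : (2 : ZMod 2) = 0 := rfl
      rw [e2, zero_mul, zero_add]
  · -- constants
    intro a ha
    have ha0 : a ≠ 0 := by
      rintro rfl
      exact ha ⟨0, zero_pow two_ne_zero⟩
    have hCa : RatFunc.C a ≠ 0 := fun h => ha0 ((RatFunc.C (K := F)).injective (by rw [h, map_zero]))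
    have : Fintype F := Fintype.ofFinite F
    have hchar : ringChar F ≠ 2 := by
      intro h
      apply hF
      have h11 := ringChar.Nat.cast_ringChar (R := F)
      rw [h] at h11
      exact_mod_cast h11
    have hodd : Nat.card F % 2 = 1 := by
      rw [Nat.card_eq_fintype_card]
      exact FiniteField.odd_card_of_char_ne_two hchar
    have heu : a ^ (Nat.card F / 2) = -1 := by
      rw [Nat.card_eq_fintype_card]
      rcases FiniteField.pow_dichotomy hchar ha0 with h11 | h11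
      · exfalso
        obtain ⟨b, hb⟩ := (FiniteField.isSquare_iff hchar ha0).2 h11
        exact ha ⟨b, by rw [hb]; ring⟩
      · exact h11
    obtain ⟨x, hx⟩ := sq (algebraMap (RatFunc F) (Qf F) (RatFunc.C a))
    have hxq : x ^ Nat.card F = -x := by
      have e1 : Nat.card F = 2 * (Nat.card F / 2) + 1 := by omega
      rw [e1, pow_succ, pow_mul, hx, ← map_pow, ← map_pow, heu, map_neg, map_neg, map_one, map_one,
        neg_one_mul]
    have hxd : ∀ d : ℕ, x ^ Nat.card F ^ d = (-1) ^ d * x := by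
      intro d
      induction d with
      | zero => rw [pow_zero, pow_one, pow_zero, one_mul]
      | succ d ih =>
        rw [pow_succ, pow_mul, ih, mul_pow, hxq, ← pow_mul, mul_comm d, pow_mul,
          Odd.neg_one_pow (Nat.odd_iff.2 hodd), pow_succ]
        ring
    have hecst : A.eQ x ∈ Cst (Nat.card F) (Kvs A.av) := by
      refine cc.root _ 2 one_le_two ⟨1, le_rfl, ?_⟩
      rw [← map_pow, hx, ← map_pow, pow_one, ← map_pow, ← map_pow, Nat.card_eq_fintype_card,
        FiniteField.pow_card]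
    have hfx : A.rQ A.f x = (-1) ^ dgP w * x := by
      apply eQ_inj A
      rw [q1, hA.ff _ hecst, ← map_pow, hxd]
    rcases Nat.even_or_odd (dgP w) with hd | hd
    · rw [hd.neg_one_pow, one_mul] at hfx
      rw [H0 hCa hx hfx]
      obtain ⟨k, hk⟩ := hd
      rw [hk]
      push_cast
      have e2 : ∀ b : ZMod 2, b + b = 0 := by decide
      rw [e2]
    · rw [hd.neg_one_pow, neg_one_mul] at hfx
      rw [H1 hCa hx hfx]
      obtain ⟨k, hk⟩ := hd
      rw [hk]
      push_cast
      have e2 : (2 : ZMod 2) = 0 := rfl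
      rw [e2, zero_mul, zero_add]
  · -- infinity
    intro hw P hP
    subst hw
    have hX0 : (RatFunc.X : RatFunc F) ≠ 0 := RatFunc.X_ne_zero
    have hXf : hK (RatFunc.X : RatFunc F) (A.rQ A.f) = 0 := by
      have e1 : (RatFunc.X : RatFunc F) = RatFunc.X ^ 2 * unP (F := F) none := by
        change (RatFunc.X : RatFunc F) = RatFunc.X ^ 2 * RatFunc.X⁻¹
        rw [pow_two, mul_assoc, mul_inv_cancel₀ hX0, mul_one]
      rw [e1, c3 _ _ (pow_ne_zero _ hX0) hu0, c4 _ hX0, huf, add_zero]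
    have hXd : ∀ d : ℕ, hK ((RatFunc.X : RatFunc F) ^ d) (A.rQ A.f) = 0 := by
      intro d
      induction d with
      | zero =>
        rw [pow_zero]
        have e1 := c4 (1 : RatFunc F) one_ne_zero (A.rQ A.f)
        rwa [one_pow] at e1
      | succ d ih => rw [pow_succ, c3 _ _ (pow_ne_zero _ hX0) hX0, ih, hXf, add_zero]
    have hpl : ∀ f : RatFunc F, f ≠ 0 → A.av f = 2 ^ f.intDegree := hA.pl
    have hP0 : algebraMap F[X] (RatFunc F) P ≠ 0 := by
      rw [Ne, FaithfulSMul.algebraMap_eq_zero_iff]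
      exact hP.ne_zero
    have e1 : algebraMap F[X] (RatFunc F) P =
        RatFunc.X ^ P.natDegree * (algebraMap F[X] (RatFunc F) P / RatFunc.X ^ P.natDegree) := by
      rw [mul_div_cancel₀ _ (pow_ne_zero _ hX0)]
    rw [e1, c3 _ _ (pow_ne_zero _ hX0) (div_ne_zero hP0 (pow_ne_zero _ hX0)), hXd, zero_add]
    apply hprin
    have e2 : algebraMap F[X] (RatFunc F) P / RatFunc.X ^ P.natDegree - 1 =
        algebraMap F[X] (RatFunc F) (P - X ^ P.natDegree) / RatFunc.X ^ P.natDegree := by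
      rw [map_sub, map_pow, RatFunc.algebraMap_X, sub_div, div_self (pow_ne_zero _ hX0)]
    rw [e2]
    by_cases hg : P - X ^ P.natDegree = 0
    · rw [hg, map_zero, zero_div, map_zero]
      exact zero_lt_one
    · have hg0 : algebraMap F[X] (RatFunc F) (P - X ^ P.natDegree) ≠ 0 := by
        rw [Ne, FaithfulSMul.algebraMap_eq_zero_iff]
        exact hg
      rw [map_div₀, hpl _ hg0, map_pow, hpl _ hX0, RatFunc.intDegree_polynomial,
        RatFunc.intDegree_X, zpow_one, zpow_natCast, div_lt_one (by positivity)]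
      apply pow_lt_pow_right₀ one_lt_two
      have hdeg : (P - X ^ P.natDegree).degree < P.degree := by
        apply degree_sub_lt_left _ hP.ne_zero _
        · rw [degree_X_pow, degree_eq_natDegree hP.ne_zero]
        · rw [hP.leadingCoeff, leadingCoeff_X_pow]
      exact natDegree_lt_natDegree hg hdeg

end Pool.Agent.MP72S.D
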