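import Pool.Agent.Lib.MP_72e2e6_nt.Sm.D.Spec

/-!
# MP_72e2e6_nt, `Sm/D/Km`: the quadratic characters
-/

namespace Pool.Agent.MP72S.D

open Polynomial IntermediateField Pool.Agent.MP72W

private theorem Km_cases (a : ZMod 2) : a = 0 ∨ a = 1 := by
  revert a; decide

private theorem Km_val {Q : Type} [Field Q] {x y : Q} (hne : x ≠ -x) {a b : ZMod 2}
    (h : y = if a = 0 then x else -x) (h' : y = if b = 0 then x else -x) : a = b := by
  rcases Km_cases a with rfl | rfl <;> rcases Km_cases b with rfl | rfl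
  · rfl
  · exfalso
    rw [if_pos rfl] at h
    rw [if_neg one_ne_zero] at h'
    exact hne (h.symm.trans h')
  · exfalso
    rw [if_neg one_ne_zero] at h
    rw [if_pos rfl] at h'
    exact hne (h'.symm.trans h)
  · rfl

private theorem Km_ne {F : Type} [Field F] (hF : (2 : F) ≠ 0) {x : Qf F} (hx : x ≠ 0) :
    x ≠ -x := by
  intro h
  have h1 : (2 : Qf F) * x = 0 := by
    have : x + x = 0 := by
      nth_rewrite 2 [h]
      exact add_neg_cancel x
    rw [two_mul]; exact this
  rcases mul_eq_zero.1 h1 with h2 | h2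
  · apply hF
    have h3 : algebraMap (RatFunc F) (Qf F) (algebraMap F (RatFunc F) 2) = 0 := by
      rw [map_ofNat, map_ofNat]; exact h2
    have h4 := (map_eq_zero (algebraMap (RatFunc F) (Qf F))).1 h3
    exact (map_eq_zero (algebraMap F (RatFunc F))).1 h4
  · exact hx h2

private theorem Km_x0 {F : Type} [Field F] {f : RatFunc F} (hf : f ≠ 0) {x : Qf F}
    (hx : x ^ 2 = algebraMap (RatFunc F) (Qf F) f) : x ≠ 0 := by
  rintro rfl
  apply hf
  rw [zero_pow two_ne_zero] at hx
  exact (map_eq_zero (algebraMap (RatFunc F) (Qf F))).1 hx.symm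

private theorem Km_key {F : Type} [Field F] {f : RatFunc F}
    {x : Qf F} (hx : x ^ 2 = algebraMap (RatFunc F) (Qf F) f) (σ : GQ F) :
    σ x = if hK f σ = 0 then x else -x := by
  by_cases h : σ x = x
  · have h1 : hK f σ = 0 := by
      unfold hK
      exact if_pos ⟨x, hx, h⟩
    rw [if_pos h1]
    exact h
  · have h1 : ¬ ∃ y : Qf F, y ^ 2 = algebraMap (RatFunc F) (Qf F) f ∧ σ y = y := by
      rintro ⟨y, hy, hs⟩
      have h2 : x ^ 2 = y ^ 2 := hx.trans hy.symm
      rcases sq_eq_sq_iff_eq_or_eq_neg.1 h2 with h3 | h3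
      · exact h (by rw [h3]; exact hs)
      · exact h (by rw [h3, map_neg, hs])
    have h2 : hK f σ = 1 := by
      unfold hK
      exact if_neg h1
    rw [h2, if_neg one_ne_zero]
    have h3 : (σ x) ^ 2 = x ^ 2 := by
      rw [← map_pow, hx, AlgEquiv.commutes]
    rcases sq_eq_sq_iff_eq_or_eq_neg.1 h3 with h4 | h4
    · exact absurd h4 h
    · exact h4

theorem tKm (qg : S_QG) (kt : S_Kt) : S_Km := by
  intro F _ _ hF
  obtain ⟨-, -, -, hsq, -⟩ := qg F
  obtain ⟨hst, -, -, htg⟩ := kt F
  have hsq := hsq hF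
  refine ⟨fun f hf => ?_, fun f hf x hx σ => Km_key hx σ, fun f g hf hg σ => ?_,
    fun f hf σ => ?_⟩
  · obtain ⟨x, hx⟩ := hsq (algebraMap (RatFunc F) (Qf F) f)
    have hx0 := Km_x0 hf hx
    have hne := Km_ne hF hx0
    refine ⟨?_, fun σ τ => ?_⟩
    · rw [IsLocallyConstant.iff_exists_open]
      intro σ
      refine ⟨{τ | (σ⁻¹ * τ) • x = x}, ?_, ?_, ?_⟩
      · exact (hst x).preimage (continuous_const_mul σ⁻¹)
      · show (σ⁻¹ * σ) • x = x
        rw [inv_mul_cancel, one_smul]
      · intro τ hτ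
        have h1 : τ x = σ x := by
          have h2 : σ • ((σ⁻¹ * τ) • x) = σ • x := by
            rw [show (σ⁻¹ * τ) • x = x from hτ]
          rw [smul_smul, mul_inv_cancel_left] at h2
          exact h2
        refine Km_val hne (Km_key hx τ) ?_
        rw [h1]
        exact Km_key hx σ
    · refine Km_val hne (Km_key hx (σ * τ)) ?_
      have h1 := Km_key hx σ
      have h2 := Km_key hx τ
      rw [AlgEquiv.mul_apply, h2]
      rcases Km_cases (hK f σ) with h3 | h3 <;> rcases Km_cases (hK f τ) with h4 | h4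
      · rw [h3, if_pos rfl] at h1
        rw [h3, h4, if_pos rfl, h1, if_pos (by decide)]
      · rw [h3, if_pos rfl] at h1
        rw [h3, h4, if_neg one_ne_zero, map_neg, h1, if_neg (by decide)]
      · rw [h3, if_neg one_ne_zero] at h1
        rw [h3, h4, if_pos rfl, h1, if_neg (by decide)]
      · rw [h3, if_neg one_ne_zero] at h1
        rw [h3, h4, if_neg one_ne_zero, map_neg, h1, neg_neg, if_pos (by decide)]
  · obtain ⟨x, hx⟩ := hsq (algebraMap (RatFunc F) (Qf F) f)
    obtain ⟨y, hy⟩ := hsq (algebraMap (RatFunc F) (Qf F) g)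
    have hxy : (x * y) ^ 2 = algebraMap (RatFunc F) (Qf F) (f * g) := by
      rw [mul_pow, hx, hy, map_mul]
    have hne := Km_ne hF (Km_x0 (mul_ne_zero hf hg) hxy)
    refine Km_val hne (Km_key hxy σ) ?_
    have h1 := Km_key hx σ
    have h2 := Km_key hy σ
    rw [map_mul, h1, h2]
    rcases Km_cases (hK f σ) with h3 | h3 <;> rcases Km_cases (hK g σ) with h4 | h4
    · rw [h3, h4, if_pos rfl, if_pos rfl, if_pos (by decide)]
    · rw [h3, h4, if_pos rfl, if_neg one_ne_zero, if_neg (by decide), mul_neg]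
    · rw [h3, h4, if_neg one_ne_zero, if_pos rfl, if_neg (by decide), neg_mul]
    · rw [h3, h4, if_neg one_ne_zero, if_neg one_ne_zero, if_pos (by decide), neg_mul_neg]
  · unfold hK
    exact if_pos ⟨algebraMap (RatFunc F) (Qf F) f, (map_pow _ _ _).symm, σ.commutes f⟩

end Pool.Agent.MP72S.D
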