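import Pool.Agent.Lib.MP_72e2e6_nt.Sm.D.Spec

/-!
# MP_72e2e6_nt, `Sm`, block D: the spectral norm on the separable closure
-/

namespace Pool.Agent.MP72S.D

open Polynomial IntermediateField Pool.Agent.MP72W

private theorem ln_root {L : Type} [Field L] [IsSepClosed L] (h2 : (2 : L) ≠ 0) (x : L)
    (hx : x ≠ 0) : ∃ θ : L, θ ^ 2 = x := by
  have hsep : (X ^ 2 - C x : L[X]).Separable :=
    separable_X_pow_sub_C x (by exact_mod_cast h2) hx
  have hdeg : (X ^ 2 - C x : L[X]).degree ≠ 0 := by
    rw [degree_X_pow_sub_C (by norm_num) x]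
    norm_num
  obtain ⟨θ, hθ⟩ := IsSepClosed.exists_root _ hdeg hsep
  refine ⟨θ, ?_⟩
  rw [IsRoot, eval_sub, eval_pow, eval_X, eval_C] at hθ
  exact sub_eq_zero.mp hθ

theorem tLn (hLc : S_Lc) : S_Ln := by
  intro F _ _ v d ϖ R hLF
  obtain ⟨hn, _, hult, _, _, _, _⟩ := hLc F v d ϖ R hLF
  have hne : ∃ x : v.Completion, x ≠ 0 ∧ ‖x‖ ≠ 1 := by
    refine ⟨algebraMap (RatFunc F) v.Completion ϖ, ?_, ?_⟩
    · intro h
      have h1 := hn ϖ
      rw [h, norm_zero] at h1
      exact hLF.pi0.ne h1
    · rw [hn]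
      exact hLF.pi1.ne
  have hnn : ∀ x : Kvs v, 0 ≤ nm v x := fun x => spectralNorm_nonneg x
  have hext : ∀ x : v.Completion, nm v (algebraMap v.Completion (Kvs v) x) = ‖x‖ :=
    fun x => spectralNorm_extends x
  have hz : ∀ x : Kvs v, nm v x = 0 ↔ x = 0 := by
    intro x
    constructor
    · intro h
      exact eq_zero_of_map_spectralNorm_eq_zero h (Algebra.IsAlgebraic.isAlgebraic x)
    · rintro rfl
      have h1 := hext 0
      rw [map_zero, norm_zero] at h1
      exact h1
  have hmul : ∀ x y : Kvs v, nm v (x * y) = nm v x * nm v y := by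
    let _ : NontriviallyNormedField v.Completion := NontriviallyNormedField.ofNormNeOne hne
    intro x y
    exact spectralAlgNorm_mul (K := v.Completion) (L := Kvs v) x y
  have hadd : ∀ x y : Kvs v, nm v (x + y) ≤ max (nm v x) (nm v y) := fun x y =>
    isNonarchimedean_spectralNorm (K := v.Completion) (L := Kvs v) x y
  have hgal : ∀ (g : Gal(Kvs v/v.Completion)) (x : Kvs v), nm v (g x) = nm v x := fun g x =>
    (spectralNorm_eq_of_equiv g x).symm
  have hone : nm v 1 = 1 := by
    have h1 := hext 1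
    rw [map_one, norm_one] at h1
    exact h1
  have hneg : ∀ x : Kvs v, nm v (-x) = nm v x := by
    intro x
    have h1 : nm v (-1 : Kvs v) = 1 := by
      have h2 := hext (-1)
      rw [map_neg, map_one, norm_neg, norm_one] at h2
      exact h2
    rw [← neg_one_mul, hmul, h1, one_mul]
  have hpow : ∀ (x : Kvs v) (n : ℕ), nm v (x ^ n) = nm v x ^ n := by
    intro x n
    induction n with
    | zero => rw [pow_zero, pow_zero, hone]
    | succ n ih => rw [pow_succ, pow_succ, hmul, ih]
  refine ⟨hnn, hz, hmul, hadd, hext, hgal, ?_, ?_⟩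
  · rintro x ⟨n, hn1, hx⟩ hx0
    have hq : 1 < Nat.card F := Finite.one_lt_card
    have hQ : 1 < Nat.card F ^ n := Nat.one_lt_pow (by omega) hq
    have h1 : nm v x ^ (Nat.card F ^ n) = nm v x := by rw [← hpow, hx]
    have hpos : 0 < nm v x := lt_of_le_of_ne (hnn x) fun h => hx0 ((hz x).mp h.symm)
    obtain ⟨N, hN⟩ : ∃ N, Nat.card F ^ n = N + 2 := ⟨Nat.card F ^ n - 2, by omega⟩
    rw [hN, pow_succ] at h1
    have h2 : nm v x ^ (N + 1) = 1 := by
      have h3 : nm v x ^ (N + 1) * nm v x = 1 * nm v x := by rw [h1, one_mul]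
      exact mul_right_cancel₀ hpos.ne' h3
    exact (pow_eq_one_iff_of_nonneg hpos.le (by omega)).mp h2
  · intro h2F y hy
    have h2 : (2 : Kvs v) ≠ 0 := by
      have h3 : algebraMap F (RatFunc F) 2 ≠ 0 := by
        rw [Ne, map_eq_zero_iff _ (algebraMap F (RatFunc F)).injective]
        exact h2F
      have h4 : algebraMap v.Completion (Kvs v) (algebraMap (RatFunc F) v.Completion
          (algebraMap F (RatFunc F) 2)) ≠ 0 := by
        rw [Ne, map_eq_zero_iff _ (algebraMap v.Completion (Kvs v)).injective,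
          map_eq_zero_iff _ (algebraMap (RatFunc F) v.Completion).injective]
        exact h3
      rwa [map_ofNat, map_ofNat, map_ofNat] at h4
    have h1y : (1 + y : Kvs v) ≠ 0 := by
      intro h
      have h3 : y = -1 := by linear_combination h
      rw [h3, hneg, hone] at hy
      exact lt_irrefl _ hy
    obtain ⟨s, hs⟩ := ln_root h2 (1 + y) h1y
    by_cases h : nm v (s - 1) < 1
    · exact ⟨s, hs, h⟩
    · refine ⟨-s, by rw [neg_sq, hs], ?_⟩
      have h3 : nm v (s - 1) * nm v (s + 1) < 1 := by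
        rw [← hmul]
        have h4 : (s - 1) * (s + 1) = y := by linear_combination hs
        rw [h4]
        exact hy
      push Not at h
      have h5 : (-s - 1 : Kvs v) = -(s + 1) := by ring
      rw [h5, hneg]
      by_contra h6
      push Not at h6
      exact absurd h3 (not_lt.mpr (one_le_mul_of_one_le_of_one_le h h6))

end Pool.Agent.MP72S.D
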