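import Pool.Agent.Lib.MP_72e2e6_nt.Sm.D.Spec
import Pool.Agent.Lib.MP_72e2e6_nt.W2.C.Spec

/-!
# MP_72e2e6_nt, `Sm/D/Lo`: local data exist at all places
-/

namespace Pool.Agent.MP72S.D

open Polynomial IntermediateField Pool.Agent.MP72W

theorem tLo (h0 : Pool.Agent.MP72W.S_Av) (h1 : S_Lf) (h2 : S_Fb) (h3 : S_Zt) : S_Lo := by
  intro F _ _ h2F
  have hav : ∀ w : Pl F, ∃ v : AbsoluteValue (RatFunc F) ℝ, IsPl w.o v := by
    intro w
    rcases w with _ | P
    · exact (h0 F).2.1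
    · exact (h0 F).1 P.1 P.2.1 P.2.2
  choose av hav using hav
  have hx : ∀ w : Pl F, ∃ t f : Gal(Kvs (av w)/(av w).Completion), IsGeo (Nat.card F) t ∧
      (∀ r : Kvs (av w), r ^ 2 = unK w.o (av w) → t r = -r) ∧
      IsFro (Nat.card F) (Nat.card F ^ dgP w.o) f ∧
      ∀ r : Kvs (av w), r ^ 2 = unK w.o (av w) → f r = r := by
    intro w
    obtain ⟨⟨R, hLF⟩, -⟩ := h1 F w.o (av w) (hav w)
    obtain ⟨f', hf'⟩ := h2 F (av w) _ _ R hLF
    obtain ⟨⟨t, ht, hts⟩, -⟩ := h3 F h2F w.o (av w) (hav w)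
    by_cases hr : ∀ r : Kvs (av w), r ^ 2 = unK w.o (av w) → f' r = r
    · exact ⟨t, f', ht, hts, hf', hr⟩
    · simp only [not_forall] at hr
      obtain ⟨r, hr, hne⟩ := hr
      have hfr : f' r = -r := by
        have h : f' r ^ 2 = r ^ 2 := by
          rw [← map_pow, hr]
          exact f'.commutes _
        rcases sq_eq_sq_iff_eq_or_eq_neg.mp h with h | h
        · exact absurd h hne
        · exact h
      refine ⟨t, f' * t, ht, hts, fun x hx => ?_, fun s hs => ?_⟩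
      · rw [AlgEquiv.mul_apply, ht x hx]
        exact hf' x hx
      · rw [AlgEquiv.mul_apply, hts s hs, map_neg]
        rcases sq_eq_sq_iff_eq_or_eq_neg.mp (hs.trans hr.symm) with h | h
        · rw [h, hfr, neg_neg]
        · rw [h, map_neg, hfr, neg_neg]
  choose t f ht hts hf hfs using hx
  refine ⟨fun w =>
    { av := av w
      emb := IsSepClosed.lift
      t := t w
      f := f w }, ⟨fun w => ?_⟩⟩
  exact ⟨hav w, ht w, hts w, hf w, hfs w⟩

end Pool.Agent.MP72S.D
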