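import Pool.Agent.Lib.MP_72e2e6_nt.Sm.D.Spec

/-!
# MP_72e2e6_nt, `Sm/D/Nn`: the maximal unramified extension
-/

namespace Pool.Agent.MP72S.D

open Polynomial IntermediateField Pool.Agent.MP72W

theorem tNn : S_Lc → S_Ln → S_Cs → S_Nn := by
  classical
  intro hLc hLn hCs F _ _ v d ϖ R hLF
  obtain ⟨_, _, _, hdisc, _, l6, h9⟩ := hLc F v d ϖ R hLF
  obtain ⟨n0, nz, nmul, nadd, next, ngal, ncst, _⟩ := hLn F v d ϖ R hLF
  obtain ⟨p, hpF⟩ := CharP.exists F
  obtain ⟨r, hp, hr, hq⟩ : ∃ r, p.Prime ∧ 1 ≤ r ∧ Nat.card F = p ^ r := by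
    have := Fintype.ofFinite F
    obtain ⟨n, hn1, hn⟩ := FiniteField.card F p
    exact ⟨n, hn1, n.2, by rw [Nat.card_eq_fintype_card, hn]⟩
  have : Fact p.Prime := ⟨hp⟩
  have : CharP (Kvs v) p := charP_of_injective_ringHom
    (f := (algebraMap v.Completion (Kvs v)).comp
      ((algebraMap (RatFunc F) v.Completion).comp RatFunc.C)) (RingHom.injective _) p
  have hdpos := hLF.dpos
  obtain ⟨c1, c2, c3, c4, _, _, _⟩ := hCs p (Nat.card F) r hr hq (Kvs v)
  have nneg : ∀ x : Kvs v, nm v (-x) = nm v x := by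
    intro x
    rw [← neg_one_mul, nmul, ncst _ (c4 _ c2).1 (neg_ne_zero.mpr one_ne_zero), one_mul]
  -- the constants
  let S : Subring (Kvs v) :=
    { carrier := Cst (Nat.card F) (Kvs v)
      mul_mem' := fun ha hb => (c3 _ ha _ hb).2
      one_mem' := c2
      add_mem' := fun ha hb => (c3 _ ha _ hb).1
      zero_mem' := c1
      neg_mem' := fun {a} ha => by
        change -a ∈ Cst (Nat.card F) (Kvs v)
        exact (c4 _ ha).1 }
  have hS : ∀ x, x ∈ S ↔ x ∈ Cst (Nat.card F) (Kvs v) := fun _ => Iff.rfl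
  have ncle : ∀ x ∈ S, nm v x ≤ 1 := by
    intro x hx
    by_cases hx0 : x = 0
    · rw [hx0, (nz 0).mpr rfl]
      exact zero_le_one
    · exact (ncst x hx hx0).le
  -- (7)
  have h7 : ∀ x : v.Completion, algebraMap v.Completion (Kvs v) x ∈ Cst (Nat.card F) (Kvs v) →
      x ^ (Nat.card F ^ d) = x := by
    intro x hx
    have hle : ‖x‖ ≤ 1 := by
      rw [← next]
      exact ncle _ hx
    have hlt := l6 x hle
    have hmem : algebraMap v.Completion (Kvs v) (x ^ Nat.card F ^ d - x) ∈ S := by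
      rw [map_sub, map_pow]
      exact sub_mem (pow_mem (show _ ∈ S from hx) _) hx
    by_contra hne
    have hne' : algebraMap v.Completion (Kvs v) (x ^ Nat.card F ^ d - x) ≠ 0 := by
      intro h
      refine hne (sub_eq_zero.mp ((algebraMap v.Completion (Kvs v)).injective ?_))
      rw [h, map_zero]
    have h1 := ncst _ hmem hne'
    rw [next] at h1
    rw [h1] at hlt
    exact lt_irrefl _ hlt
  have hcst : ∀ c : v.Completion, c ^ (Nat.card F ^ d) = c →
      algebraMap v.Completion (Kvs v) c ∈ S := by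
    intro c hc
    exact ⟨d, hdpos, by rw [← map_pow, hc]⟩
  -- sums
  have nsum : ∀ (ι : Type) (s : Finset ι) (f : ι → Kvs v), (∀ i ∈ s, nm v (f i) < 1) →
      nm v (∑ i ∈ s, f i) < 1 := by
    intro ι s f
    induction s using Finset.induction_on with
    | empty =>
      intro _
      rw [Finset.sum_empty, (nz 0).mpr rfl]
      exact zero_lt_one
    | insert a s ha ih =>
      intro h
      rw [Finset.sum_insert ha]
      exact lt_of_le_of_lt (nadd _ _) (max_lt (h a (Finset.mem_insert_self a s))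
        (ih fun i hi => h i (Finset.mem_insert_of_mem hi)))
  -- a basis
  obtain ⟨B, hBS, hBspan, hBind⟩ := exists_linearIndependent v.Completion
    (Cst (Nat.card F) (Kvs v))
  have hspan : ∀ x ∈ Knr v, x ∈ Submodule.span v.Completion B := by
    intro x hx
    rw [hBspan]
    have h1 : x ∈ (adjoin v.Completion (Cst (Nat.card F) (Kvs v))).toSubalgebra := hx
    rw [IntermediateField.adjoin_toSubalgebra_of_isAlgebraic
      (fun y _ => Algebra.IsAlgebraic.isAlgebraic y)] at h1
    have h2 : x ∈ Subalgebra.toSubmodule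
        (Algebra.adjoin v.Completion (Cst (Nat.card F) (Kvs v))) := h1
    rw [Algebra.adjoin_eq_span] at h2
    refine Submodule.span_mono ?_ h2
    have h3 : Submonoid.closure (Cst (Nat.card F) (Kvs v)) ≤ S.toSubmonoid :=
      Submonoid.closure_le.mpr fun _ h => h
    exact h3
  -- the main claim
  have hmain : ∀ x ∈ Knr v, x ≠ 0 → ∃ (f : B →₀ v.Completion) (b0 : B),
      Finsupp.linearCombination v.Completion ((↑) : B → Kvs v) f = x ∧ f b0 ≠ 0 ∧
      (∀ b, ‖f b‖ ≤ ‖f b0‖) ∧ nm v x = ‖f b0‖ := by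
    intro x hx hx0
    obtain ⟨f, hf⟩ := (Finsupp.mem_span_iff_linearCombination _ _ _).mp (hspan x hx)
    have hf0 : f ≠ 0 := by
      rintro rfl
      rw [map_zero] at hf
      exact hx0 hf.symm
    obtain ⟨b0, hb0, hmax⟩ := Finset.exists_max_image f.support (fun b => ‖f b‖)
      (Finsupp.support_nonempty_iff.mpr hf0)
    have hfb0 : f b0 ≠ 0 := Finsupp.mem_support_iff.mp hb0
    have hmax' : ∀ b, ‖f b‖ ≤ ‖f b0‖ := by
      intro b
      by_cases hb : b ∈ f.support
      · exact hmax b hb
      · rw [Finsupp.notMem_support_iff.mp hb, norm_zero]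
        exact norm_nonneg _
    refine ⟨f, b0, hf, hfb0, hmax', ?_⟩
    have hquo : ∀ b, ‖f b / f b0‖ ≤ 1 := by
      intro b
      rw [norm_div]
      exact div_le_one_of_le₀ (hmax' b) (norm_nonneg _)
    choose ρ hρ1 hρ2 using fun b => h9 _ (hquo b)
    have hρ0 : ρ b0 ≠ 0 := by
      intro h
      have h1 := hρ2 b0
      rw [h, sub_zero, div_self hfb0, norm_one] at h1
      exact lt_irrefl _ h1
    -- the constant
    have hcS : ∑ b ∈ f.support, algebraMap v.Completion (Kvs v) (ρ b) * (b : Kvs v) ∈ S :=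
      sum_mem fun b _ => mul_mem (hcst _ (hρ1 b)) (hBS b.2)
    have hc0 : ∑ b ∈ f.support, algebraMap v.Completion (Kvs v) (ρ b) * (b : Kvs v) ≠ 0 := by
      intro h
      have h1 := (linearIndependent_iff'.mp hBind) f.support ρ (by
        rw [← h]
        exact Finset.sum_congr rfl fun b _ => Algebra.smul_def _ _) b0 hb0
      exact hρ0 h1
    have hcn := ncst _ hcS hc0
    have hdiff : nm v (∑ b ∈ f.support,
        algebraMap v.Completion (Kvs v) (f b / f b0 - ρ b) * (b : Kvs v)) < 1 := by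
      refine nsum _ _ _ fun b _ => ?_
      rw [nmul, next]
      exact lt_of_le_of_lt (mul_le_of_le_one_right (norm_nonneg _) (ncle _ (hBS b.2))) (hρ2 b)
    have hsum : x = algebraMap v.Completion (Kvs v) (f b0) *
        (∑ b ∈ f.support, algebraMap v.Completion (Kvs v) (ρ b) * (b : Kvs v) +
          ∑ b ∈ f.support,
            algebraMap v.Completion (Kvs v) (f b / f b0 - ρ b) * (b : Kvs v)) := by
      rw [← hf, Finsupp.linearCombination_apply, Finsupp.sum, ← Finset.sum_add_distrib,
        Finset.mul_sum]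
      refine Finset.sum_congr rfl fun b _ => ?_
      rw [← add_mul, ← map_add, ← mul_assoc, ← map_mul, Algebra.smul_def]
      congr 2
      field_simp
      ring
    have hone : nm v (∑ b ∈ f.support, algebraMap v.Completion (Kvs v) (ρ b) * (b : Kvs v) +
          ∑ b ∈ f.support,
            algebraMap v.Completion (Kvs v) (f b / f b0 - ρ b) * (b : Kvs v)) = 1 := by
      refine le_antisymm ((nadd _ _).trans (max_le hcn.le hdiff.le)) ?_
      by_contra hlt
      push Not at hlt
      have h1 : nm v (∑ b ∈ f.support, algebraMap v.Completion (Kvs v) (ρ b) * (b : Kvs v)) < 1 := by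
        have h2 : ∑ b ∈ f.support, algebraMap v.Completion (Kvs v) (ρ b) * (b : Kvs v) =
            (∑ b ∈ f.support, algebraMap v.Completion (Kvs v) (ρ b) * (b : Kvs v) +
            ∑ b ∈ f.support,
              algebraMap v.Completion (Kvs v) (f b / f b0 - ρ b) * (b : Kvs v)) +
            -∑ b ∈ f.support,
              algebraMap v.Completion (Kvs v) (f b / f b0 - ρ b) * (b : Kvs v) := by
          rw [add_assoc, add_neg_cancel, add_zero]
        rw [h2]
        exact lt_of_le_of_lt (nadd _ _) (max_lt hlt (by rw [nneg]; exact hdiff))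
      rw [hcn] at h1
      exact lt_irrefl _ h1
    rw [hsum, nmul, next, hone, mul_one]
  have p2 : ∀ x ∈ Knr v, nm v x ≤ 1 → ∃ c ∈ Cst (Nat.card F) (Kvs v), nm v (x - c) < 1 := by
    intro x hx hx1
    by_cases hx0 : x = 0
    · refine ⟨0, c1, ?_⟩
      rw [hx0, sub_zero, (nz 0).mpr rfl]
      exact zero_lt_one
    · obtain ⟨f, b0, hf, -, hmax, hnm⟩ := hmain x hx hx0
      have hle : ∀ b, ‖f b‖ ≤ 1 := fun b => (hmax b).trans (hnm ▸ hx1)
      choose ρ hρ1 hρ2 using fun b => h9 _ (hle b)
      refine ⟨∑ b ∈ f.support, algebraMap v.Completion (Kvs v) (ρ b) * (b : Kvs v),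
        show _ ∈ S from sum_mem fun b _ => mul_mem (hcst _ (hρ1 b)) (hBS b.2), ?_⟩
      rw [← hf, Finsupp.linearCombination_apply, Finsupp.sum, ← Finset.sum_sub_distrib]
      refine nsum _ _ _ fun b _ => ?_
      rw [Algebra.smul_def, ← sub_mul, ← map_sub, nmul, next]
      exact lt_of_le_of_lt (mul_le_of_le_one_right (norm_nonneg _) (ncle _ (hBS b.2))) (hρ2 b)
  have p4 : ∀ x ∈ Cst (Nat.card F) (Kvs v), x ∈ Knr v := fun x hx =>
    IntermediateField.subset_adjoin _ _ hx
  refine ⟨?_, p2, p4, ?_, h7⟩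
  · intro x hx hx0
    obtain ⟨f, b0, -, hfb0, -, hnm⟩ := hmain x hx hx0
    obtain ⟨n, hn⟩ := hdisc _ hfb0
    exact ⟨n, hnm.trans hn⟩
  · intro g
    constructor
    · intro hg x hx
      induction hx using IntermediateField.adjoin_induction with
      | mem x hx => exact hg x hx
      | algebraMap x => exact g.commutes x
      | add x y _ _ hx hy => rw [map_add, hx, hy]
      | inv x _ hx => rw [map_inv₀, hx]
      | mul x y _ _ hx hy => rw [map_mul, hx, hy]
    · intro hg x hx
      exact hg x (p4 x hx)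

end Pool.Agent.MP72S.D
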