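import Pool.Agent.Lib.MP_72e2e6_nt.Sm.D.Hp

/-!
# MP_72e2e6_nt, `Sm`, block D: module Pc (the places of `Qf F` as needed by block C)
-/

namespace Pool.Agent.MP72S.D

open Polynomial IntermediateField Pool.Agent.MP72W Hp

private theorem half_inj {a b : ℝ} (h : (1 / 2 : ℝ) ^ a = (1 / 2 : ℝ) ^ b) : a = b := by
  refine le_antisymm ?_ ?_
  · exact (Real.rpow_le_rpow_left_iff_of_base_lt_one (x := 1 / 2) (by norm_num) (by norm_num)).1 h.ge
  · exact (Real.rpow_le_rpow_left_iff_of_base_lt_one (x := 1 / 2) (by norm_num) (by norm_num)).1 h.le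

/-- The valuation belonging to the norm. -/
private noncomputable def nu (r : ℝ) : WithTop ℚ :=
  open Classical in if h : ∃ q : ℚ, r = (1 / 2 : ℝ) ^ (q : ℝ) then (h.choose : WithTop ℚ) else ⊤

private theorem nu_half (q : ℚ) : nu ((1 / 2 : ℝ) ^ (q : ℝ)) = (q : WithTop ℚ) := by
  have h : ∃ q' : ℚ, (1 / 2 : ℝ) ^ (q : ℝ) = (1 / 2 : ℝ) ^ (q' : ℝ) := ⟨q, rfl⟩
  rw [nu, dif_pos h]
  have h1 := half_inj h.choose_spec
  have h2 : q = h.choose := by exact_mod_cast h1
  rw [← h2]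

private theorem nu_zero : nu 0 = ⊤ := by
  rw [nu, dif_neg]
  rintro ⟨q, h⟩
  exact (Real.rpow_pos_of_pos (by norm_num : (0 : ℝ) < 1 / 2) _).ne h

private theorem half_int (n : ℤ) : (1 / 2 : ℝ) ^ n = (1 / 2 : ℝ) ^ (((n : ℚ) : ℝ)) := by
  rw [Rat.cast_intCast, Real.rpow_intCast]

private theorem nu_eq {F : Type} [Field F] (A : Lcd F) (x : Qf F) :
    nuP A x = nu (nm A.av (A.eQ x)) := rfl

/-- The values of the norm. -/
private theorem val_of {F : Type} [Field F] [Finite F] {w : Option F[X]} {A : Lcd F} (C : Cx w A.av)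
    {m : ℕ} {r : Kvs A.av} (hr : r ^ 2 ^ m = unK w A.av) (j : ℤ) :
    nm A.av r ^ j = (1 / 2 : ℝ) ^ (((j / 2 ^ m : ℚ)) : ℝ) := by
  have h1 : nm A.av r ^ 2 ^ m = 1 / 2 := by rw [← C.nr.pow, hr, C.un]
  have h2 : nm A.av r = (1 / 2 : ℝ) ^ (((2 ^ m : ℕ) : ℝ)⁻¹) := by
    rw [← h1, Real.pow_rpow_inv_natCast (C.nr.nn r) (pow_ne_zero _ two_ne_zero)]
  rw [h2, ← Real.rpow_mul_intCast (by norm_num)]
  congr 1
  push_cast
  rw [div_eq_inv_mul]

theorem tPc (h1 : S_Lf) (h2 : S_Lc) (h3 : S_Ln) (h4 : S_Cs) (h5 : S_Fg) (_h6 : S_Rt) (h7 : S_Zt)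
    (h8 : S_Tst) (h9 : S_QT) (h10 : S_Rq) (h11 : S_Kk) : S_Pc := by
  intro F _ _ hF w A hA
  have C := cx_of h1 h2 h3 F w A.av hA.pl
  have cc : Cc (Nat.card F) (Kvs A.av) := cc_of h4 F _ (fv F _)
  have hL2 : (2 : Kvs A.av) ≠ 0 := two_ne hF (fv F _)
  obtain ⟨q1, q2, q3, q4⟩ := h10 F hF w A hA
  have N := C.nr
  have hst : ∀ x : Qf F, x ≠ 0 → ∃ (m : ℕ) (r : Kvs A.av) (j : ℤ) (c y : Kvs A.av),
      r ^ 2 ^ m = unK w A.av ∧ c ∈ Cst (Nat.card F) (Kvs A.av) ∧ c ≠ 0 ∧ nm A.av y < 1 ∧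
      A.eQ x = r ^ j * c * (1 + y) := by
    intro x hx
    obtain ⟨m, r, j, c, y, s1, s2, s3, -, s5, s6⟩ := h8 F hF w A.av hA.pl (A.eQ x)
      (h9 F hF w A.av hA.pl A.emb x) (fun h => hx (eQ_inj A (h.trans (map_zero A.eQ).symm)))
    exact ⟨m, r, j, c, y, s1, s2, s3, s5, s6⟩
  have hnm : ∀ {m : ℕ} {r : Kvs A.av} {j : ℤ} {c y : Kvs A.av}, c ∈ Cst (Nat.card F) (Kvs A.av) →
      c ≠ 0 → nm A.av y < 1 → nm A.av (r ^ j * c * (1 + y)) = nm A.av r ^ j := by
    intro m r j c y s1 s2 s3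
    rw [N.mul, N.mul, N.zpow, C.cst c s1 s2, N.one_add s3, mul_one, mul_one]
  have hrr : ∀ {m : ℕ} {r : Kvs A.av}, r ^ 2 ^ m = unK w A.av → r ≠ 0 ∧ nm A.av r < 1 := by
    intro m r hr
    constructor
    · rintro rfl
      rw [zero_pow (pow_ne_zero _ two_ne_zero)] at hr
      exact C.un_ne hr.symm
    · apply N.lt_one_of_pow (k := 2 ^ m)
      rw [← N.pow, hr, C.un]
      norm_num
  -- the valuation
  have hV : ∀ x : Qf F, x ≠ 0 → ∃ q : ℚ, nm A.av (A.eQ x) = (1 / 2 : ℝ) ^ (q : ℝ) ∧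
      nuP A x = (q : WithTop ℚ) := by
    intro x hx
    obtain ⟨m, r, j, c, y, s1, s2, s3, s5, s6⟩ := hst x hx
    have h12 : nm A.av (A.eQ x) = (1 / 2 : ℝ) ^ (((j / 2 ^ m : ℚ)) : ℝ) := by
      rw [s6, hnm (m := m) s2 s3 s5, val_of C s1]
    exact ⟨_, h12, by rw [nu_eq, h12, nu_half]⟩
  have hV0 : nuP A 0 = ⊤ := by rw [nu_eq, map_zero, N.zero, nu_zero]
  have hint : ∀ (x : Qf F) (n : ℤ), nm A.av (A.eQ x) = (1 / 2 : ℝ) ^ n →
      nuP A x = ((n : ℚ) : WithTop ℚ) := by
    intro x n h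
    rw [nu_eq, h, half_int, nu_half]
  have hle : ∀ x : Qf F, 0 ≤ nuP A x ↔ nm A.av (A.eQ x) ≤ 1 := by
    intro x
    by_cases hx : x = 0
    · subst hx
      rw [hV0, map_zero, N.zero]
      exact ⟨fun _ => zero_le_one, fun _ => le_top⟩
    · obtain ⟨q, e1, e2⟩ := hV x hx
      rw [e1, e2]
      have h12 := Real.rpow_le_rpow_left_iff_of_base_lt_one (x := 1 / 2) (y := (q : ℝ)) (z := 0)
        (by norm_num) (by norm_num)
      rw [Real.rpow_zero] at h12
      rw [h12]
      constructor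
      · intro h
        have h13 : (0 : ℚ) ≤ q := by exact_mod_cast h
        exact_mod_cast h13
      · intro h
        have h13 : (0 : ℚ) ≤ q := by exact_mod_cast h
        exact_mod_cast h13
  have hlt : ∀ x : Qf F, 0 < nuP A x ↔ nm A.av (A.eQ x) < 1 := by
    intro x
    by_cases hx : x = 0
    · subst hx
      rw [hV0, map_zero, N.zero]
      exact ⟨fun _ => zero_lt_one, fun _ => WithTop.coe_lt_top 0⟩
    · obtain ⟨q, e1, e2⟩ := hV x hx
      rw [e1, e2]
      have h12 := Real.rpow_lt_rpow_left_iff_of_base_lt_one (x := 1 / 2) (y := (q : ℝ)) (z := 0)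
        (by norm_num) (by norm_num)
      rw [Real.rpow_zero] at h12
      rw [h12]
      constructor
      · intro h
        have h13 : (0 : ℚ) < q := by exact_mod_cast h
        exact_mod_cast h13
      · intro h
        have h13 : (0 : ℚ) < q := by exact_mod_cast h
        exact_mod_cast h13
  -- the residue map
  have hcst : ∀ c : kF F, A.eQ (c : Qf F) ∈ Cst (Nat.card F) (Kvs A.av) := eQ_kF h5 h11 A
  have huniq : ∀ (x : Qf F) (c c' : kF F), nm A.av (A.eQ (x - c)) < 1 →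
      nm A.av (A.eQ (x - c')) < 1 → c = c' := by
    intro x c c' e1 e2
    have e3 := N.sub_lt e2 e1
    rw [← map_sub] at e3
    have e4 : x - (c' : Qf F) - (x - (c : Qf F)) = (c : Qf F) - (c' : Qf F) := by ring
    rw [e4, map_sub] at e3
    exact Subtype.ext (eQ_inj A (C.eq_of cc (hcst c) (hcst c') e3))
  have hres : ∀ (x : Qf F) (c : kF F), nm A.av (A.eQ (x - c)) < 1 → resP A x = c := by
    intro x c e1
    have h12 : ∃ c : kF F, nm A.av (A.eQ (x - c)) < 1 := ⟨c, e1⟩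
    rw [resP, dif_pos h12]
    exact huniq x _ _ h12.choose_spec e1
  have hex : ∀ x : Qf F, nm A.av (A.eQ x) ≤ 1 → nm A.av (A.eQ (x - resP A x)) < 1 := by
    intro x hx
    have h12 : ∃ c : kF F, nm A.av (A.eQ (x - c)) < 1 := by
      by_cases hx1 : nm A.av (A.eQ x) < 1
      · exact ⟨0, by rw [ZeroMemClass.coe_zero, sub_zero]; exact hx1⟩
      · have hx2 : nm A.av (A.eQ x) = 1 := le_antisymm hx (not_lt.1 hx1)
        have hx0 : x ≠ 0 := by
          rintro rfl
          rw [map_zero, N.zero] at hx2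
          exact zero_ne_one hx2
        obtain ⟨m, r, j, c, y, s1, s2, s3, s5, s6⟩ := hst x hx0
        obtain ⟨r0, r1⟩ := hrr s1
        have h13 : nm A.av r ^ j = nm A.av r ^ (0 : ℤ) := by
          rw [← hnm (m := m) s2 s3 s5, ← s6, hx2, zpow_zero]
        have h14 : j = 0 := zpow_right_injective₀ (N.pos r0) r1.ne h13
        obtain ⟨a, ha⟩ := ex_kF h5 h11 A s2
        refine ⟨a, ?_⟩
        have h15 : A.eQ (x - a) = c * y := by
          rw [map_sub, s6, h14, zpow_zero, ha]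
          ring
        rw [h15, N.mul, C.cst c s2 s3, one_mul]
        exact s5
    obtain ⟨c, hc⟩ := h12
    rw [hres x c hc]
    exact hc
  have hresle : ∀ x : Qf F, nm A.av (A.eQ (resP A x : Qf F)) ≤ 1 := fun x => C.cst_le (hcst _)
  -- the roots of unity
  have hroot : ∀ (m : ℕ) (r : Kvs A.av), r ^ 2 ^ m = unK w A.av →
      ∃ z ∈ Cst (Nat.card F) (Kvs A.av), A.t r = z * r ∧ z ^ 2 ^ m = 1 ∧
        (1 ≤ m → z ^ 2 ^ (m - 1) = -1) := (h7 F hF w A.av hA.pl).2 A.t hA.tg hA.ts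
  have hprim : ∀ (m : ℕ) (z : Kvs A.av), z ^ 2 ^ m = 1 → (1 ≤ m → z ^ 2 ^ (m - 1) = -1) →
      IsPrimitiveRoot z (2 ^ m) := by
    intro m z hz hz'
    rcases Nat.eq_zero_or_pos m with rfl | hm
    · rw [pow_zero, pow_one] at hz
      rw [pow_zero, hz]
      exact IsPrimitiveRoot.one
    · obtain ⟨k, rfl⟩ : ∃ k, m = k + 1 := ⟨m - 1, by omega⟩
      have h11 := hz' hm
      rw [Nat.add_sub_cancel] at h11
      have h12 : ¬ z ^ 2 ^ k = 1 := by
        rw [h11]
        intro h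
        apply hL2
        linear_combination -h
      have h13 := orderOf_eq_prime_pow h12 hz
      rw [← h13]
      exact IsPrimitiveRoot.orderOf z
  -- the main computation: `t (e x) = ε e x` with a constant `ε`
  have hmain : ∀ {m : ℕ} {r : Kvs A.av} {j : ℤ} {c y z ε : Kvs A.av}, r ^ 2 ^ m = unK w A.av →
      c ∈ Cst (Nat.card F) (Kvs A.av) → c ≠ 0 → nm A.av y < 1 →
      z ∈ Cst (Nat.card F) (Kvs A.av) → A.t r = z * r → z ^ 2 ^ m = 1 →
      ε ∈ Cst (Nat.card F) (Kvs A.av) →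
      A.t (r ^ j * c * (1 + y)) = ε * (r ^ j * c * (1 + y)) → z ^ j = ε := by
    intro m r j c y z ε s1 s2 s3 s4 s5 s6 s7 s8 s9
    obtain ⟨r0, r1⟩ := hrr s1
    have hz0 : z ≠ 0 := by
      rintro rfl
      rw [zero_pow (pow_ne_zero _ two_ne_zero)] at s7
      exact zero_ne_one s7
    rw [map_mul, map_mul, map_zpow₀, s6, hA.tg c s2, map_add, map_one, mul_zpow] at s9
    have hrc : r ^ j * c ≠ 0 := mul_ne_zero (zpow_ne_zero _ r0) s3
    have e1 : z ^ j * (1 + A.t y) = ε * (1 + y) := by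
      apply mul_left_cancel₀ hrc
      linear_combination s9
    refine C.eq_of cc (cc.zpow s5 j) s8 ?_
    have e2 : z ^ j - ε = ε * y - z ^ j * A.t y := by linear_combination e1
    rw [e2]
    refine N.sub_lt ?_ ?_
    · rw [N.mul]
      calc nm A.av ε * nm A.av y ≤ 1 * nm A.av y :=
            mul_le_mul_of_nonneg_right (C.cst_le s8) (N.nn _)
        _ < 1 := by rw [one_mul]; exact s4
    · rw [N.mul, C.inv, C.cst _ (cc.zpow s5 j) (zpow_ne_zero _ hz0), one_mul]
      exact s4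
  refine ⟨⟨?_, ?_, ?_, ?_, ?_, ?_, ?_, ?_, ?_, q4, ?_, ?_, ?_, ?_, ?_, ?_⟩, ?_⟩
  · -- q1
    have h12 : 1 < Nat.card F := Finite.one_lt_card
    obtain ⟨R, hR⟩ := C.lf
    exact Nat.one_lt_pow hR.dpos.ne' h12
  · -- top
    intro x
    constructor
    · intro h
      by_contra hx
      obtain ⟨q, -, e2⟩ := hV x hx
      rw [e2] at h
      exact WithTop.coe_ne_top h
    · rintro rfl
      exact hV0
  · -- mul
    intro x y
    by_cases hx : x = 0
    · subst hx
      rw [zero_mul, hV0, WithTop.top_add]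
    by_cases hy : y = 0
    · subst hy
      rw [mul_zero, hV0, WithTop.add_top]
    obtain ⟨q, e1, e2⟩ := hV x hx
    obtain ⟨q', e1', e2'⟩ := hV y hy
    rw [nu_eq, map_mul, N.mul, e1, e1', e2, e2', ← Real.rpow_add (by norm_num), ← Rat.cast_add,
      nu_half, WithTop.coe_add]
  · -- add
    intro x y
    by_cases hxy : x + y = 0
    · rw [hxy, hV0]
      exact le_top
    by_cases hx : x = 0
    · subst hx
      rw [zero_add]
      exact min_le_right _ _
    by_cases hy : y = 0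
    · subst hy
      rw [add_zero]
      exact min_le_left _ _
    obtain ⟨q, e1, e2⟩ := hV x hx
    obtain ⟨q', e1', e2'⟩ := hV y hy
    obtain ⟨q'', e1'', e2''⟩ := hV _ hxy
    have h12 := N.add (A.eQ x) (A.eQ y)
    rw [← map_add, e1, e1', e1''] at h12
    rw [e2, e2', e2'']
    rcases le_max_iff.1 h12 with h13 | h13
    · rw [Real.rpow_le_rpow_left_iff_of_base_lt_one (by norm_num) (by norm_num)] at h13
      have h14 : q ≤ q'' := by exact_mod_cast h13
      exact (min_le_left _ _).trans (WithTop.coe_le_coe.2 h14)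
    · rw [Real.rpow_le_rpow_left_iff_of_base_lt_one (by norm_num) (by norm_num)] at h13
      have h14 : q' ≤ q'' := by exact_mod_cast h13
      exact (min_le_right _ _).trans (WithTop.coe_le_coe.2 h14)
  · -- two
    have h12 : nm A.av (A.eQ 2) = (1 / 2 : ℝ) ^ (0 : ℤ) := by
      rw [map_ofNat, zpow_zero]
      refine C.cst _ ?_ hL2
      have h13 : (2 : Kvs A.av) = 1 + 1 := by norm_num
      rw [h13]
      exact cc.add _ cc.one _ cc.one
    have h13 := hint 2 0 h12
    rw [h13, Int.cast_zero]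
    rfl
  · -- nt
    intro x
    rw [nu_eq, nu_eq, q1, C.inv]
  · -- nf
    intro x
    rw [nu_eq, nu_eq, q1, C.inv]
  · -- int
    intro x hx hx0
    obtain ⟨m, r, j, c, y, s1, s2, s3, s5, s6⟩ := hst x hx0
    obtain ⟨z, z1, z2, z3, z4⟩ := hroot m r s1
    have e1 : A.t (A.eQ x) = A.eQ x := by rw [← q1, hx]
    rw [s6] at e1
    have e2 := hmain s1 s2 s3 s5 z1 z2 z3 cc.one (by rw [one_mul]; exact e1)
    obtain ⟨n, hn⟩ := ((hprim m z z3 z4).zpow_eq_one_iff_dvd j).1 e2
    refine ⟨n, hint x n ?_⟩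
    rw [s6, hnm (m := m) s2 s3 s5, hn, zpow_mul]
    congr 1
    rw [zpow_natCast, ← N.pow, s1, C.un]
  · -- sq
    intro x y₀ hxy hx n hn
    have hx0 : x ≠ 0 := by
      rintro rfl
      rw [hV0] at hn
      exact WithTop.coe_ne_top hn.symm
    have hy0 : y₀ ≠ 0 := by
      rintro rfl
      apply hx0
      rw [← hxy]
      ring
    obtain ⟨m', r', j', c, y, s1', s2, s3, s5, s6'⟩ := hst y₀ hy0
    -- level at least one
    obtain ⟨r, hr⟩ : ∃ r, r ^ 2 = r' := by
      obtain ⟨r, hr⟩ := ex_root hL2 r' 1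
      exact ⟨r, by rw [pow_one] at hr; exact hr⟩
    have s1 : r ^ 2 ^ (m' + 1) = unK w A.av := by rw [pow_succ', pow_mul, hr, s1']
    have s6 : A.eQ y₀ = r ^ (2 * j') * c * (1 + y) := by
      have e0 : r ^ (2 * j') = r' ^ j' := by
        rw [zpow_mul, zpow_ofNat, hr]
      rw [s6', e0]
    obtain ⟨r0, r1⟩ := hrr s1
    obtain ⟨z, z1, z2, z3, z4⟩ := hroot (m' + 1) r s1
    have hz4 := z4 (Nat.succ_le_succ (Nat.zero_le _))
    rw [Nat.add_sub_cancel] at hz4
    -- the exponent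
    have hnx : nm A.av (A.eQ x) = (1 / 2 : ℝ) ^ n := by
      obtain ⟨q, e1, e2⟩ := hV x hx0
      rw [e2] at hn
      have e3 : q = (n : ℚ) := WithTop.coe_injective hn
      rw [e1, e3, half_int]
    have hjn : 2 * j' = (2 ^ m' : ℕ) * n := by
      have e1 : nm A.av r ^ (2 * (2 * j')) = nm A.av r ^ (2 * ((2 ^ m' : ℕ) * n)) := by
        have e2 : nm A.av (A.eQ x) = nm A.av r ^ (2 * (2 * j')) := by
          rw [← hxy, map_pow, N.pow, s6, hnm (m := m' + 1) s2 s3 s5, ← zpow_natCast, ← zpow_mul]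
          congr 1
          push_cast
          ring
        have e3 : nm A.av r ^ (2 * (((2 ^ m' : ℕ) : ℤ) * n)) = (1 / 2 : ℝ) ^ n := by
          have e4 : nm A.av r ^ 2 ^ (m' + 1) = 1 / 2 := by rw [← N.pow, s1, C.un]
          rw [← e4, ← zpow_natCast, ← zpow_mul]
          congr 1
          push_cast
          ring
        rw [← e2, hnx, e3]
      have e5 := zpow_right_injective₀ (N.pos r0) r1.ne e1
      linarith
    -- the sign
    have hsq : (A.rQ A.t y₀) ^ 2 = y₀ ^ 2 := by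
      rw [← map_pow, hxy, hx]
    have hev : z ^ (2 * j') = (-1) ^ n := by
      rw [hjn, zpow_mul, zpow_natCast, hz4]
    rcases sq_eq_sq_iff_eq_or_eq_neg.1 hsq with hs | hs
    · have e1 : A.t (A.eQ y₀) = A.eQ y₀ := by rw [← q1, hs]
      rw [s6] at e1
      have e2 := hmain s1 s2 s3 s5 z1 z2 z3 cc.one (by rw [one_mul]; exact e1)
      rw [hev] at e2
      rw [hs]
      split_ifs with hpar
      · rfl
      · rw [Int.not_even_iff_odd] at hpar
        rw [hpar.neg_one_zpow] at e2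
        exact absurd (by linear_combination -e2 : (2 : Kvs A.av) = 0) hL2
    · have e1 : A.t (A.eQ y₀) = - A.eQ y₀ := by rw [← q1, hs, map_neg]
      rw [s6] at e1
      have e2 := hmain s1 s2 s3 s5 z1 z2 z3 (cc.neg _ cc.one)
        (by rw [neg_one_mul]; exact e1)
      rw [hev] at e2
      rw [hs]
      split_ifs with hpar
      · rw [hpar.neg_one_zpow] at e2
        exact absurd (by linear_combination e2 : (2 : Kvs A.av) = 0) hL2
      · rfl
  · -- r1
    apply hres
    rw [OneMemClass.coe_one, sub_self, map_zero, N.zero]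
    exact zero_lt_one
  · -- radd
    intro x y hx hy
    rw [hle] at hx hy
    apply hres
    have e1 : x + y - ((resP A x + resP A y : kF F) : Qf F) =
        (x - resP A x) + (y - resP A y) := by
      push_cast
      ring
    rw [e1, map_add]
    exact N.add_lt (hex x hx) (hex y hy)
  · -- rmul
    intro x y hx hy
    rw [hle] at hx hy
    apply hres
    have e1 : x * y - ((resP A x * resP A y : kF F) : Qf F) =
        x * (y - resP A y) + (x - resP A x) * resP A y := by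
      push_cast
      ring
    rw [e1, map_add, map_mul, map_mul]
    refine N.add_lt ?_ ?_
    · rw [N.mul]
      calc nm A.av (A.eQ x) * nm A.av (A.eQ (y - resP A y)) ≤ 1 * nm A.av (A.eQ (y - resP A y)) :=
            mul_le_mul_of_nonneg_right hx (N.nn _)
        _ < 1 := by rw [one_mul]; exact hex y hy
    · rw [N.mul]
      calc nm A.av (A.eQ (x - resP A x)) * nm A.av (A.eQ (resP A y : Qf F)) ≤
          nm A.av (A.eQ (x - resP A x)) * 1 :=
            mul_le_mul_of_nonneg_left (hresle y) (N.nn _)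
        _ < 1 := by rw [mul_one]; exact hex x hx
  · -- r0
    intro x hx
    rw [hlt]
    rw [hle] at hx
    constructor
    · intro h
      have e1 := hex x hx
      rw [h, ZeroMemClass.coe_zero, sub_zero] at e1
      exact e1
    · intro h
      apply hres
      rw [ZeroMemClass.coe_zero, sub_zero]
      exact h
  · -- rt
    intro x hx
    rw [hle] at hx
    apply hres
    have e1 : A.eQ (A.rQ A.t x - (resP A x : Qf F)) = A.t (A.eQ (x - resP A x)) := by
      rw [map_sub, q1, map_sub, map_sub, hA.tg _ (hcst (resP A x))]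
    rw [e1, C.inv]
    exact hex x hx
  · -- rf
    intro x hx
    rw [hle] at hx
    apply hres
    have e1 : A.eQ (A.rQ A.f x - ((resP A x ^ (Nat.card F ^ dgP w) : kF F) : Qf F)) =
        A.f (A.eQ (x - resP A x)) := by
      have e2 : A.f (A.eQ (resP A x : Qf F)) = A.eQ (resP A x : Qf F) ^ (Nat.card F ^ dgP w) :=
        hA.ff _ (hcst (resP A x))
      rw [map_sub, q1, map_sub, map_sub, e2, ← map_pow]
      rfl
    rw [e1, C.inv]
    exact hex x hx
  · -- the values on `K`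
    intro x n hx
    apply hint
    rw [eQ_alg, C.alg, hx]

end Pool.Agent.MP72S.D
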