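import Pool.Agent.Lib.MP_72e2e6_nt.Sm.D.Spec

/-!
# MP_72e2e6_nt, `Sm/D/Pr`: the geometric Galois group is a pro-`2`-group
-/

namespace Pool.Agent.MP72S.D

open Polynomial IntermediateField Pool.Agent.MP72W

private theorem powmono {K L : Type} [Field K] [Field L] [Algebra K L] (g : Gal(L/K)) {n m : ℕ}
    (h : n ≤ m) {a : L} (ha : (g ^ 2 ^ n) a = a) : (g ^ 2 ^ m) a = a := by
  obtain ⟨k, rfl⟩ := Nat.exists_eq_add_of_le h
  rw [pow_add, pow_mul]
  generalize 2 ^ k = j
  induction j with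
  | zero => rw [pow_zero]; rfl
  | succ j ih => rw [pow_succ, AlgEquiv.mul_apply, ha, ih]

theorem tPr (hKk : S_Kk) (hQG : S_QG) : S_Pr := by
  intro F _ _ U hU g hg
  obtain ⟨-, -, -, -, hind⟩ := hQG F
  have hall : ∀ a : Qf F, ∃ n : ℕ, (g ^ 2 ^ n) a = a := by
    refine hind _ ?_ ?_ ?_ ?_ ?_ ?_
    · intro x
      exact ⟨0, (g ^ 2 ^ 0).commutes x⟩
    · intro c hc
      refine ⟨0, ?_⟩
      rw [pow_zero, pow_one]
      exact hg ⟨c, ((hKk F).2.1 c).mpr hc⟩
    · rintro a b ⟨n, hn⟩ ⟨m, hm⟩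
      exact ⟨max n m, by rw [map_add, powmono g (le_max_left _ _) hn,
        powmono g (le_max_right _ _) hm]⟩
    · rintro a b ⟨n, hn⟩ ⟨m, hm⟩
      exact ⟨max n m, by rw [map_mul, powmono g (le_max_left _ _) hn,
        powmono g (le_max_right _ _) hm]⟩
    · rintro a ⟨n, hn⟩
      exact ⟨n, by rw [map_inv₀, hn]⟩
    · rintro a ⟨n, hn⟩
      rw [map_pow] at hn
      refine ⟨n + 1, ?_⟩
      rw [pow_succ, pow_mul, pow_two, AlgEquiv.mul_apply]
      rcases sq_eq_sq_iff_eq_or_eq_neg.mp hn with h | h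
      · rw [h, h]
      · rw [h, map_neg, h, neg_neg]
  obtain ⟨E, hE, hEU⟩ := (krullTopology_mem_nhds_one_iff _ _ _).mp (hU.mem_nhds U.one_mem)
  obtain ⟨s, hs⟩ := (Module.Finite.fg_top (R := RatFunc F) (M := E))
  choose n hn using hall
  refine ⟨s.sup fun x => n x, hEU ?_⟩
  rw [SetLike.mem_coe, IntermediateField.mem_fixingSubgroup_iff]
  intro x hx
  have hspan : (⟨x, hx⟩ : E) ∈ Submodule.span (RatFunc F) (s : Set E) := by
    rw [hs]
    exact Submodule.mem_top
  have key : ∀ y ∈ Submodule.span (RatFunc F) (s : Set E),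
      (g ^ 2 ^ s.sup fun x => n x) (y : Qf F) = (y : Qf F) := by
    intro y hy
    induction hy using Submodule.span_induction with
    | mem z hz => exact powmono g (Finset.le_sup (f := fun x : E => n x) hz) (hn z)
    | zero => exact map_zero _
    | add a b _ _ ha hb =>
      change (g ^ 2 ^ s.sup fun x => n x) ((a : Qf F) + (b : Qf F)) = (a : Qf F) + (b : Qf F)
      rw [map_add, ha, hb]
    | smul r a _ ha =>
      change (g ^ 2 ^ s.sup fun x => n x) (r • (a : Qf F)) = r • (a : Qf F)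
      rw [map_smul, ha]
  exact key _ hspan

end Pool.Agent.MP72S.D
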