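import Pool.Agent.Lib.MP_72e2e6_nt.Sm.D.Spec

/-!
# The quadratic closure
-/

namespace Pool.Agent.MP72S.D

open Polynomial IntermediateField Pool.Agent.MP72W

private def QGfam (F : Type) [Field F] : Set (IntermediateField (RatFunc F) (Kgs F)) :=
  {L | (∀ c ∈ Cst (Nat.card F) (Kgs F), c ∈ L) ∧ ∀ a : Kgs F, a ^ 2 ∈ L → a ∈ L}

private theorem mem_Qf (F : Type) [Field F] (x : Kgs F) : x ∈ Qf F ↔ ∀ L ∈ QGfam F, x ∈ L := by
  show x ∈ sInf (QGfam F) ↔ _
  rw [IntermediateField.mem_sInf]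

private theorem Qf_cst (F : Type) [Field F] : ∀ c ∈ Cst (Nat.card F) (Kgs F), c ∈ Qf F := by
  intro c hc
  rw [mem_Qf]
  intro L hL
  exact hL.1 c hc

private theorem Qf_sq (F : Type) [Field F] : ∀ a : Kgs F, a ^ 2 ∈ Qf F → a ∈ Qf F := by
  intro a ha
  rw [mem_Qf] at ha ⊢
  intro L hL
  exact hL.2 a (ha L hL)

private theorem Cst_map (F : Type) [Field F] (σ : Gal(Kgs F/RatFunc F)) :
    ∀ c ∈ Cst (Nat.card F) (Kgs F), σ c ∈ Cst (Nat.card F) (Kgs F) := by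
  rintro c ⟨n, hn, hc⟩
  exact ⟨n, hn, by rw [← map_pow, hc]⟩

private theorem comap_fam (F : Type) [Field F] (σ : Gal(Kgs F/RatFunc F))
    (L : IntermediateField (RatFunc F) (Kgs F)) (hL : L ∈ QGfam F) :
    L.comap (σ : Kgs F →ₐ[RatFunc F] Kgs F) ∈ QGfam F := by
  refine ⟨fun c hc => ?_, fun a ha => ?_⟩
  · exact hL.1 _ (Cst_map F σ c hc)
  · have h1 : σ (a ^ 2) ∈ L := ha
    rw [map_pow] at h1
    exact hL.2 _ h1

private theorem Qf_normal (F : Type) [Field F] : Normal (RatFunc F) (Qf F) := by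
  have : IsGalois (RatFunc F) (Kgs F) := inferInstance
  rw [IntermediateField.normal_iff_forall_map_le']
  intro σ
  rw [IntermediateField.map_le_iff_le_comap]
  intro x hx
  show σ x ∈ Qf F
  rw [mem_Qf]
  intro L hL
  exact (mem_Qf F x).1 hx _ (comap_fam F σ L hL)

private theorem two_Kgs (F : Type) [Field F] (h : (2 : F) ≠ 0) : (2 : Kgs F) ≠ 0 := by
  have h1 : (2 : Kgs F) = algebraMap (RatFunc F) (Kgs F) (algebraMap F (RatFunc F) 2) := by
    rw [map_ofNat, map_ofNat]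
  rw [h1]
  intro h2
  rw [map_eq_zero, map_eq_zero] at h2
  exact h h2

theorem tQG (_ : S_Cs) : S_QG := by
  intro F _ _
  have hN := Qf_normal F
  refine ⟨⟨⟩, Qf_cst F, Qf_sq F, fun h2 a => ?_, ?_⟩
  · have h3 : NeZero ((2 : ℕ) : Kgs F) := ⟨by exact_mod_cast two_Kgs F h2⟩
    obtain ⟨z, hz⟩ := IsSepClosed.exists_pow_nat_eq (a : Kgs F) 2
    have h4 : z ∈ Qf F := Qf_sq F z (by rw [hz]; exact a.2)
    exact ⟨⟨z, h4⟩, Subtype.ext hz⟩
  · intro pr hK hC hadd hmul hinv hsq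
    have h0 : pr 0 := by
      have := hK 0
      rwa [map_zero] at this
    have h1 : pr 1 := by
      have := hK 1
      rwa [map_one] at this
    let L : IntermediateField (RatFunc F) (Kgs F) :=
      { carrier := {a | ∃ h : a ∈ Qf F, pr ⟨a, h⟩}
        mul_mem' := by
          rintro a b ⟨ha, ha'⟩ ⟨hb, hb'⟩
          exact ⟨mul_mem ha hb, hmul _ _ ha' hb'⟩
        one_mem' := ⟨one_mem _, h1⟩
        add_mem' := by
          rintro a b ⟨ha, ha'⟩ ⟨hb, hb'⟩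
          exact ⟨add_mem ha hb, hadd _ _ ha' hb'⟩
        zero_mem' := ⟨zero_mem _, h0⟩
        algebraMap_mem' := fun x => ⟨(Qf F).algebraMap_mem x, hK x⟩
        inv_mem' := by
          rintro a ⟨ha, ha'⟩
          exact ⟨inv_mem ha, hinv _ ha'⟩ }
    have hL : L ∈ QGfam F := by
      refine ⟨fun c hc => ⟨Qf_cst F c hc, hC _ hc⟩, ?_⟩
      rintro a ⟨ha, ha'⟩
      exact ⟨Qf_sq F a ha, hsq ⟨a, Qf_sq F a ha⟩ ha'⟩
    intro a
    obtain ⟨h, h'⟩ := (mem_Qf F (a : Kgs F)).1 a.2 L hL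
    exact h'

end Pool.Agent.MP72S.D
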