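import Pool.Agent.Lib.MP_72e2e6_nt.Sm.D.Spec

/-!
# MP_72e2e6_nt, `Sm`, block D: every embedding maps `Qf F` into the tame field
-/

namespace Pool.Agent.MP72S.D

open Polynomial IntermediateField Pool.Agent.MP72W

theorem tQT (h1 : S_Fg) (h2 : S_Tsq) (h3 : S_QG) : S_QT := by
  intro F _ _ hF w v hw ι x
  obtain ⟨-, h12, -⟩ := h1 F
  obtain ⟨hc, -⟩ := h12 (Kvs v) ι
  obtain ⟨-, -, -, -, h5⟩ := h3 F
  refine h5 (fun a : Qf F => ι (a : Kgs F) ∈ Tam w v) ?_ ?_ ?_ ?_ ?_ ?_ x
  · intro y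
    have e : ι ((algebraMap (RatFunc F) (Qf F) y : Qf F) : Kgs F) =
        algebraMap v.Completion (Kvs v) (algebraMap (RatFunc F) v.Completion y) := by
      rw [← IsScalarTower.algebraMap_apply]
      exact ι.commutes y
    rw [e]
    exact (Tam w v).algebraMap_mem _
  · intro c hcc
    exact subset_adjoin _ _ (Or.inl (hc _ hcc))
  · intro a b ha hb
    have e : ι ((a + b : Qf F) : Kgs F) = ι a + ι b := by
      rw [← map_add]; rfl
    rw [e]
    exact add_mem ha hb
  · intro a b ha hb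
    have e : ι ((a * b : Qf F) : Kgs F) = ι a * ι b := by
      rw [← map_mul]; rfl
    rw [e]
    exact mul_mem ha hb
  · intro a ha
    have e : ι ((a⁻¹ : Qf F) : Kgs F) = (ι a)⁻¹ := by
      rw [← map_inv₀]; rfl
    rw [e]
    exact inv_mem ha
  · intro a ha
    have e : ι ((a ^ 2 : Qf F) : Kgs F) = (ι a) ^ 2 := by
      rw [← map_pow]; rfl
    rw [e] at ha
    exact h2 F hF w v hw _ ha

end Pool.Agent.MP72S.D
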