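import Pool.Agent.Lib.MP_72e2e6_nt.Sm.D.Hp

/-!
# MP_72e2e6_nt, `Sm`, block D: module Ro (the roots `rtP`)
-/

namespace Pool.Agent.MP72S.D

open Polynomial IntermediateField Pool.Agent.MP72W Hp

/-- The orbit of a root under the Frobenius. -/
private theorem orb (F : Type) [Field F] [Finite F] (k : Type) [Field k] [Algebra F k] (P : F[X])
    (hm : P.Monic) (hi : Irreducible P) (c' : k) (hc' : aeval c' P = 0) :
    (∀ i j, i < P.natDegree → j < P.natDegree →
      c' ^ Nat.card F ^ i = c' ^ Nat.card F ^ j → i = j) ∧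
    ∀ c : k, aeval c P = 0 → ∃ i < P.natDegree, c' ^ Nat.card F ^ i = c := by
  classical
  have : Fintype F := Fintype.ofFinite F
  have hq : Nat.card F = Fintype.card F := Nat.card_eq_fintype_card
  have hφ : ∀ (K' : Type) [Field K'] [Algebra F K'] (i : ℕ) (x : K'),
      (FiniteField.frobeniusAlgHom F K' ^ i) x = x ^ Nat.card F ^ i := by
    intro K' _ _ i x
    rw [AlgHom.coe_pow, FiniteField.coe_frobeniusAlgHom, pow_iterate, hq]
  have hint : IsIntegral F c' := ⟨P, hm, hc'⟩
  have hmin : P = minpoly F c' := minpoly.eq_of_irreducible_of_monic hi hc' hm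
  have hfd := adjoin.finiteDimensional hint
  have hfr : Module.finrank F F⟮c'⟯ = P.natDegree := by rw [adjoin.finrank hint, ← hmin]
  have hfin : Finite F⟮c'⟯ := Module.finite_of_finite F
  have hord := FiniteField.orderOf_frobeniusAlgHom F F⟮c'⟯
  have key : ∀ e, c' ^ Nat.card F ^ e = c' → P.natDegree ∣ e := by
    intro e he
    rw [← hfr, ← hord]
    apply orderOf_dvd_of_pow_eq_one
    apply adjoin_algHom_ext F
    rintro x hx
    rw [Set.mem_singleton_iff] at hx
    subst hx
    rw [hφ]
    apply Subtype.ext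
    exact he
  have hinj : ∀ i, Function.Injective fun x : k => x ^ Nat.card F ^ i := by
    intro i x y hxy
    have h1 : (FiniteField.frobeniusAlgHom F k ^ i) x = (FiniteField.frobeniusAlgHom F k ^ i) y := by
      rw [hφ, hφ]; exact hxy
    exact (FiniteField.frobeniusAlgHom F k ^ i).toRingHom.injective h1
  have hlt : ∀ i j, i < j → j < P.natDegree → c' ^ Nat.card F ^ i ≠ c' ^ Nat.card F ^ j := by
    intro i j hij hj h1
    have h2 : j = (j - i) + i := by omega
    rw [h2, pow_add, pow_mul] at h1
    have h3 := hinj i h1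
    have h4 := key (j - i) h3.symm
    have h5 := Nat.le_of_dvd (by omega) h4
    omega
  have hI : ∀ i j, i < P.natDegree → j < P.natDegree →
      c' ^ Nat.card F ^ i = c' ^ Nat.card F ^ j → i = j := by
    intro i j hi hj h1
    rcases lt_trichotomy i j with h2 | h2 | h2
    · exact absurd h1 (hlt i j h2 hj)
    · exact h2
    · exact absurd h1.symm (hlt j i h2 hi)
  refine ⟨hI, fun c hc => ?_⟩
  have hroot : ∀ i, aeval (c' ^ Nat.card F ^ i) P = 0 := by
    intro i
    rw [← hφ k i c', aeval_algHom_apply, hc', map_zero]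
  have hP0 : P ≠ 0 := hm.ne_zero
  have hmem : ∀ x : k, x ∈ (P.aroots k).toFinset ↔ aeval x P = 0 := by
    intro x
    rw [Multiset.mem_toFinset, mem_aroots]
    exact ⟨fun h => h.2, fun h => ⟨hP0, h⟩⟩
  have hsub : (Finset.range P.natDegree).image (fun i => c' ^ Nat.card F ^ i) ⊆
      (P.aroots k).toFinset := by
    intro x hx
    rw [Finset.mem_image] at hx
    obtain ⟨i, -, rfl⟩ := hx
    exact (hmem _).2 (hroot i)
  have hcard : ((Finset.range P.natDegree).image (fun i => c' ^ Nat.card F ^ i)).card =
      P.natDegree := by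
    rw [Finset.card_image_of_injOn, Finset.card_range]
    intro i hi j hj h1
    exact hI i j (Finset.mem_range.1 hi) (Finset.mem_range.1 hj) h1
  have hle : (P.aroots k).toFinset.card ≤
      ((Finset.range P.natDegree).image (fun i => c' ^ Nat.card F ^ i)).card := by
    rw [hcard]
    refine (Multiset.toFinset_card_le _).trans ?_
    refine (card_roots' _).trans ?_
    rw [natDegree_map]
  have heq := Finset.eq_of_subset_of_card_le hsub hle
  have h1 := (hmem c).2 hc
  rw [← heq, Finset.mem_image] at h1
  obtain ⟨i, hi, h2⟩ := h1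
  exact ⟨i, Finset.mem_range.1 hi, h2⟩

theorem tRo (h1 : S_Lf) (h2 : S_Lc) (h3 : S_Ln) (h4 : S_Cs) (h5 : S_Fg) (h6 : S_Kk) : S_Ro := by
  intro F _ _ A hA
  have hC : ∀ w, Cx w.o (A w).av := fun w => cx_of h1 h2 h3 F _ _ (hA.ok w).pl
  obtain ⟨k1, k2, k3, k4, k5⟩ := h6 F
  -- distances of constants
  have hd : ∀ (w : Pl F) (c c' : kF F), c ≠ c' → nm (A w).av ((A w).eQ (c - c' : Qf F)) = 1 := by
    intro w c c' hcc
    refine (hC w).cst _ ?_ ?_
    · have h7 := eQ_kF h5 h6 (A w) (c - c')
      exact h7
    · intro h7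
      apply hcc
      have h8 : (A w).eQ (c - c' : Qf F) = (A w).eQ 0 := by rw [h7, map_zero]
      have h9 := eQ_inj (A w) h8
      exact Subtype.ext (sub_eq_zero.1 h9)
  -- existence of the root
  have hex : ∀ P : {P : F[X] // P.Monic ∧ Irreducible P}, ∃ c : kF F,
      aeval c P.1 = 0 ∧ nm (A (some P)).av ((A (some P)).eQ (tQ F - c)) < 1 := by
    intro P
    have hsp : (P.1.map (algebraMap F (kF F))).Splits := IsAlgClosed.splits _
    have hmo : (P.1.map (algebraMap F (kF F))).Monic := P.2.1.map _
    have hpr := hsp.eq_prod_roots_of_monic hmo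
    have hev : aeval (tQ F) P.1 =
        ((P.1.aroots (kF F)).map fun c : kF F => tQ F - (c : Qf F)).prod := by
      have h7 : aeval (tQ F) (P.1.map (algebraMap F (kF F))) = aeval (tQ F) P.1 :=
        aeval_map_algebraMap (kF F) (tQ F) P.1
      rw [← h7, hpr, map_multiset_prod, Multiset.map_map]
      congr 1
      apply Multiset.map_congr rfl
      intro c _
      rw [Function.comp_apply, map_sub, aeval_X, aeval_C]
      rfl
    have hn : nm (A (some P)).av ((A (some P)).eQ (aeval (tQ F) P.1)) = 1 / 2 := by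
      rw [aeval_tQ, eQ_alg, (hC (some P)).alg]
      exact (hC (some P)).hv
    by_contra hcon
    push Not at hcon
    have h8 : (1 : ℝ) ≤ ((P.1.aroots (kF F)).map fun c : kF F =>
        nm (A (some P)).av ((A (some P)).eQ (tQ F - (c : Qf F)))).prod := by
      refine Multiset.one_le_prod_map fun c hc => hcon c ?_
      rw [mem_aroots] at hc
      exact hc.2
    let N : Kvs (A (some P)).av →* ℝ :=
      { toFun := nm (A (some P)).av
        map_one' := (hC (some P)).nr.one
        map_mul' := (hC (some P)).nr.mul }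
    have h9 : nm (A (some P)).av ((A (some P)).eQ (aeval (tQ F) P.1)) =
        ((P.1.aroots (kF F)).map fun c : kF F =>
        nm (A (some P)).av ((A (some P)).eQ (tQ F - (c : Qf F)))).prod := by
      rw [hev, map_multiset_prod, Multiset.map_map]
      change N _ = _
      rw [map_multiset_prod, Multiset.map_map]
      rfl
    rw [← h9, hn] at h8
    norm_num at h8
  have hroot : ∀ P : {P : F[X] // P.Monic ∧ Irreducible P}, aeval (rtP A (some P)) P.1 = 0 ∧
      nm (A (some P)).av ((A (some P)).eQ (tQ F - rtP A (some P))) < 1 := by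
    intro P
    obtain ⟨c, hc1, hc2⟩ := hex P
    have h7 : ∃ c : kF F, nm (A (some P)).av ((A (some P)).eQ (tQ F - c)) < 1 ∧
        (some P : Pl F) ≠ none := ⟨c, hc2, Option.some_ne_none _⟩
    have h8 : rtP A (some P) = h7.choose := by
      rw [rtP, dif_pos h7]
    have h9 := h7.choose_spec.1
    rw [← h8] at h9
    have h10 : rtP A (some P) = c := by
      by_contra hne
      have h11 := hd (some P) _ _ hne
      have h12 : ((rtP A (some P) : Qf F) - (c : Qf F)) = (tQ F - c) - (tQ F - rtP A (some P)) := by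
        ring
      rw [h12, map_sub] at h11
      have h13 := (hC (some P)).nr.sub_lt hc2 h9
      rw [h11] at h13
      exact lt_irrefl _ h13
    rw [h10]
    exact ⟨hc1, hc2⟩
  refine ⟨hroot, hd, fun c => ?_⟩
  -- the minimal polynomial of `c`
  have hint : IsIntegral F c := Algebra.IsIntegral.isIntegral c
  obtain ⟨o1, o2⟩ := orb F (kF F) (minpoly F c) (minpoly.monic hint) (minpoly.irreducible hint)
    (rtP A (some ⟨minpoly F c, minpoly.monic hint, minpoly.irreducible hint⟩))
    (hroot ⟨minpoly F c, minpoly.monic hint, minpoly.irreducible hint⟩).1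
  obtain ⟨i, hi, h7⟩ := o2 c (minpoly.aeval F c)
  refine ⟨(some ⟨minpoly F c, minpoly.monic hint, minpoly.irreducible hint⟩, i),
    ⟨Option.some_ne_none _, hi, h7⟩, ?_⟩
  rintro ⟨w, j⟩ ⟨hw, hj, h8⟩
  cases w with
  | none => exact absurd rfl hw
  | some P =>
    change j < P.1.natDegree at hj
    change rtP A (some P) ^ Nat.card F ^ j = c at h8
    have h9 : aeval c P.1 = 0 := by
      have : Fintype F := Fintype.ofFinite F
      have h10 : (FiniteField.frobeniusAlgHom F (kF F) ^ j) (rtP A (some P)) = c := by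
        rw [AlgHom.coe_pow, FiniteField.coe_frobeniusAlgHom, pow_iterate,
          ← Nat.card_eq_fintype_card]
        exact h8
      rw [← h10, aeval_algHom_apply, (hroot P).1, map_zero]
    have h11 : P.1 = minpoly F c := minpoly.eq_of_irreducible_of_monic P.2.2 h9 P.2.1
    have h12 : P = ⟨minpoly F c, minpoly.monic hint, minpoly.irreducible hint⟩ :=
      Subtype.ext h11
    subst h12
    have h13 := o1 j i hj hi (h8.trans h7.symm)
    rw [h13]

end Pool.Agent.MP72S.D
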