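import Pool.Agent.Lib.MP_72e2e6_nt.Sm.D.Spec

/-!
# MP_72e2e6_nt, `Sm/D/Rq`: the restrictions to the quadratic closure
-/

namespace Pool.Agent.MP72S.D

open Polynomial IntermediateField Pool.Agent.MP72W

theorem tRq (hRe : S_Re) (hFg : S_Fg) (hQG : S_QG) (hTrl : S_Trl) (hQT : S_QT) : S_Rq := by
  intro F _ _ h2F w A hA
  have := (hQG F).1
  have h1 : ∀ (g : Gal(Kvs A.av/A.av.Completion)) (x : Qf F), A.eQ (A.rQ g x) = g (A.eQ x) := by
    intro g x
    exact ((hRe (RatFunc F) (Qf F) A.av.Completion (Kvs A.av) A.eQ).2.1 g x).symm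
  have hinj : Function.Injective A.eQ := A.eQ.toRingHom.injective
  have hc : ∀ c : Qf F, (c : Kgs F) ∈ Cst (Nat.card F) (Kgs F) →
      A.eQ c ∈ Cst (Nat.card F) (Kvs A.av) := by
    intro c hc
    exact ((hFg F).2.1 (Kvs A.av) A.emb).1 _ hc
  refine ⟨h1, ?_, ?_, ?_⟩
  · intro g hg c hcc
    apply hinj
    rw [h1]
    exact hg _ (hc c hcc)
  · intro c hcc
    apply hinj
    rw [h1, map_pow]
    exact hA.ff _ (hc c hcc)
  · refine AlgEquiv.ext fun x => hinj ?_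
    rw [AlgEquiv.mul_apply, AlgEquiv.mul_apply, h1, h1, ← map_pow, h1, h1]
    exact hTrl F h2F w A.av hA.pl A.t A.f hA.tg hA.ts hA.ff (A.eQ x)
      (hQT F h2F w A.av hA.pl A.emb x)

end Pool.Agent.MP72S.D
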