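import Pool.Agent.Lib.MP_72e2e6_nt.Sm.D.Spec

/-!
# Principal roots
-/

namespace Pool.Agent.MP72S.D

open Polynomial IntermediateField Pool.Agent.MP72W

/-- The norm properties which are used. -/
private structure Nrm {F : Type} [Field F] (v : AbsoluteValue (RatFunc F) ℝ) : Prop where
  n0 : ∀ x : Kvs v, 0 ≤ nm v x
  nz : ∀ x : Kvs v, nm v x = 0 ↔ x = 0
  mul : ∀ x y : Kvs v, nm v (x * y) = nm v x * nm v y
  add : ∀ x y : Kvs v, nm v (x + y) ≤ max (nm v x) (nm v y)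
  inv : ∀ (g : Gal(Kvs v/v.Completion)) (x : Kvs v), nm v (g x) = nm v x
  cst : ∀ x ∈ Cst (Nat.card F) (Kvs v), x ≠ 0 → nm v x = 1
  c1 : (1 : Kvs v) ∈ Cst (Nat.card F) (Kvs v)
  ca : ∀ x ∈ Cst (Nat.card F) (Kvs v), ∀ y ∈ Cst (Nat.card F) (Kvs v),
    x + y ∈ Cst (Nat.card F) (Kvs v)
  cn : ∀ x ∈ Cst (Nat.card F) (Kvs v), -x ∈ Cst (Nat.card F) (Kvs v)
  cr : ∀ (x : Kvs v) (m : ℕ), 1 ≤ m → x ^ m ∈ Cst (Nat.card F) (Kvs v) →
    x ∈ Cst (Nat.card F) (Kvs v)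
  sq : ∀ y : Kvs v, nm v y < 1 → ∃ s : Kvs v, s ^ 2 = 1 + y ∧ nm v (s - 1) < 1

section

variable {F : Type} [Field F] {v : AbsoluteValue (RatFunc F) ℝ} (N : Nrm v)
include N

private theorem n1 : nm v (1 : Kvs v) = 1 := N.cst 1 N.c1 one_ne_zero

private theorem nneg (x : Kvs v) : nm v (-x) = nm v x := by
  have h1 : nm v (-1 : Kvs v) = 1 := N.cst (-1) (N.cn 1 N.c1) (neg_ne_zero.2 one_ne_zero)
  have h2 : -x = (-1) * x := by ring
  rw [h2, N.mul, h1, one_mul]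

private theorem nadd_lt {x y : Kvs v} {r : ℝ} (hx : nm v x < r) (hy : nm v y < r) :
    nm v (x + y) < r := lt_of_le_of_lt (N.add x y) (max_lt hx hy)

private theorem nsub_lt {x y : Kvs v} {r : ℝ} (hx : nm v x < r) (hy : nm v y < r) :
    nm v (x - y) < r := by
  rw [sub_eq_add_neg]
  exact nadd_lt N hx (by rw [nneg N]; exact hy)

/-- An element near to one has norm one. -/
private theorem near_one {s : Kvs v} (h : nm v (s - 1) < 1) : nm v s = 1 := by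
  apply le_antisymm
  · have h1 := N.add (s - 1) 1
    rw [sub_add_cancel, n1 N] at h1
    exact h1.trans (max_le h.le le_rfl)
  · by_contra hc
    push Not at hc
    have h1 : nm v (s - (s - 1)) < 1 := nsub_lt N hc h
    rw [sub_sub_cancel, n1 N] at h1
    exact lt_irrefl _ h1

private theorem rt1 (m : ℕ) : ∀ y : Kvs v, nm v y < 1 →
    ∃ s : Kvs v, s ^ 2 ^ m = 1 + y ∧ nm v (s - 1) < 1 := by
  induction m with
  | zero =>
    intro y hy
    exact ⟨1 + y, by rw [pow_zero, pow_one], by rwa [add_sub_cancel_left]⟩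
  | succ m ih =>
    intro y hy
    obtain ⟨s, hs, hs1⟩ := N.sq y hy
    obtain ⟨u, hu, hu1⟩ := ih (s - 1) hs1
    refine ⟨u, ?_, hu1⟩
    rw [pow_succ, pow_mul, hu, add_sub_cancel, hs]

private theorem rt2 (m : ℕ) (s s' : Kvs v) (h : s ^ 2 ^ m = s' ^ 2 ^ m)
    (hs : nm v (s - 1) < 1) (hs' : nm v (s' - 1) < 1) : s = s' := by
  have n' : nm v s' = 1 := near_one N hs'
  have s0 : s' ≠ 0 := by
    intro h0
    rw [h0, (N.nz 0).2 rfl] at n'
    exact zero_ne_one n'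
  have hz : (s / s') ^ 2 ^ m = 1 := by
    rw [div_pow, h, div_self (pow_ne_zero _ s0)]
  have hc : s / s' ∈ Cst (Nat.card F) (Kvs v) := by
    refine N.cr _ (2 ^ m) Nat.one_le_two_pow ?_
    rw [hz]
    exact N.c1
  have hc' : s / s' - 1 ∈ Cst (Nat.card F) (Kvs v) := by
    rw [sub_eq_add_neg]
    exact N.ca _ hc _ (N.cn _ N.c1)
  have h1 : nm v (s / s' - 1) < 1 := by
    have h2 : nm v (s / s' - 1) * nm v s' = nm v (s - s') := by
      rw [← N.mul]
      congr 1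
      field_simp
    rw [n', mul_one] at h2
    rw [h2]
    have h3 : s - s' = (s - 1) - (s' - 1) := by ring
    rw [h3]
    exact nsub_lt N hs hs'
  have h2 : s / s' - 1 = 0 := by
    by_contra h0
    rw [N.cst _ hc' h0] at h1
    exact lt_irrefl _ h1
  have h3 : s / s' = 1 := sub_eq_zero.1 h2
  exact (div_eq_one_iff_eq s0).1 h3

private theorem rt3 [IsSepClosed (Kvs v)] (h2 : (2 : Kvs v) ≠ 0) (m : ℕ) : ∀ s : Kvs v,
    nm v (s ^ 2 ^ m - 1) < 1 →
    ∃ z ∈ Cst (Nat.card F) (Kvs v), z ^ 2 ^ m = 1 ∧ nm v (s - z) < 1 := by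
  induction m with
  | zero =>
    intro s hs
    rw [pow_zero, pow_one] at hs
    exact ⟨1, N.c1, one_pow _, hs⟩
  | succ m ih =>
    intro s hs
    have e : s ^ 2 ^ (m + 1) = (s ^ 2) ^ 2 ^ m := by
      rw [← pow_mul, pow_succ, mul_comm]
    rw [e] at hs
    obtain ⟨z, hz, hz1, hz2⟩ := ih (s ^ 2) hs
    have h3 : NeZero ((2 : ℕ) : Kvs v) := ⟨by exact_mod_cast h2⟩
    obtain ⟨ξ, hξ⟩ := IsSepClosed.exists_pow_nat_eq z 2
    have hξc : ξ ∈ Cst (Nat.card F) (Kvs v) := N.cr ξ 2 (by norm_num) (by rw [hξ]; exact hz)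
    have e2 : ∀ y : Kvs v, y ^ 2 = z → y ^ 2 ^ (m + 1) = 1 := by
      intro y hy
      have : y ^ 2 ^ (m + 1) = (y ^ 2) ^ 2 ^ m := by rw [← pow_mul, pow_succ, mul_comm]
      rw [this, hy, hz1]
    have h4 : nm v (s - ξ) * nm v (s - -ξ) < 1 := by
      rw [← N.mul]
      have : (s - ξ) * (s - -ξ) = s ^ 2 - z := by rw [← hξ]; ring
      rw [this]
      exact hz2
    rcases lt_or_ge (nm v (s - ξ)) 1 with h5 | h5
    · exact ⟨ξ, hξc, e2 ξ hξ, h5⟩
    · refine ⟨-ξ, N.cn _ hξc, e2 _ (by rw [neg_sq, hξ]), ?_⟩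
      by_contra h6
      push Not at h6
      have := one_le_mul_of_one_le_of_one_le h5 h6
      exact absurd h4 (not_lt.2 this)

end

theorem tRt (h1 : S_Ln) (h2 : S_Cs) : S_Rt := by
  intro F _ _ hF v d ϖ R hL
  obtain ⟨a1, a2, a3, a4, a5, a6, a7, a8⟩ := h1 F v d ϖ R hL
  have := Fintype.ofFinite F
  obtain ⟨p, hp⟩ := CharP.exists F
  obtain ⟨r, hpp, hr⟩ := FiniteField.card F p
  have : Fact p.Prime := ⟨hpp⟩
  have hq : Nat.card F = p ^ (r : ℕ) := by rw [Nat.card_eq_fintype_card, hr]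
  let φ : F →+* Kvs v := ((algebraMap v.Completion (Kvs v)).comp
    (algebraMap (RatFunc F) v.Completion)).comp (algebraMap F (RatFunc F))
  have hφ : Function.Injective φ := φ.injective
  have hc : CharP (Kvs v) p := charP_of_injective_ringHom hφ p
  have hs : IsSepClosed (Kvs v) := inferInstance
  obtain ⟨-, b1, b2, b3, b4, -, -⟩ := h2 p (Nat.card F) r r.2 hq (Kvs v)
  have two : (2 : Kvs v) ≠ 0 := by
    have e : φ 2 = 2 := map_ofNat φ 2
    rw [← e]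
    exact fun h => hF ((map_eq_zero φ).1 h)
  have N : Nrm v := ⟨a1, a2, a3, a4, a6, a7, b1, fun x hx y hy => (b2 x hx y hy).1,
    fun x hx => (b3 x hx).1, b4, a8 hF⟩
  refine ⟨rt1 N, rt2 N, rt3 N two, fun g m s hg hs1 => ?_⟩
  refine rt2 N m (g s) s (by rw [← map_pow]; exact hg) ?_ hs1
  have e : g s - 1 = g (s - 1) := by rw [map_sub, map_one]
  rw [e, N.inv]
  exact hs1

end Pool.Agent.MP72S.D
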