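import Pool.Agent.Lib.MP_72e2e6_nt.Sm.D.Spec

/-!
# MP_72e2e6_nt, `Sm`, block D: the relation between inertia and Frobenius on the tame field
-/

namespace Pool.Agent.MP72S.D

open Polynomial IntermediateField Pool.Agent.MP72W

private theorem trl_q (F : Type) [Field F] [Finite F] : ∃ p r : ℕ, p.Prime ∧ CharP F p ∧ 1 ≤ r ∧
    Nat.card F = p ^ r := by
  have hft : Fintype F := Fintype.ofFinite F
  obtain ⟨p, hp⟩ := CharP.exists F
  obtain ⟨n, hpr, hn⟩ := FiniteField.card F p
  exact ⟨p, n, hpr, hp, n.pos, by rw [Nat.card_eq_fintype_card, hn]⟩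

private theorem trl_char {F : Type} [Field F] (p : ℕ) [CharP F p]
    (v : AbsoluteValue (RatFunc F) ℝ) : CharP (Kvs v) p := by
  have h1 : CharP (RatFunc F) p :=
    charP_of_injective_algebraMap (algebraMap F (RatFunc F)).injective p
  have h2 : CharP v.Completion p :=
    charP_of_injective_algebraMap (algebraMap (RatFunc F) v.Completion).injective p
  exact charP_of_injective_algebraMap (algebraMap v.Completion (Kvs v)).injective p

private theorem trl_un {F : Type} [Field F] (w : Option F[X]) (v : AbsoluteValue (RatFunc F) ℝ)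
    (hw : IsPl w v) : unK w v ≠ 0 := by
  have h : unP w ≠ 0 := by
    cases w with
    | none => exact inv_ne_zero RatFunc.X_ne_zero
    | some P =>
      obtain ⟨hP, -⟩ := hw
      intro h0
      apply hP.ne_zero
      exact (IsFractionRing.injective F[X] (RatFunc F)) (h0.trans (map_zero _).symm)
  unfold unK
  intro h0
  apply h
  have h1 := (algebraMap v.Completion (Kvs v)).injective (h0.trans (map_zero _).symm)
  exact (algebraMap (RatFunc F) v.Completion).injective (h1.trans (map_zero _).symm)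

private theorem trl_pow {K L : Type} [Field K] [Field L] [Algebra K L] (g : Gal(L/K)) (z r : L)
    (hz : g z = z) (hr : g r = z * r) (n : ℕ) : (g ^ n) z = z ∧ (g ^ n) r = z ^ n * r := by
  induction n with
  | zero => exact ⟨rfl, by rw [pow_zero, pow_zero, one_mul]; rfl⟩
  | succ n ih =>
    have e : ∀ x, (g ^ (n + 1)) x = g ((g ^ n) x) := by
      intro x
      rw [pow_succ']
      rfl
    rw [e, e, ih.1, ih.2, hz, map_mul, map_pow, hz, hr, pow_succ]
    exact ⟨rfl, by ring⟩

theorem tTrl (h1 : S_Cs) (h2 : S_Zt) : S_Trl := by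
  intro F _ _ hF w v hw g f hg hgr hf x hx
  obtain ⟨p, r, hp, hcp, hr1, hq⟩ := trl_q F
  have hfp : Fact p.Prime := ⟨hp⟩
  have hcK := trl_char p v
  obtain ⟨-, c1, c2, -, c5, -, -⟩ := h1 p (Nat.card F) r hr1 hq (Kvs v)
  obtain ⟨-, hz⟩ := h2 F hF w v hw
  have hfix : ∀ (s : Gal(Kvs v/v.Completion)) (y : v.Completion),
      s (algebraMap v.Completion (Kvs v) y) = algebraMap v.Completion (Kvs v) y :=
    fun s y => s.commutes y
  have hcpow : ∀ c ∈ Cst (Nat.card F) (Kvs v), ∀ n : ℕ, c ^ n ∈ Cst (Nat.card F) (Kvs v) := by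
    intro c hc n
    induction n with
    | zero => rw [pow_zero]; exact c1
    | succ n ih => rw [pow_succ]; exact (c2 _ ih _ hc).2
  have hgn : ∀ c ∈ Cst (Nat.card F) (Kvs v), ∀ n : ℕ, (g ^ n) c = c := by
    intro c hc n
    exact (trl_pow g c 0 (hg c hc) (by rw [map_zero, mul_zero]) n).1
  unfold Tam at hx
  induction hx using adjoin_induction with
  | mem x hx =>
    rcases hx with hc | ⟨m, hm⟩
    · rw [hg x hc, hf x hc, hgn _ (hcpow x hc _)]
    · obtain ⟨z, hzc, hzr, -, -⟩ := hz g hg hgr m x hm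
      have hx0 : x ≠ 0 := by
        rintro rfl
        apply trl_un w v hw
        rw [← hm, zero_pow (by positivity)]
      have hfx : (f x / x) ^ 2 ^ m = 1 := by
        have e : f (unK w v) = unK w v := hfix f _
        rw [div_pow, ← map_pow, hm, e, div_self (trl_un w v hw)]
      have hzc' : f x / x ∈ Cst (Nat.card F) (Kvs v) := by
        apply c5 _ (2 ^ m) Nat.one_le_two_pow
        rw [hfx]
        exact c1
      have e1 : f x = (f x / x) * x := (div_mul_cancel₀ _ hx0).symm
      obtain ⟨-, e2⟩ := trl_pow g z x (hg z hzc) hzr (Nat.card F ^ dgP w)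
      have e3 : (g ^ (Nat.card F ^ dgP w)) (f x) =
          (g ^ (Nat.card F ^ dgP w)) (f x / x) * (g ^ (Nat.card F ^ dgP w)) x := by
        rw [← map_mul, ← e1]
      rw [e3, hgn _ hzc', e2, hzr, map_mul, hf z hzc]
      calc z ^ Nat.card F ^ dgP w * f x = z ^ Nat.card F ^ dgP w * (f x / x * x) := by
            rw [← e1]
        _ = f x / x * (z ^ Nat.card F ^ dgP w * x) := by ring
  | algebraMap y => rw [hfix, hfix, hfix]
  | add x y _ _ hx hy => rw [map_add, map_add, map_add, map_add, hx, hy]
  | inv x _ hx => rw [map_inv₀, map_inv₀, map_inv₀, map_inv₀, hx]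
  | mul x y _ _ hx hy => rw [map_mul, map_mul, map_mul, map_mul, hx, hy]

end Pool.Agent.MP72S.D
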