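import Pool.Agent.Lib.MP_72e2e6_nt.Sm.D.Spec

/-!
# MP_72e2e6_nt, `Sm`, block D: the tame field is closed under square roots
-/

namespace Pool.Agent.MP72S.D

open Polynomial IntermediateField Pool.Agent.MP72W

private theorem tsq_q (F : Type) [Field F] [Finite F] : ∃ p r : ℕ, p.Prime ∧ CharP F p ∧ 1 ≤ r ∧
    Nat.card F = p ^ r := by
  have hft : Fintype F := Fintype.ofFinite F
  obtain ⟨p, hp⟩ := CharP.exists F
  obtain ⟨n, hpr, hn⟩ := FiniteField.card F p
  exact ⟨p, n, hpr, hp, n.pos, by rw [Nat.card_eq_fintype_card, hn]⟩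

private theorem tsq_char {F : Type} [Field F] (p : ℕ) [CharP F p]
    (v : AbsoluteValue (RatFunc F) ℝ) : CharP (Kvs v) p := by
  have h1 : CharP (RatFunc F) p :=
    charP_of_injective_algebraMap (algebraMap F (RatFunc F)).injective p
  have h2 : CharP v.Completion p :=
    charP_of_injective_algebraMap (algebraMap (RatFunc F) v.Completion).injective p
  exact charP_of_injective_algebraMap (algebraMap v.Completion (Kvs v)).injective p

private theorem tsq_two {F : Type} [Field F] (hF : (2 : F) ≠ 0)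
    (v : AbsoluteValue (RatFunc F) ℝ) : (2 : Kvs v) ≠ 0 := by
  have h : algebraMap v.Completion (Kvs v) (algebraMap (RatFunc F) v.Completion
      (algebraMap F (RatFunc F) 2)) = 2 := by
    rw [map_ofNat, map_ofNat, map_ofNat]
  rw [← h]
  intro h0
  apply hF
  have h1 := (algebraMap v.Completion (Kvs v)).injective (h0.trans (map_zero _).symm)
  have h2 := (algebraMap (RatFunc F) v.Completion).injective (h1.trans (map_zero _).symm)
  exact (algebraMap F (RatFunc F)).injective (h2.trans (map_zero _).symm)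

theorem tTsq (h1 : S_Lf) (_h2 : S_Ln) (h3 : S_Cs) (h4 : S_Rt) (h5 : S_Tst) : S_Tsq := by
  intro F _ _ hF w v hw a ha
  obtain ⟨p, r, hp, hcp, hr1, hq⟩ := tsq_q F
  have hfp : Fact p.Prime := ⟨hp⟩
  have hcK := tsq_char p v
  obtain ⟨-, c1, -, -, c5, -, -⟩ := h3 p (Nat.card F) r hr1 hq (Kvs v)
  obtain ⟨⟨R, hLF⟩, -⟩ := h1 F w v hw
  obtain ⟨r1, -, -, r4⟩ := h4 F hF v _ _ R hLF
  by_cases ha0 : a = 0
  · rw [ha0]
    exact zero_mem _
  obtain ⟨m, r, j, c, y, hr, hc, hc0, hy, hny, hx⟩ := h5 F hF w v hw _ ha (pow_ne_zero 2 ha0)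
  have hne : NeZero ((2 : ℕ) : Kvs v) := ⟨by
    rw [Nat.cast_ofNat]
    exact tsq_two hF v⟩
  obtain ⟨ρ, hρ⟩ := IsSepClosed.exists_pow_nat_eq r 2
  obtain ⟨e, he⟩ := IsSepClosed.exists_pow_nat_eq c 2
  obtain ⟨s, hs, hs1⟩ := r1 1 y hny
  have hρT : ρ ∈ Tam w v := by
    apply subset_adjoin
    right
    refine ⟨m + 1, ?_⟩
    rw [pow_succ', pow_mul, hρ, hr]
  have heT : e ∈ Tam w v := by
    apply subset_adjoin
    left
    apply c5 e 2 (by norm_num)
    rw [he]
    exact hc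
  have hsT : s ∈ Tam w v := by
    rw [← InfiniteGalois.fixedField_fixingSubgroup (Tam w v)]
    intro g
    have hg := (mem_fixingSubgroup_iff _ _).1 g.2
    change g.1 s = s
    apply r4 g.1 1 s _ hs1
    rw [hs]
    exact hg _ (add_mem (one_mem _) hy)
  rw [pow_one] at hs
  have hT : ρ ^ j * e * s ∈ Tam w v := mul_mem (mul_mem (zpow_mem hρT j) heT) hsT
  have hsq : (a - ρ ^ j * e * s) * (a + ρ ^ j * e * s) = 0 := by
    have h6 : a ^ 2 = (ρ ^ j * e * s) ^ 2 := by
      rw [hx, mul_pow, mul_pow, he, hs, ← hρ]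
      congr 2
      rw [← zpow_natCast, ← zpow_natCast, ← zpow_mul, ← zpow_mul, mul_comm]
    linear_combination h6
  rcases mul_eq_zero.1 hsq with h6 | h6
  · rw [sub_eq_zero.1 h6]
    exact hT
  · rw [eq_neg_of_add_eq_zero_left h6]
    exact neg_mem hT

end Pool.Agent.MP72S.D
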