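import Pool.Agent.Lib.MP_72e2e6_nt.Sm.D.Hp

/-!
# MP_72e2e6_nt, `Sm`, block D: module Tst (the elements of the tame field)
-/

namespace Pool.Agent.MP72S.D

open Polynomial IntermediateField Pool.Agent.MP72W Hp

/-- Elements of `k(r)`, `r ^ N = u ∈ k`, are polynomials in `r` of degree less than `N`. -/
private theorem ex_sum {K L : Type} [Field K] [Field L] [Algebra K L]
    (k : IntermediateField K L) {u : L} (hu : u ∈ k) {N : ℕ} (hN : 0 < N) {r : L} (hr : r ^ N = u)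
    {x : L} (hx : x ∈ IntermediateField.adjoin k ({r} : Set L)) :
    ∃ a : ℕ → L, (∀ i, a i ∈ k) ∧ x = ∑ i ∈ Finset.range N, a i * r ^ i := by
  have hmon : (X ^ N - C (⟨u, hu⟩ : k) : k[X]).Monic := monic_X_pow_sub_C _ hN.ne'
  have hroot : aeval r (X ^ N - C (⟨u, hu⟩ : k) : k[X]) = 0 := by
    rw [map_sub, map_pow, aeval_X, aeval_C, hr]
    exact sub_self u
  have halg : IsAlgebraic k r := ⟨X ^ N - C (⟨u, hu⟩ : k), hmon.ne_zero, hroot⟩
  have h1 : x ∈ (IntermediateField.adjoin k ({r} : Set L)).toSubalgebra := hx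
  rw [IntermediateField.adjoin_simple_toSubalgebra_of_isAlgebraic halg,
    Algebra.adjoin_singleton_eq_range_aeval] at h1
  obtain ⟨p, rfl⟩ := h1
  have hdeg : (p %ₘ (X ^ N - C (⟨u, hu⟩ : k) : k[X])).natDegree < N := by
    have h2 := natDegree_modByMonic_lt p hmon (by
      intro h3
      have h4 := congrArg natDegree h3
      rw [natDegree_X_pow_sub_C, natDegree_one] at h4
      omega)
    rwa [natDegree_X_pow_sub_C] at h2
  refine ⟨fun i => ((p %ₘ (X ^ N - C (⟨u, hu⟩ : k) : k[X])).coeff i : L), fun i => Subtype.property _, ?_⟩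
  change aeval r p = _
  rw [← aeval_modByMonic_eq_self_of_root hroot, aeval_eq_sum_range' hdeg]
  rfl

theorem tTst (h1 : S_Lf) (h2 : S_Lc) (h3 : S_Ln) (h4 : S_Cs) (h5 : S_Nn) : S_Tst := by
  intro F _ _ hF w v hw x hx hx0
  have C := cx_of h1 h2 h3 F w v hw
  have hc : Cc (Nat.card F) (Kvs v) := cc_of h4 F (Kvs v) (fv F v)
  have hL2 : (2 : Kvs v) ≠ 0 := two_ne hF (fv F v)
  obtain ⟨R, hR⟩ := C.lf
  obtain ⟨m1, m2, m3, m4, m5⟩ := h5 F v _ _ R hR
  rw [C.hv] at m1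
  have hunk : unK w v ∈ Knr v := IntermediateField.algebraMap_mem _ _
  have hunT : unK w v ∈ Tam w v := IntermediateField.algebraMap_mem _ _
  -- every element of `Tam` is in some `Knr(r)`
  have hB : ∀ x ∈ Tam w v, ∃ (m : ℕ) (r : Kvs v), r ^ 2 ^ m = unK w v ∧
      x ∈ IntermediateField.adjoin (Knr v) ({r} : Set (Kvs v)) := by
    have hdir : ∀ (m m' : ℕ) (r r' : Kvs v), r ^ 2 ^ m = unK w v → r' ^ 2 ^ m' = unK w v →
        ∃ (M : ℕ) (s : Kvs v), s ^ 2 ^ M = unK w v ∧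
          IntermediateField.adjoin (Knr v) ({r} : Set (Kvs v)) ≤
            IntermediateField.adjoin (Knr v) ({s} : Set (Kvs v)) ∧
          IntermediateField.adjoin (Knr v) ({r'} : Set (Kvs v)) ≤
            IntermediateField.adjoin (Knr v) ({s} : Set (Kvs v)) := by
      intro m m' r r' hr hr'
      obtain ⟨s, hs⟩ := ex_root hL2 r m'
      have hss : s ∈ IntermediateField.adjoin (Knr v) ({s} : Set (Kvs v)) :=
        IntermediateField.mem_adjoin_simple_self _ _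
      refine ⟨m' + m, s, by rw [pow_add, pow_mul, hs, hr], ?_, ?_⟩
      · rw [IntermediateField.adjoin_simple_le_iff, ← hs]
        exact pow_mem hss _
      · rw [IntermediateField.adjoin_simple_le_iff]
        have hs0 : s ≠ 0 := by
          rintro rfl
          rw [zero_pow (pow_ne_zero _ two_ne_zero)] at hs
          rw [← hs, zero_pow (pow_ne_zero _ two_ne_zero)] at hr
          exact C.un_ne hr.symm
        have h6 : (r' / s ^ 2 ^ m) ^ 2 ^ m' = 1 := by
          rw [div_pow, hr', ← pow_mul, mul_comm, pow_mul, hs, hr, div_self C.un_ne]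
        have h7 : r' / s ^ 2 ^ m ∈ Knr v := m3 _ (cst_of_pow_one hc h6)
        have h8 : r' = (r' / s ^ 2 ^ m) * s ^ 2 ^ m := by
          rw [div_mul_cancel₀ _ (pow_ne_zero _ hs0)]
        rw [h8]
        exact mul_mem (IntermediateField.algebraMap_mem _ (⟨_, h7⟩ : Knr v)) (pow_mem hss _)
    intro x hx
    unfold Tam at hx
    induction hx using IntermediateField.adjoin_induction with
    | mem x hx =>
      rcases hx with hx | ⟨m, hx⟩
      · exact ⟨0, unK w v, by rw [pow_zero, pow_one],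
          IntermediateField.algebraMap_mem _ (⟨_, m3 x hx⟩ : Knr v)⟩
      · exact ⟨m, x, hx, IntermediateField.mem_adjoin_simple_self _ _⟩
    | algebraMap x =>
      exact ⟨0, unK w v, by rw [pow_zero, pow_one],
          IntermediateField.algebraMap_mem _
            (⟨_, IntermediateField.algebraMap_mem (Knr v) x⟩ : Knr v)⟩
    | add x y hx hy ihx ihy =>
      obtain ⟨m, r, hr, ihx⟩ := ihx
      obtain ⟨m', r', hr', ihy⟩ := ihy
      obtain ⟨M, s, hs, h6, h7⟩ := hdir m m' r r' hr hr'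
      exact ⟨M, s, hs, add_mem (h6 ihx) (h7 ihy)⟩
    | inv x hx ihx =>
      obtain ⟨m, r, hr, ihx⟩ := ihx
      exact ⟨m, r, hr, inv_mem ihx⟩
    | mul x y hx hy ihx ihy =>
      obtain ⟨m, r, hr, ihx⟩ := ihx
      obtain ⟨m', r', hr', ihy⟩ := ihy
      obtain ⟨M, s, hs, h6, h7⟩ := hdir m m' r r' hr hr'
      exact ⟨M, s, hs, mul_mem (h6 ihx) (h7 ihy)⟩
  obtain ⟨m, r, hr, hxr⟩ := hB x hx
  have hN : 0 < 2 ^ m := pow_pos two_pos _
  obtain ⟨a, ha, hxa⟩ := ex_sum (Knr v) hunk hN hr hxr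
  have hrr : nm v r ^ 2 ^ m = 1 / 2 := by rw [← C.nr.pow, hr, C.un]
  have hr0 : r ≠ 0 := by
    rintro rfl
    rw [zero_pow hN.ne'] at hr
    exact C.un_ne hr.symm
  have hrpos := C.nr.pos hr0
  have hr1 : nm v r < 1 := C.nr.lt_one_of_pow (k := 2 ^ m) (by rw [hrr]; norm_num)
  classical
  -- the exponents
  have he : ∀ i, a i ≠ 0 → ∃ n : ℤ, nm v (a i) = (1 / 2) ^ n := fun i hi => m1 _ (ha i) hi
  choose! e he using he
  have hterm : ∀ i, a i ≠ 0 → nm v (a i * r ^ i) = nm v r ^ ((2 ^ m : ℕ) * e i + i : ℤ) := by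
    intro i hi
    rw [C.nr.mul, he i hi, C.nr.pow, zpow_add₀ hrpos.ne', zpow_mul, zpow_natCast, zpow_natCast, hrr]
  have hS : ((Finset.range (2 ^ m)).filter fun i => a i ≠ 0).Nonempty := by
    by_contra hcon
    rw [Finset.not_nonempty_iff_eq_empty, Finset.filter_eq_empty_iff] at hcon
    apply hx0
    rw [hxa]
    refine Finset.sum_eq_zero fun i hi => ?_
    have h6 := hcon hi
    push Not at h6
    rw [h6, zero_mul]
  obtain ⟨i₀, hi₀, hmin⟩ := Finset.exists_min_image _ (fun i => ((2 ^ m : ℕ) * e i + i : ℤ)) hS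
  rw [Finset.mem_filter, Finset.mem_range] at hi₀
  obtain ⟨hi₀N, hi₀0⟩ := hi₀
  set T : Kvs v := a i₀ * r ^ i₀ with hT
  have hT0 : T ≠ 0 := mul_ne_zero hi₀0 (pow_ne_zero _ hr0)
  have hTpos := C.nr.pos hT0
  set y₁ : Kvs v := (∑ i ∈ (Finset.range (2 ^ m)).erase i₀, a i * r ^ i) / T with hy₁
  have hxT : x = T * (1 + y₁) := by
    rw [hy₁, mul_add, mul_one, mul_div_cancel₀ _ hT0, hxa,
      ← Finset.add_sum_erase _ _ (Finset.mem_range.2 hi₀N)]
  have hy₁1 : nm v y₁ < 1 := by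
    rw [hy₁, C.nr.div, div_lt_one hTpos]
    refine C.nr.sum_lt _ _ hTpos fun i hi => ?_
    rw [Finset.mem_erase, Finset.mem_range] at hi
    by_cases hai : a i = 0
    · rw [hai, zero_mul, C.nr.zero]
      exact hTpos
    · rw [hterm i hai, hT, hterm i₀ hi₀0]
      apply zpow_lt_zpow_right_of_lt_one₀ hrpos hr1
      have h6 := hmin i (by rw [Finset.mem_filter, Finset.mem_range]; exact ⟨hi.2, hai⟩)
      refine lt_of_le_of_ne h6 fun h7 => hi.1 ?_
      have h8 : ((2 ^ m : ℕ) : ℤ) ∣ (i : ℤ) - i₀ := ⟨e i₀ - e i, by linear_combination -h7⟩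
      have h9 := Int.eq_zero_of_abs_lt_dvd h8 (by
        rw [abs_lt]
        have h10 := hi.2
        constructor <;> omega)
      omega
  -- the coefficient
  set n := e i₀ with hn
  have hu0 : unK w v ≠ 0 := C.un_ne
  have hb : a i₀ / unK w v ^ n ∈ Knr v := div_mem (ha i₀) (zpow_mem hunk n)
  have hb1 : nm v (a i₀ / unK w v ^ n) = 1 := by
    rw [C.nr.div, C.nr.zpow, C.un, he i₀ hi₀0, div_self]
    exact zpow_ne_zero _ (by norm_num)
  obtain ⟨c, hcc, hbc⟩ := m2 _ hb hb1.le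
  have hc0 : c ≠ 0 := by
    rintro rfl
    rw [sub_zero, hb1] at hbc
    exact lt_irrefl _ hbc
  set y₂ : Kvs v := (a i₀ / unK w v ^ n - c) / c with hy₂
  have hy₂1 : nm v y₂ < 1 := by
    rw [hy₂, C.nr.div, C.cst c hcc hc0, div_one]
    exact hbc
  have hai : a i₀ = unK w v ^ n * c * (1 + y₂) := by
    rw [hy₂]
    field_simp
    ring
  have hrT : r ∈ Tam w v := IntermediateField.subset_adjoin _ _ (Or.inr ⟨m, hr⟩)
  have hcT : c ∈ Tam w v := IntermediateField.subset_adjoin _ _ (Or.inl hcc)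
  have hxf : x = r ^ ((2 ^ m : ℕ) * n + i₀ : ℤ) * c * (1 + ((1 + y₂) * (1 + y₁) - 1)) := by
    rw [zpow_add₀ hr0, zpow_mul, zpow_natCast, zpow_natCast, hr, hxT, hT]
    nth_rewrite 1 [hai]
    ring
  refine ⟨m, r, (2 ^ m : ℕ) * n + i₀, c, (1 + y₂) * (1 + y₁) - 1, hr, hcc, hc0, ?_,
    C.nr.one_mul_lt hy₂1 hy₁1, hxf⟩
  have hD : r ^ ((2 ^ m : ℕ) * n + i₀ : ℤ) * c ≠ 0 := mul_ne_zero (zpow_ne_zero _ hr0) hc0
  have h6 : (1 + y₂) * (1 + y₁) - 1 = x / (r ^ ((2 ^ m : ℕ) * n + i₀ : ℤ) * c) - 1 := by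
    rw [hxf, mul_div_cancel_left₀ _ hD]
    ring
  rw [h6]
  exact sub_mem (div_mem hx (mul_mem (zpow_mem hrT _) hcT)) (one_mem _)

end Pool.Agent.MP72S.D
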