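import Pool.Agent.Lib.MP_72e2e6_nt.Sm.D.Hp

/-!
# MP_72e2e6_nt, `Sm`, block D: module Un (the action of the inertia generators on the roots of `t - c`)
-/

namespace Pool.Agent.MP72S.D

open Polynomial IntermediateField Pool.Agent.MP72W Hp

section

variable {F : Type} [Field F] [Finite F] {w : Option F[X]} {v : AbsoluteValue (RatFunc F) ℝ}

/-- `X = c (1 + y)`, `c` a constant, `y` small and fixed by `g`. -/
private def Gd (g : Gal(Kvs v/v.Completion)) (X : Kvs v) : Prop :=
  ∃ c y : Kvs v, c ∈ Cst (Nat.card F) (Kvs v) ∧ c ≠ 0 ∧ nm v y < 1 ∧ g y = y ∧ X = c * (1 + y)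

private theorem gd_one (C : Cx w v) (cc : Cc (Nat.card F) (Kvs v)) (g : Gal(Kvs v/v.Completion)) :
    Gd g (1 : Kvs v) :=
  ⟨1, 0, cc.one, one_ne_zero, by rw [C.nr.zero]; exact zero_lt_one, map_zero g, by ring⟩

private theorem gd_mul (C : Cx w v) (cc : Cc (Nat.card F) (Kvs v)) (g : Gal(Kvs v/v.Completion))
    {X Y : Kvs v} (hX : Gd g X) (hY : Gd g Y) : Gd g (X * Y) := by
  obtain ⟨c, y, h1, h2, h3, h4, h5⟩ := hX
  obtain ⟨c', y', h1', h2', h3', h4', h5'⟩ := hY
  refine ⟨c * c', (1 + y) * (1 + y') - 1, cc.mul _ h1 _ h1', mul_ne_zero h2 h2',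
    C.nr.one_mul_lt h3 h3', ?_, ?_⟩
  · rw [map_sub, map_mul, map_add, map_add, h4, h4', map_one]
  · rw [h5, h5']; ring

private theorem gd_inv (C : Cx w v) (cc : Cc (Nat.card F) (Kvs v)) (g : Gal(Kvs v/v.Completion))
    {X : Kvs v} (hX : Gd g X) : Gd g X⁻¹ := by
  obtain ⟨c, y, h1, h2, h3, h4, h5⟩ := hX
  have h6 := C.nr.one_add_ne h3
  refine ⟨c⁻¹, (1 + y)⁻¹ - 1, cc.inv _ h1, inv_ne_zero h2, ?_, ?_, ?_⟩
  · have h7 : (1 + y)⁻¹ - 1 = - y / (1 + y) := by
      field_simp
      ring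
    rw [h7, C.nr.div, C.nr.one_add h3, div_one, C.nr.neg]
    exact h3
  · rw [map_sub, map_inv₀, map_add, h4, map_one]
  · rw [h5, mul_inv]
    ring

private theorem gd_root (C : Cx w v) (cc : Cc (Nat.card F) (Kvs v)) (rt : S_Rt) (hF : (2 : F) ≠ 0)
    (g : Gal(Kvs v/v.Completion)) (hg : IsGeo (Nat.card F) g) {m : ℕ} {X ρ z : Kvs v}
    (hρ : ρ ≠ 0) (hz : g ρ = z * ρ) {G : Kvs v} (hG : Gd g G)
    (hX : X ^ 2 ^ m = ρ ^ 2 ^ m * G) : g X = z * X := by
  obtain ⟨c₀, y, h1, h2, h3, h4, h5⟩ := hG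
  obtain ⟨R, hR⟩ := C.lf
  obtain ⟨r1, r2, r3, r4⟩ := rt F hF v _ _ R hR
  have hL2 : (2 : Kvs v) ≠ 0 := two_ne hF (fv F v)
  obtain ⟨c₁, hc₁⟩ := ex_root hL2 c₀ m
  have hc₁c : c₁ ∈ Cst (Nat.card F) (Kvs v) :=
    cc.root c₁ (2 ^ m) Nat.one_le_two_pow (by rw [hc₁]; exact h1)
  have hc₁0 : c₁ ≠ 0 := by
    rintro rfl
    rw [zero_pow (pow_ne_zero _ two_ne_zero)] at hc₁
    exact h2 hc₁.symm
  set s : Kvs v := X / (ρ * c₁) with hs
  have hsp : s ^ 2 ^ m = 1 + y := by
    rw [hs, div_pow, mul_pow, hc₁, hX, h5]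
    field_simp
  obtain ⟨z', hz'c, hz'1, hz'2⟩ := r3 m s (by rw [hsp, add_sub_cancel_left]; exact h3)
  have hz'0 : z' ≠ 0 := by
    rintro rfl
    rw [zero_pow (pow_ne_zero _ two_ne_zero)] at hz'1
    exact zero_ne_one hz'1
  have h6 : g (s / z') = s / z' := by
    apply r4 g m
    · rw [div_pow, hz'1, div_one, hsp, map_add, map_one, h4]
    · have h7 : s / z' - 1 = (s - z') / z' := by
        field_simp
      rw [h7, C.nr.div, C.cst z' hz'c hz'0, div_one]
      exact hz'2
  have h8 : g s = s := by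
    rw [map_div₀, hg z' hz'c] at h6
    have h9 := congrArg (fun x => x * z') h6
    simp only [div_mul_cancel₀ _ hz'0] at h9
    exact h9
  have hXs : X = ρ * c₁ * s := by
    rw [hs]
    field_simp
  rw [hXs, map_mul, map_mul, hz, hg c₁ hc₁c, h8]
  ring

end

theorem tUn (h1 : S_Lf) (h2 : S_Lc) (h3 : S_Ln) (h4 : S_Cs) (h5 : S_Fg) (h6 : S_Rt) (h7 : S_Zt)
    (h8 : S_Rq) (h9 : S_Kk) (h10 : S_Ro) : S_Un := by
  intro F _ _ hF A hA
  have hC : ∀ w, Cx w.o (A w).av := fun w => cx_of h1 h2 h3 F _ _ (hA.ok w).pl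
  have hcc : ∀ w, Cc (Nat.card F) (Kvs (A w).av) := fun w => cc_of h4 F _ (fv F _)
  have hL2 : ∀ w, (2 : Kvs (A w).av) ≠ 0 := fun w => two_ne hF (fv F _)
  obtain ⟨o1, o2, -⟩ := h10 F A hA
  have hrq : ∀ w x, (A w).eQ ((A w).rQ (A w).t x) = (A w).t ((A w).eQ x) :=
    fun w x => (h8 F hF _ _ (hA.ok w)).1 _ x
  have hgeo : ∀ w, IsGeo (Nat.card F) (A w).t := fun w => (hA.ok w).tg
  have htt : ∀ w, (A w).t ((A w).eQ (tQ F)) = (A w).eQ (tQ F) := by
    intro w
    rw [tQ, eQ_alg, AlgEquiv.commutes]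
  have htc : ∀ w (c : kF F), (A w).t ((A w).eQ (c : Qf F)) = (A w).eQ (c : Qf F) :=
    fun w c => hgeo w _ (eQ_kF h5 h9 (A w) c)
  have hunt : ∀ w, (A w).t (unK w.o (A w).av) = unK w.o (A w).av := by
    intro w
    rw [unK, AlgEquiv.commutes]
  -- the other roots
  have hgood : ∀ (P : {P : F[X] // P.Monic ∧ Irreducible P}) (c : kF F), c ≠ rtP A (some P) →
      Gd (A (some P)).t ((A (some P)).eQ (tQ F - (c : Qf F))) := by
    intro P c hc
    set w : Pl F := some P
    have h11 := o2 w (rtP A w) c (fun h => hc h.symm)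
    have h12 : (A w).eQ ((rtP A w : Qf F) - (c : Qf F)) ≠ 0 := by
      intro h
      rw [h, (hC w).nr.zero] at h11
      exact zero_ne_one h11
    refine ⟨(A w).eQ ((rtP A w : Qf F) - (c : Qf F)),
      (A w).eQ (tQ F - rtP A w) / (A w).eQ ((rtP A w : Qf F) - (c : Qf F)),
      eQ_kF h5 h9 (A w) (rtP A w - c), h12, ?_, ?_, ?_⟩
    · rw [(hC w).nr.div, h11, div_one]
      exact (o1 P).2
    · rw [map_div₀, map_sub, map_sub, map_sub, map_sub, htt, htc, htc]
    · rw [mul_add, mul_one, mul_div_cancel₀ _ h12, ← map_add]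
      congr 1
      ring
  -- primitive roots
  have hprim : ∀ (w : Pl F) (m : ℕ) (z : Kvs (A w).av), z ^ 2 ^ m = 1 →
      (1 ≤ m → z ^ 2 ^ (m - 1) = -1) → IsPrimitiveRoot z (2 ^ m) := by
    intro w m z hz hz'
    rcases Nat.eq_zero_or_pos m with rfl | hm
    · rw [pow_zero, pow_one] at hz
      rw [pow_zero, hz]
      exact IsPrimitiveRoot.one
    · obtain ⟨k, rfl⟩ : ∃ k, m = k + 1 := ⟨m - 1, by omega⟩
      have h11 := hz' hm
      rw [Nat.add_sub_cancel] at h11
      have h12 : ¬ z ^ 2 ^ k = 1 := by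
        rw [h11]
        intro h
        apply hL2 w
        linear_combination -h
      have h13 := orderOf_eq_prime_pow h12 hz
      rw [← h13]
      exact IsPrimitiveRoot.orderOf z
  have hlift : ∀ (w : Pl F) (m : ℕ) (z : Kvs (A w).av), z ∈ Cst (Nat.card F) (Kvs (A w).av) →
      IsPrimitiveRoot z (2 ^ m) → ∃ ζ : kF F, (A w).eQ (ζ : Qf F) = z ∧
        IsPrimitiveRoot ζ (2 ^ m) := by
    intro w m z hz hp
    obtain ⟨ζ, hζ⟩ := ex_kF h5 h9 (A w) hz
    refine ⟨ζ, hζ, ?_⟩
    have h11 : Function.Injective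
        ((A w).eQ.toRingHom.comp (algebraMap (kF F) (Qf F)) : kF F →+* Kvs (A w).av) :=
      RingHom.injective _
    refine IsPrimitiveRoot.of_map_of_injective
      (f := ((A w).eQ.toRingHom.comp (algebraMap (kF F) (Qf F)) : kF F →+* Kvs (A w).av)) ?_ h11
    change IsPrimitiveRoot ((A w).eQ (ζ : Qf F)) (2 ^ m)
    rw [hζ]
    exact hp
  refine ⟨?_, ?_, ?_⟩
  · intro m w c r hw hc hr
    cases w with
    | none => exact absurd rfl hw
    | some P =>
      apply eQ_inj (A (some P))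
      rw [hrq]
      have h11 := gd_root (hC (some P)) (hcc (some P)) h6 hF _ (hgeo (some P)) (m := m)
        (X := (A (some P)).eQ r) (ρ := 1) (z := 1) one_ne_zero (by rw [map_one, mul_one])
        (hgood P c hc) (by rw [← map_pow, hr, one_pow, one_mul]; rfl)
      rw [h11, one_mul]
  · intro m w hw
    cases w with
    | none => exact absurd rfl hw
    | some P =>
      have hOk := hA.ok (some P)
      obtain ⟨ρ, hρ⟩ := ex_root (hL2 (some P)) (unK (Pl.o (some P)) (A (some P)).av) m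
      obtain ⟨z, hzc, hz1, hz2, hz3⟩ := (h7 F hF _ _ hOk.pl).2 _ hOk.tg hOk.ts m ρ hρ
      obtain ⟨ζ, hζ1, hζ2⟩ := hlift (some P) m z hzc (hprim (some P) m z hz2 hz3)
      have hρ0 : ρ ≠ 0 := by
        rintro rfl
        rw [zero_pow (pow_ne_zero _ two_ne_zero)] at hρ
        exact (hC (some P)).un_ne hρ.symm
      refine ⟨ζ, hζ2, fun r hr => ?_⟩
      -- the decomposition of `P(t)`
      have hk := (h9 F).1
      have hsp : (P.1.map (algebraMap F (kF F))).Splits := IsAlgClosed.splits _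
      have hmo : (P.1.map (algebraMap F (kF F))).Monic := P.2.1.map _
      have hpr := hsp.eq_prod_roots_of_monic hmo
      have hsep : (P.1.map (algebraMap F (kF F))).Separable :=
        (PerfectField.separable_of_irreducible P.2.2).map
      have hnd : (P.1.aroots (kF F)).Nodup := nodup_roots hsep
      have hmem : rtP A (some P) ∈ P.1.aroots (kF F) := by
        rw [mem_aroots]
        exact ⟨P.2.1.ne_zero, (o1 P).1⟩
      obtain ⟨s, hs⟩ := Multiset.exists_cons_of_mem hmem
      have hev : aeval (tQ F) P.1 =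
          ((P.1.aroots (kF F)).map fun c : kF F => tQ F - (c : Qf F)).prod := by
        have h11 : aeval (tQ F) (P.1.map (algebraMap F (kF F))) = aeval (tQ F) P.1 :=
          aeval_map_algebraMap (kF F) (tQ F) P.1
        rw [← h11, hpr, map_multiset_prod, Multiset.map_map]
        congr 1
        apply Multiset.map_congr rfl
        intro c _
        rw [Function.comp_apply, map_sub, aeval_X, aeval_C]
        rfl
      have hsg : ∀ s : Multiset (kF F), rtP A (some P) ∉ s → Gd (A (some P)).t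
          ((A (some P)).eQ (s.map fun c : kF F => tQ F - (c : Qf F)).prod) := by
        intro s
        induction s using Multiset.induction_on with
        | empty =>
          intro _
          rw [Multiset.map_zero, Multiset.prod_zero, map_one]
          exact gd_one (hC (some P)) (hcc (some P)) _
        | cons a s ih =>
          intro h11
          rw [Multiset.map_cons, Multiset.prod_cons, map_mul]
          refine gd_mul (hC (some P)) (hcc (some P)) _ (hgood P a ?_) (ih ?_)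
          · rintro rfl
            exact h11 (Multiset.mem_cons_self _ _)
          · intro h12
            exact h11 (Multiset.mem_cons_of_mem h12)
      have hs0 : rtP A (some P) ∉ s := by
        rw [hs] at hnd
        exact (Multiset.nodup_cons.1 hnd).1
      have hG := hsg s hs0
      have hun : unK (Pl.o (some P)) (A (some P)).av = (A (some P)).eQ (tQ F - rtP A (some P)) *
          (A (some P)).eQ (s.map fun c : kF F => tQ F - (c : Qf F)).prod := by
        rw [← map_mul, ← Multiset.prod_cons, ← Multiset.map_cons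
          (fun c : kF F => tQ F - (c : Qf F)), ← hs, ← hev, aeval_tQ, eQ_alg]
        rfl
      have hG0 : (A (some P)).eQ (s.map fun c : kF F => tQ F - (c : Qf F)).prod ≠ 0 := by
        intro h
        rw [h, mul_zero] at hun
        exact (hC (some P)).un_ne hun
      apply eQ_inj (A (some P))
      rw [hrq]
      have h11 := gd_root (hC (some P)) (hcc (some P)) h6 hF _ (hgeo (some P)) (m := m)
        (X := (A (some P)).eQ r) (ρ := ρ) (z := z) hρ0 hz1
        (gd_inv (hC (some P)) (hcc (some P)) _ hG) (by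
          rw [← map_pow, hr, hρ, hun, mul_assoc, mul_inv_cancel₀ hG0, mul_one]; rfl)
      rw [h11, ← hζ1, ← map_mul]
      rfl
  · intro m
    have hOk := hA.ok none
    obtain ⟨ρ, hρ⟩ := ex_root (hL2 none) (unK (Pl.o (F := F) none) (A none).av) m
    obtain ⟨z, hzc, hz1, hz2, hz3⟩ := (h7 F hF _ _ hOk.pl).2 _ hOk.tg hOk.ts m ρ hρ
    have hz0 : z ≠ 0 := by
      rintro rfl
      rw [zero_pow (pow_ne_zero _ two_ne_zero)] at hz2
      exact zero_ne_one hz2
    obtain ⟨ζ, hζ1, hζ2⟩ := hlift none m z⁻¹ ((hcc none).inv _ hzc)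
      (hprim none m z hz2 hz3).inv
    have hρ0 : ρ ≠ 0 := by
      rintro rfl
      rw [zero_pow (pow_ne_zero _ two_ne_zero)] at hρ
      exact (hC none).un_ne hρ.symm
    refine ⟨ζ, hζ2, fun c r hr => ?_⟩
    have hu : unK (Pl.o (F := F) none) (A none).av * (A none).eQ (tQ F) = 1 := by
      rw [tQ, eQ_alg, unK, ← map_mul, ← map_mul]
      change algebraMap _ _ (algebraMap _ _ (RatFunc.X⁻¹ * RatFunc.X)) = _
      rw [inv_mul_cancel₀ RatFunc.X_ne_zero, map_one, map_one]
    have hu0 := (hC none).un_ne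
    have hG : Gd (A none).t (1 - unK (Pl.o (F := F) none) (A none).av * (A none).eQ (c : Qf F)) := by
      refine ⟨1, - (unK (Pl.o (F := F) none) (A none).av * (A none).eQ (c : Qf F)), (hcc none).one,
        one_ne_zero, ?_, ?_, by ring⟩
      · rw [(hC none).nr.neg, (hC none).nr.mul, (hC none).un]
        have h11 := (hC none).cst_le (eQ_kF h5 h9 (A none) c)
        linarith
      · rw [map_neg, map_mul, hunt, htc]
    apply eQ_inj (A none)
    rw [hrq]
    have h11 := gd_root (hC none) (hcc none) h6 hF _ (hgeo none) (m := m)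
      (X := (A none).eQ r) (ρ := ρ⁻¹) (z := z⁻¹) (inv_ne_zero hρ0)
      (by rw [map_inv₀, hz1, mul_inv]) hG (by
        rw [← map_pow, hr, map_sub, inv_pow, hρ]
        have h12 : (A none).eQ (tQ F) = (unK (Pl.o (F := F) none) (A none).av)⁻¹ :=
          eq_inv_of_mul_eq_one_right hu
        rw [h12, mul_sub, mul_one, ← mul_assoc, inv_mul_cancel₀ hu0, one_mul]
        rfl)
    rw [h11, ← hζ1, ← map_mul]
    rfl

end Pool.Agent.MP72S.D
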