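import Pool.Agent.Lib.MP_72e2e6_nt.Sm.D.Spec

/-!
# MP_72e2e6_nt, `Sm`, block D: inertia elements
-/

namespace Pool.Agent.MP72S.D

open Polynomial IntermediateField Pool.Agent.MP72W

private theorem zt_q (F : Type) [Field F] [Finite F] : ∃ p r : ℕ, p.Prime ∧ CharP F p ∧ 1 ≤ r ∧
    Nat.card F = p ^ r := by
  have hft : Fintype F := Fintype.ofFinite F
  obtain ⟨p, hp⟩ := CharP.exists F
  obtain ⟨n, hpr, hn⟩ := FiniteField.card F p
  exact ⟨p, n, hpr, hp, n.pos, by rw [Nat.card_eq_fintype_card, hn]⟩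

private theorem zt_char {F : Type} [Field F] (p : ℕ) [CharP F p]
    (v : AbsoluteValue (RatFunc F) ℝ) : CharP (Kvs v) p := by
  have h1 : CharP (RatFunc F) p :=
    charP_of_injective_algebraMap (algebraMap F (RatFunc F)).injective p
  have h2 : CharP v.Completion p :=
    charP_of_injective_algebraMap (algebraMap (RatFunc F) v.Completion).injective p
  exact charP_of_injective_algebraMap (algebraMap v.Completion (Kvs v)).injective p

private theorem zt_two {F : Type} [Field F] (hF : (2 : F) ≠ 0)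
    (v : AbsoluteValue (RatFunc F) ℝ) : (2 : Kvs v) ≠ 0 := by
  have h : algebraMap v.Completion (Kvs v) (algebraMap (RatFunc F) v.Completion
      (algebraMap F (RatFunc F) 2)) = 2 := by
    rw [map_ofNat, map_ofNat, map_ofNat]
  rw [← h]
  intro h0
  apply hF
  have h1 := (algebraMap v.Completion (Kvs v)).injective (h0.trans (map_zero _).symm)
  have h2 := (algebraMap (RatFunc F) v.Completion).injective (h1.trans (map_zero _).symm)
  exact (algebraMap F (RatFunc F)).injective (h2.trans (map_zero _).symm)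

private theorem zt_half (n : ℤ) : ((1 / 2 : ℝ) ^ n) ^ 2 ≠ 1 / 2 := by
  intro h
  have h1 : ((1 / 2 : ℝ) ^ n) ^ 2 = (1 / 2 : ℝ) ^ (n * 2) := by
    rw [zpow_mul]
    exact_mod_cast rfl
  have h2 : (1 / 2 : ℝ) ^ (n * 2) = (1 / 2 : ℝ) ^ (1 : ℤ) := by
    rw [← h1, h, zpow_one]
  have h3 := (zpow_right_injective₀ (by norm_num : (0 : ℝ) < 1 / 2)
    (by norm_num : (1 / 2 : ℝ) ≠ 1)) h2
  omega

theorem tZt (h1 : S_Lf) (h2 : S_Lc) (h3 : S_Ln) (h4 : S_Cs) (h5 : S_Nn) : S_Zt := by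
  intro F _ _ hF w v hw
  obtain ⟨p, r, hp, hcp, hr1, hq⟩ := zt_q F
  have hfp : Fact p.Prime := ⟨hp⟩
  have hcK := zt_char p v
  obtain ⟨-, c1, -, -, c5, -, -⟩ := h4 p (Nat.card F) r hr1 hq (Kvs v)
  obtain ⟨⟨R, hLF⟩, hv2⟩ := h1 F w v hw
  obtain ⟨l1, -⟩ := h2 F v _ _ R hLF
  obtain ⟨-, n2, n3, -, n5, -⟩ := h3 F v _ _ R hLF
  obtain ⟨k1, -, -, k4, -⟩ := h5 F v _ _ R hLF
  have hnm : nm v (unK w v) = 1 / 2 := by
    unfold unK
    rw [n5, l1, hv2]
  have hun : unK w v ≠ 0 := by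
    intro h
    have h6 := (n2 (unK w v)).2 h
    rw [hnm] at h6
    norm_num at h6
  have hfix : ∀ s : Gal(Kvs v/v.Completion), s (unK w v) = unK w v := fun s => s.commutes _
  refine ⟨?_, ?_⟩
  · have hne : NeZero ((2 : ℕ) : Kvs v) := ⟨by
      rw [Nat.cast_ofNat]
      exact zt_two hF v⟩
    obtain ⟨ρ, hρ⟩ := IsSepClosed.exists_pow_nat_eq (unK w v) 2
    have hρ0 : ρ ≠ 0 := by
      rintro rfl
      exact hun (by rw [← hρ]; ring)
    have hρK : ρ ∉ Knr v := by
      intro hK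
      obtain ⟨n, hn⟩ := k1 ρ hK hρ0
      rw [hv2] at hn
      apply zt_half n
      rw [← hn, sq, ← n3, ← sq, hρ, hnm]
    obtain ⟨g, hg1, hg2⟩ : ∃ g : Gal(Kvs v/v.Completion), g ∈ (Knr v).fixingSubgroup ∧
        g ρ ≠ ρ := by
      by_contra hcon
      push Not at hcon
      apply hρK
      rw [← InfiniteGalois.fixedField_fixingSubgroup (Knr v)]
      intro g
      exact hcon g.1 g.2
    have hgf : ∀ x ∈ Knr v, g x = x := (mem_fixingSubgroup_iff _ _).1 hg1
    refine ⟨g, (k4 g).2 hgf, ?_⟩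
    have hgρ : g ρ = -ρ := by
      have h6 : (g ρ - ρ) * (g ρ + ρ) = 0 := by
        have h7 : (g ρ) ^ 2 = ρ ^ 2 := by
          rw [← map_pow, hρ, hfix]
        linear_combination h7
      rcases mul_eq_zero.1 h6 with h7 | h7
      · exact absurd (sub_eq_zero.1 h7) hg2
      · exact eq_neg_of_add_eq_zero_left h7
    intro r' hr'
    have h6 : (r' - ρ) * (r' + ρ) = 0 := by
      linear_combination hr' - hρ
    rcases mul_eq_zero.1 h6 with h7 | h7
    · rw [sub_eq_zero.1 h7, hgρ]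
    · have h8 : r' = -ρ := eq_neg_of_add_eq_zero_left h7
      rw [h8, map_neg, hgρ]
  · intro g hg hgr m ρ hρ
    have hρ0 : ρ ≠ 0 := by
      rintro rfl
      apply hun
      rw [← hρ, zero_pow (by positivity)]
    have h6 : (g ρ / ρ) ^ 2 ^ m = 1 := by
      rw [div_pow, ← map_pow, hρ, hfix, div_self hun]
    refine ⟨g ρ / ρ, ?_, (div_mul_cancel₀ _ hρ0).symm, h6, ?_⟩
    · apply c5 _ (2 ^ m) Nat.one_le_two_pow
      rw [h6]
      exact c1
    · intro hm
      obtain ⟨m', rfl⟩ : ∃ m', m = m' + 1 := ⟨m - 1, by omega⟩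
      rw [Nat.add_sub_cancel]
      have h7 : (ρ ^ 2 ^ m') ^ 2 = unK w v := by
        rw [← pow_mul, ← pow_succ, hρ]
      have h8 := hgr _ h7
      rw [map_pow] at h8
      rw [div_pow, h8, neg_div, div_self (pow_ne_zero _ hρ0)]

end Pool.Agent.MP72S.D
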