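import Pool.Agent.Lib.MP_72e2e6_nt.W2.C.Av
import Pool.Agent.Lib.MP_72e2e6_nt.Sm.D.Cs
import Pool.Agent.Lib.MP_72e2e6_nt.Sm.D.Fb
import Pool.Agent.Lib.MP_72e2e6_nt.Sm.D.Fg
import Pool.Agent.Lib.MP_72e2e6_nt.Sm.D.Fi
import Pool.Agent.Lib.MP_72e2e6_nt.Sm.D.Fx
import Pool.Agent.Lib.MP_72e2e6_nt.Sm.D.Kk
import Pool.Agent.Lib.MP_72e2e6_nt.Sm.D.Kl
import Pool.Agent.Lib.MP_72e2e6_nt.Sm.D.Km
import Pool.Agent.Lib.MP_72e2e6_nt.Sm.D.Kt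
import Pool.Agent.Lib.MP_72e2e6_nt.Sm.D.Lc
import Pool.Agent.Lib.MP_72e2e6_nt.Sm.D.Lf
import Pool.Agent.Lib.MP_72e2e6_nt.Sm.D.Ln
import Pool.Agent.Lib.MP_72e2e6_nt.Sm.D.Lo
import Pool.Agent.Lib.MP_72e2e6_nt.Sm.D.Nn
import Pool.Agent.Lib.MP_72e2e6_nt.Sm.D.Pc
import Pool.Agent.Lib.MP_72e2e6_nt.Sm.D.Pr
import Pool.Agent.Lib.MP_72e2e6_nt.Sm.D.QG
import Pool.Agent.Lib.MP_72e2e6_nt.Sm.D.QT
import Pool.Agent.Lib.MP_72e2e6_nt.Sm.D.Qd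
import Pool.Agent.Lib.MP_72e2e6_nt.Sm.D.Re
import Pool.Agent.Lib.MP_72e2e6_nt.Sm.D.Ro
import Pool.Agent.Lib.MP_72e2e6_nt.Sm.D.Rq
import Pool.Agent.Lib.MP_72e2e6_nt.Sm.D.Rt
import Pool.Agent.Lib.MP_72e2e6_nt.Sm.D.Trl
import Pool.Agent.Lib.MP_72e2e6_nt.Sm.D.Tsq
import Pool.Agent.Lib.MP_72e2e6_nt.Sm.D.Tst
import Pool.Agent.Lib.MP_72e2e6_nt.Sm.D.Un
import Pool.Agent.Lib.MP_72e2e6_nt.Sm.D.Zt

/-!
# MP_72e2e6_nt, Sm, block D: assembly of the modules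
-/

namespace Pool.Agent.MP72S.D

theorem aCs : S_Cs :=
  tCs

theorem aLc : S_Lc :=
  tLc

theorem aLn : S_Ln :=
  tLn aLc

theorem aNn : S_Nn :=
  tNn aLc aLn aCs

theorem aFb : S_Fb :=
  tFb aLn aCs aNn

theorem aFg : S_Fg :=
  tFg aCs

theorem aLf : S_Lf :=
  tLf

theorem aQG : S_QG :=
  tQG aCs

theorem aRt : S_Rt :=
  tRt aLn aCs

theorem aRe : S_Re :=
  tRe

theorem aZt : S_Zt :=
  tZt aLf aLc aLn aCs aNn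

theorem aTrl : S_Trl :=
  tTrl aCs aZt

theorem aTst : S_Tst :=
  tTst aLf aLc aLn aCs aNn

theorem aTsq : S_Tsq :=
  tTsq aLf aLn aCs aRt aTst

theorem aQT : S_QT :=
  tQT aFg aTsq aQG

theorem aRq : S_Rq :=
  tRq aRe aFg aQG aTrl aQT

theorem aKt : S_Kt :=
  tKt aQG

theorem aFi : S_Fi :=
  tFi aLf aLc aLn aCs aNn aFg aQG aRt aRq aKt

theorem aFx : S_Fx :=
  tFx aQG

theorem aKk : S_Kk :=
  tKk aCs aFg aQG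

theorem aKm : S_Km :=
  tKm aQG aKt

theorem aKl : S_Kl :=
  tKl aLf aLc aLn aCs aNn aFg aQG aRt aRq aKm

theorem aLo : S_Lo :=
  tLo MP72W.tAv aLf aFb aZt

theorem aPc : S_Pc :=
  tPc aLf aLc aLn aCs aFg aRt aZt aTst aQT aRq aKk

theorem aPr : S_Pr :=
  tPr aKk aQG

theorem aRo : S_Ro :=
  tRo aLf aLc aLn aCs aFg aKk

theorem aUn : S_Un :=
  tUn aLf aLc aLn aCs aFg aRt aZt aRq aKk aRo

theorem aQd : S_Qd :=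
  tQd aRq aKk aFx aPr aKt aRo aUn aQG

end Pool.Agent.MP72S.D
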