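import Pool.Agent.Lib.MP_72e2e6_nt.Sm.D.Spec

/-!
# MP_72e2e6_nt, `Sm`, block D: helper lemmas on ultrametric norms and constants
(used in `Tst`, `Pc`, `Un`, `Fi`, `Kl`, `Ro`)
-/

namespace Pool.Agent.MP72S.D.Hp

open Polynomial IntermediateField Pool.Agent.MP72W

/-- Multiplicative ultrametric norms. -/
structure Nrm {L : Type} [Field L] (n : L → ℝ) : Prop where
  nn : ∀ x, 0 ≤ n x
  z : ∀ x, n x = 0 ↔ x = 0
  mul : ∀ x y, n (x * y) = n x * n y
  add : ∀ x y, n (x + y) ≤ max (n x) (n y)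

namespace Nrm

variable {L : Type} [Field L] {n : L → ℝ}

theorem zero (h : Nrm n) : n 0 = 0 := (h.z 0).2 rfl

theorem pos (h : Nrm n) {x : L} (hx : x ≠ 0) : 0 < n x :=
  lt_of_le_of_ne (h.nn x) (fun h1 => hx ((h.z x).1 h1.symm))

theorem one (h : Nrm n) : n 1 = 1 := by
  have h1 := h.mul 1 1
  rw [mul_one] at h1
  have h2 : n 1 ≠ 0 := (h.pos one_ne_zero).ne'
  exact (mul_right_cancel₀ h2 (by rw [one_mul]; exact h1)).symm

theorem neg (h : Nrm n) (x : L) : n (-x) = n x := by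
  have h1 := h.mul (-1) (-1)
  rw [neg_mul_neg, one_mul, h.one] at h1
  have h2 : n (-1) = 1 := by
    nlinarith [h.nn (-1)]
  rw [← neg_one_mul, h.mul, h2, one_mul]

theorem sub (h : Nrm n) (x y : L) : n (x - y) ≤ max (n x) (n y) := by
  rw [sub_eq_add_neg, ← h.neg y]
  exact h.add _ _

theorem sub_comm (h : Nrm n) (x y : L) : n (x - y) = n (y - x) := by
  rw [← h.neg, neg_sub]

theorem inv (h : Nrm n) (x : L) : n x⁻¹ = (n x)⁻¹ := by
  by_cases hx : x = 0
  · rw [hx, inv_zero, h.zero, inv_zero]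
  · have h1 := h.mul x x⁻¹
    rw [mul_inv_cancel₀ hx, h.one] at h1
    exact eq_inv_of_mul_eq_one_right h1.symm

theorem div (h : Nrm n) (x y : L) : n (x / y) = n x / n y := by
  rw [div_eq_mul_inv, h.mul, h.inv, div_eq_mul_inv]

theorem pow (h : Nrm n) (x : L) (k : ℕ) : n (x ^ k) = n x ^ k := by
  induction k with
  | zero => rw [pow_zero, pow_zero, h.one]
  | succ k ih => rw [pow_succ, pow_succ, h.mul, ih]

theorem zpow (h : Nrm n) (x : L) (k : ℤ) : n (x ^ k) = n x ^ k := by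
  cases k with
  | ofNat k => rw [Int.ofNat_eq_natCast, zpow_natCast, zpow_natCast, h.pow]
  | negSucc k => rw [zpow_negSucc, zpow_negSucc, h.inv, h.pow]

/-- The ultrametric inequality for bounds. -/
theorem add_lt (h : Nrm n) {x y : L} {c : ℝ} (hx : n x < c) (hy : n y < c) : n (x + y) < c :=
  lt_of_le_of_lt (h.add x y) (max_lt hx hy)

theorem add_le (h : Nrm n) {x y : L} {c : ℝ} (hx : n x ≤ c) (hy : n y ≤ c) : n (x + y) ≤ c :=
  (h.add x y).trans (max_le hx hy)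

theorem sub_lt (h : Nrm n) {x y : L} {c : ℝ} (hx : n x < c) (hy : n y < c) : n (x - y) < c :=
  lt_of_le_of_lt (h.sub x y) (max_lt hx hy)

theorem sub_le (h : Nrm n) {x y : L} {c : ℝ} (hx : n x ≤ c) (hy : n y ≤ c) : n (x - y) ≤ c :=
  (h.sub x y).trans (max_le hx hy)

/-- The dominating summand. -/
theorem dom (h : Nrm n) {x y : L} (hy : n y < n x) : n (x + y) = n x := by
  refine le_antisymm ((h.add x y).trans (max_le le_rfl hy.le)) ?_
  by_contra hcon
  push Not at hcon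
  have h1 := h.sub_lt hcon hy
  rw [add_sub_cancel_right] at h1
  exact lt_irrefl _ h1

theorem one_add (h : Nrm n) {y : L} (hy : n y < 1) : n (1 + y) = 1 := by
  have h1 := h.dom (x := 1) (y := y) (by rw [h.one]; exact hy)
  rw [h1, h.one]

theorem one_add_ne (h : Nrm n) {y : L} (hy : n y < 1) : 1 + y ≠ 0 := by
  intro h1
  have h2 := h.one_add hy
  rw [h1, h.zero] at h2
  exact zero_ne_one h2

theorem sum_lt (h : Nrm n) {ι : Type} (s : Finset ι) (f : ι → L) {c : ℝ} (hc : 0 < c)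
    (hf : ∀ i ∈ s, n (f i) < c) : n (∑ i ∈ s, f i) < c := by
  classical
  induction s using Finset.induction_on with
  | empty => rw [Finset.sum_empty, h.zero]; exact hc
  | insert i s his ih =>
    rw [Finset.sum_insert his]
    exact h.add_lt (hf i (Finset.mem_insert_self i s))
      (ih fun j hj => hf j (Finset.mem_insert_of_mem hj))

theorem sum_le (h : Nrm n) {ι : Type} (s : Finset ι) (f : ι → L) {c : ℝ} (hc : 0 ≤ c)
    (hf : ∀ i ∈ s, n (f i) ≤ c) : n (∑ i ∈ s, f i) ≤ c := by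
  classical
  induction s using Finset.induction_on with
  | empty => rw [Finset.sum_empty, h.zero]; exact hc
  | insert i s his ih =>
    rw [Finset.sum_insert his]
    exact h.add_le (hf i (Finset.mem_insert_self i s))
      (ih fun j hj => hf j (Finset.mem_insert_of_mem hj))

theorem prod (h : Nrm n) {ι : Type} (s : Finset ι) (f : ι → L) :
    n (∏ i ∈ s, f i) = ∏ i ∈ s, n (f i) := by
  classical
  induction s using Finset.induction_on with
  | empty => rw [Finset.prod_empty, Finset.prod_empty, h.one]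
  | insert i s his ih => rw [Finset.prod_insert his, Finset.prod_insert his, h.mul, ih]

/-- `(1 + y) (1 + y') = 1 + y''`. -/
theorem one_mul_lt (h : Nrm n) {y y' : L} (hy : n y < 1) (hy' : n y' < 1) :
    n ((1 + y) * (1 + y') - 1) < 1 := by
  have h1 : (1 + y) * (1 + y') - 1 = y * (1 + y') + y' := by ring
  rw [h1]
  refine h.add_lt ?_ hy'
  rw [h.mul, h.one_add hy', mul_one]
  exact hy

/-- If a power has norm less than one, so has the element. -/
theorem lt_one_of_pow (h : Nrm n) {x : L} {k : ℕ} (hx : n x ^ k < 1) : n x < 1 := by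
  by_contra hcon
  push Not at hcon
  exact absurd (one_le_pow₀ hcon) (not_le.2 hx)

theorem eq_one_of_pow (h : Nrm n) {x : L} {k : ℕ} (hk : k ≠ 0) (hx : n x ^ k = 1) : n x = 1 :=
  (pow_eq_one_iff_of_nonneg (h.nn x) hk).1 hx

/-- One of `x - 1`, `x + 1` is small if `x ^ 2` is near to `1`. -/
theorem near (h : Nrm n) {x y : L} (hxy : n (x ^ 2 - y ^ 2) < 1) : n (x - y) < 1 ∨ n (x + y) < 1 := by
  by_contra hcon
  push Not at hcon
  obtain ⟨h1, h2⟩ := hcon
  have h3 : x ^ 2 - y ^ 2 = (x - y) * (x + y) := by ring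
  rw [h3, h.mul] at hxy
  nlinarith

end Nrm

/-- The properties of the constants. -/
structure Cc (q : ℕ) (L : Type) [Field L] : Prop where
  zero : (0 : L) ∈ Cst q L
  one : (1 : L) ∈ Cst q L
  add : ∀ x ∈ Cst q L, ∀ y ∈ Cst q L, x + y ∈ Cst q L
  mul : ∀ x ∈ Cst q L, ∀ y ∈ Cst q L, x * y ∈ Cst q L
  neg : ∀ x ∈ Cst q L, -x ∈ Cst q L
  inv : ∀ x ∈ Cst q L, x⁻¹ ∈ Cst q L
  root : ∀ (x : L) (m : ℕ), 1 ≤ m → x ^ m ∈ Cst q L → x ∈ Cst q L
  ncard : ∀ n, 1 ≤ n → {x : L | x ^ q ^ n = x}.ncard = q ^ n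
  poly : ∀ f : Polynomial L, f.Monic → (∀ i, f.coeff i ∈ Cst q L) → ∀ x, f.eval x = 0 → x ∈ Cst q L

theorem Cc.sub {q : ℕ} {L : Type} [Field L] (h : Cc q L) {x y : L} (hx : x ∈ Cst q L)
    (hy : y ∈ Cst q L) : x - y ∈ Cst q L := by
  rw [sub_eq_add_neg]
  exact h.add _ hx _ (h.neg _ hy)

theorem Cc.pow {q : ℕ} {L : Type} [Field L] (h : Cc q L) {x : L} (hx : x ∈ Cst q L) (k : ℕ) :
    x ^ k ∈ Cst q L := by
  induction k with
  | zero => rw [pow_zero]; exact h.one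
  | succ k ih => rw [pow_succ]; exact h.mul _ ih _ hx

theorem Cc.zpow {q : ℕ} {L : Type} [Field L] (h : Cc q L) {x : L} (hx : x ∈ Cst q L) (k : ℤ) :
    x ^ k ∈ Cst q L := by
  cases k with
  | ofNat k => rw [Int.ofNat_eq_natCast, zpow_natCast]; exact h.pow hx k
  | negSucc k => rw [zpow_negSucc]; exact h.inv _ (h.pow hx _)

/-- The constants of an extension. -/
theorem cc_of (h : S_Cs) (F : Type) [Field F] [Finite F] (L : Type) [Field L] [IsSepClosed L]
    (f : F →+* L) : Cc (Nat.card F) L := by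
  have : Fintype F := Fintype.ofFinite F
  obtain ⟨p, hp, k, hk, hc⟩ := FiniteField.card' F
  have : Fact p.Prime := ⟨hk⟩
  have : CharP L p := charP_of_injective_ringHom f.injective p
  obtain ⟨c1, c2, c3, c4, c5, c6, c7⟩ := h p (Nat.card F) k k.pos
    (by rw [Nat.card_eq_fintype_card, hc]) L
  exact ⟨c1, c2, fun x hx y hy => (c3 x hx y hy).1, fun x hx y hy => (c3 x hx y hy).2,
    fun x hx => (c4 x hx).1, fun x hx => (c4 x hx).2, c5, c6, c7⟩

/-- The embedding of `F` in `Kvs v`. -/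
noncomputable def fv (F : Type) [Field F] (v : AbsoluteValue (RatFunc F) ℝ) : F →+* Kvs v :=
  (algebraMap v.Completion (Kvs v)).comp ((algebraMap (RatFunc F) v.Completion).comp RatFunc.C)

/-- The embedding of `F` in `Kgs F`. -/
noncomputable def fg (F : Type) [Field F] : F →+* Kgs F :=
  (algebraMap (RatFunc F) (Kgs F)).comp RatFunc.C

/-- The properties of the norm at a place. -/
structure Cx {F : Type} [Field F] (w : Option F[X]) (v : AbsoluteValue (RatFunc F) ℝ) : Prop where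
  nr : Nrm (nm v)
  alg : ∀ x : RatFunc F, nm v (algebraMap v.Completion (Kvs v) (algebraMap _ _ x)) = v x
  inv : ∀ (g : Gal(Kvs v/v.Completion)) (x : Kvs v), nm v (g x) = nm v x
  cst : ∀ x ∈ Cst (Nat.card F) (Kvs v), x ≠ 0 → nm v x = 1
  un : nm v (unK w v) = 1 / 2
  lf : ∃ R, LF v (dgP w) (unP w) R
  hv : v (unP w) = 1 / 2

theorem cx_of (h1 : S_Lf) (h2 : S_Lc) (h3 : S_Ln) (F : Type) [Field F] [Finite F]
    (w : Option F[X]) (v : AbsoluteValue (RatFunc F) ℝ) (hw : IsPl w v) : Cx w v := by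
  obtain ⟨⟨R, hR⟩, hv⟩ := h1 F w v hw
  obtain ⟨c1, -⟩ := h2 F v _ _ R hR
  obtain ⟨n1, n2, n3, n4, n5, n6, n7, n8⟩ := h3 F v _ _ R hR
  have ha : ∀ x : RatFunc F,
      nm v (algebraMap v.Completion (Kvs v) (algebraMap _ _ x)) = v x := fun x => by rw [n5, c1]
  exact ⟨⟨n1, n2, n3, n4⟩, ha, n6, n7, by rw [unK, ha, hv], ⟨R, hR⟩, hv⟩

theorem two_ne {F : Type} [Field F] (h2 : (2 : F) ≠ 0) {L : Type} [Field L] (f : F →+* L) :
    (2 : L) ≠ 0 := by
  intro h
  apply h2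
  apply f.injective
  rw [map_ofNat, map_zero, h]

/-- Roots of order `2 ^ m`. -/
theorem ex_root {L : Type} [Field L] [IsSepClosed L] (h2 : (2 : L) ≠ 0) (x : L) (m : ℕ) :
    ∃ z, z ^ 2 ^ m = x := by
  have : NeZero ((2 ^ m : ℕ) : L) := ⟨by
    rw [Nat.cast_pow, Nat.cast_ofNat]
    exact pow_ne_zero _ h2⟩
  exact IsSepClosed.exists_pow_nat_eq x (2 ^ m)

/-- Constants at a distance less than one are equal. -/
theorem Cx.eq_of {F : Type} [Field F] {w : Option F[X]} {v : AbsoluteValue (RatFunc F) ℝ}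
    (h : Cx w v) (hc : Cc (Nat.card F) (Kvs v)) {x y : Kvs v} (hx : x ∈ Cst (Nat.card F) (Kvs v))
    (hy : y ∈ Cst (Nat.card F) (Kvs v)) (hxy : nm v (x - y) < 1) : x = y := by
  by_contra hne
  have h1 := h.cst _ (hc.sub hx hy) (sub_ne_zero.2 hne)
  rw [h1] at hxy
  exact lt_irrefl _ hxy

theorem Cx.cst_le {F : Type} [Field F] {w : Option F[X]} {v : AbsoluteValue (RatFunc F) ℝ}
    (h : Cx w v) {x : Kvs v} (hx : x ∈ Cst (Nat.card F) (Kvs v)) : nm v x ≤ 1 := by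
  by_cases hx0 : x = 0
  · rw [hx0, h.nr.zero]
    exact zero_le_one
  · exact (h.cst x hx hx0).le

theorem Cx.un_ne {F : Type} [Field F] {w : Option F[X]} {v : AbsoluteValue (RatFunc F) ℝ}
    (h : Cx w v) : unK w v ≠ 0 := by
  intro h0
  have h1 := h.un
  rw [h0, h.nr.zero] at h1
  norm_num at h1

/-- Roots of unity of order `2 ^ m` are constants. -/
theorem cst_of_pow_one {q : ℕ} {L : Type} [Field L] (hc : Cc q L) {z : L} {m : ℕ}
    (hz : z ^ 2 ^ m = 1) : z ∈ Cst q L :=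
  hc.root z (2 ^ m) (Nat.one_le_two_pow) (by rw [hz]; exact hc.one)

/-! ### the embedding of `Qf F` -/

section

variable {F : Type} [Field F]

theorem eQ_alg (A : Lcd F) (x : RatFunc F) : A.eQ (algebraMap (RatFunc F) (Qf F) x) =
    algebraMap A.av.Completion (Kvs A.av) (algebraMap (RatFunc F) A.av.Completion x) :=
  (A.eQ.commutes x).trans (IsScalarTower.algebraMap_apply _ _ _ _)

theorem cst_Qf {c : Kgs F} (hc : c ∈ Cst (Nat.card F) (Kgs F)) : c ∈ Qf F := by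
  rw [Qf, IntermediateField.mem_sInf]
  exact fun L hL => hL.1 c hc

theorem eQ_cst [Finite F] (h : S_Fg) (A : Lcd F) {c : Qf F}
    (hc : (c : Kgs F) ∈ Cst (Nat.card F) (Kgs F)) : A.eQ c ∈ Cst (Nat.card F) (Kvs A.av) :=
  ((h F).2.1 (Kvs A.av) A.emb).1 _ hc

theorem ex_cst [Finite F] (h : S_Fg) (A : Lcd F) {c' : Kvs A.av}
    (hc : c' ∈ Cst (Nat.card F) (Kvs A.av)) :
    ∃ c : Qf F, (c : Kgs F) ∈ Cst (Nat.card F) (Kgs F) ∧ A.eQ c = c' := by
  obtain ⟨c, h1, h2⟩ := ((h F).2.1 (Kvs A.av) A.emb).2 _ hc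
  exact ⟨⟨c, cst_Qf h1⟩, h1, h2⟩

theorem eQ_kF [Finite F] (h : S_Fg) (hk : S_Kk) (A : Lcd F) (c : kF F) :
    A.eQ (c : Qf F) ∈ Cst (Nat.card F) (Kvs A.av) :=
  eQ_cst h A (((hk F).2.1 _).1 c.2)

theorem ex_kF [Finite F] (h : S_Fg) (hk : S_Kk) (A : Lcd F) {c' : Kvs A.av}
    (hc : c' ∈ Cst (Nat.card F) (Kvs A.av)) : ∃ c : kF F, A.eQ (c : Qf F) = c' := by
  obtain ⟨c, h1, h2⟩ := ex_cst h A hc
  exact ⟨⟨c, ((hk F).2.1 _).2 h1⟩, h2⟩

theorem eQ_inj (A : Lcd F) {x y : Qf F} (h : A.eQ x = A.eQ y) : x = y :=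
  A.eQ.toRingHom.injective h

theorem aeval_tQ (P : F[X]) :
    aeval (tQ F) P = algebraMap (RatFunc F) (Qf F) (algebraMap F[X] (RatFunc F) P) := by
  have h1 : aeval (algebraMap (RatFunc F) (Qf F) RatFunc.X) P =
      algebraMap (RatFunc F) (Qf F) (aeval (RatFunc.X : RatFunc F) P) :=
    aeval_algebraMap_apply (Qf F) (RatFunc.X : RatFunc F) P
  rw [tQ, h1, RatFunc.aeval_X_left_eq_algebraMap]

end

end Pool.Agent.MP72S.D.Hp
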