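import Pool.Agent.Lib.MP_72e2e6_nt.Sm.D.Defs

/-!
# MP_72e2e6_nt, `Sm`, block D: the quadratic closure of `F̄(t)`, places, inertia and Frobenius

The proofs are complete in the docstrings; every module is independent (used statements are
hypotheses): file `Sm/D/<Name>.lean` (import this file only) with `theorem t<Name> : S_<Name>` or
`theorem t<Name> (h1 : S_X) (h2 : S_Y) .. : S_<Name>` (the used statements in the order of the
docstring), namespace `Pool.Agent.MP72S.D`, other declarations `private`. `F` is a finite field with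
`q` elements, `K = F(t)`, `p` its characteristic. Many modules are copies of modules in `W2/C` (there
for characteristic two): `(a + b) ^ Q = a ^ Q + b ^ Q` for powers `Q` of `p`.
-/

namespace Pool.Agent.MP72S.D

open Polynomial IntermediateField Pool.Agent.MP72W

/-- **Lf** (300 lines; copy of `W2/C/LfP.lean`, `W2/C/LfI.lean`). The properties `LF` for all places, and
the value of the uniformizer.

Proof. Finite place `w = some P`: for `f = a / b` we have `v f = 2 ^ (m(b) - m(a))`, `m` the multiplicity of `P`; `na`: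
`m(a + b) ≥ min`. `cov`: let `v f ≤ 1`, `f = a / b` with `a, b` coprime; then `P ∤ b`; let `b b' ≡ 1`
modulo `P` and `r` the remainder of `a b'` modulo `P`; `f - r = (a - r b) / b` and `P ∣ a - r b`.
`frob`: `f = r + g` with `r` as before, `v g < 1`; `f ^ Q - f = (r ^ Q - r) + (g ^ Q - g)` (`Q = q ^ d` is a
power of `p`) and `P ∣ r ^ Q - r` since `F[X] ⧸ (P)` is a field with `Q` elements. `sep`: `P` does not
divide a nonzero polynomial of degree less than `d`. `card`: `q ^ d` polynomials. `one`: `P ∤ c`.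
Infinity: `v f = 2 ^ intDegree f`. `cov`: if `v f ≤ 1`, `f = a / b ≠ 0` with `deg a ≤ deg b`, let `c` be the
quotient of the leading coefficients if `deg a = deg b` and `0` otherwise; `deg (a - c b) < deg b`.
`frob`: `f = c + g`, `c ^ q = c`. The modules `W2/C/LfP.lean` and `W2/C/LfI.lean` contain all this for
characteristic two; only the identity `(a + b) ^ Q = a ^ Q + b ^ Q` uses the characteristic. The last
statement: the multiplicity of `P` in `P` is `1`; `intDegree X⁻¹ = -1`. -/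
def S_Lf : Prop :=
  ∀ (F : Type) [Field F] [Finite F] (w : Option F[X]) (v : AbsoluteValue (RatFunc F) ℝ),
    IsPl w v → (∃ R, LF v (dgP w) (unP w) R) ∧ v (unP w) = 1 / 2

/-- **Lc** (150 lines; copy of a part of `W2/C/Lc1.lean`). The completion.

Proof. (1) The norm extends `v` (`UniformSpace.Completion.norm_coe`, `WithAbs`). (2) dense image of
`K`. (3) by density (2) and (1) (the strong triangle inequality is a closed condition). (4) For
`x ≠ 0` take `y ∈ K` with `‖x - y‖ < ‖x‖`; then `‖x‖ = ‖y‖ = v y`. (5) Take `y ∈ K` with `‖x - y‖ < 1`;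
`v y ≤ 1`; use `LF.cov`. (6) the same with `LF.frob` and `(x - y) ^ Q`. (7) `c = lim x ^ (Q ^ k)`: the
sequence is Cauchy since `x ^ (Q ^ (k + 1)) - x ^ (Q ^ k) = (x ^ Q - x) ^ (Q ^ k)` and
`‖x ^ Q - x‖ < 1`; `c ^ Q = c` by continuity, and `‖c - x‖ < 1` (all the differences have norm at most
`‖x ^ Q - x‖`). -/
def S_Lc : Prop :=
  ∀ (F : Type) [Field F] [Finite F] (v : AbsoluteValue (RatFunc F) ℝ) (d : ℕ)
    (ϖ : RatFunc F) (R : Finset (RatFunc F)), LF v d ϖ R →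
    (∀ x : RatFunc F, ‖algebraMap (RatFunc F) v.Completion x‖ = v x) ∧
    (∀ (x : v.Completion) (ε : ℝ), 0 < ε → ∃ y : RatFunc F, ‖x - algebraMap _ _ y‖ < ε) ∧
    IsUltrametricDist v.Completion ∧
    (∀ x : v.Completion, x ≠ 0 → ∃ n : ℤ, ‖x‖ = v ϖ ^ n) ∧
    (∀ x : v.Completion, ‖x‖ ≤ 1 → ∃ r ∈ R, ‖x - algebraMap _ _ r‖ < 1) ∧
    (∀ x : v.Completion, ‖x‖ ≤ 1 → ‖x ^ (Nat.card F ^ d) - x‖ < 1) ∧
    ∀ x : v.Completion, ‖x‖ ≤ 1 → ∃ c : v.Completion, c ^ (Nat.card F ^ d) = c ∧ ‖x - c‖ < 1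

/-- **Ln** (120 lines; copy of a part of `W2/C/Lc2.lean`; uses `S_Lc`). The spectral norm on the
separable closure.

Proof. (1) to (7) as in `W2/C/Lc2.lean`: by `S_Lc` the completion is a complete ultrametric normed
field with a nontrivial norm, so `spectralNorm` is a multiplicative nonarchimedean norm extending
the norm, invariant under automorphisms; for `c ≠ 0` with `c ^ (q ^ n) = c` we get
`nm c ^ (q ^ n) = nm c`, so `nm c = 1`. (8) `2 ≠ 0` in `Kvs v` and `nm (1 + y) = 1`, so `1 + y ≠ 0` and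
`X ^ 2 - (1 + y)` is separable; it has a root `s`, `(s - 1) (s + 1) = y`, so `nm (s - 1) < 1` or
`nm (s + 1) < 1`; replace `s` by `-s` in the second case. -/
def S_Ln : Prop :=
  ∀ (F : Type) [Field F] [Finite F] (v : AbsoluteValue (RatFunc F) ℝ) (d : ℕ)
    (ϖ : RatFunc F) (R : Finset (RatFunc F)), LF v d ϖ R →
    (∀ x : Kvs v, 0 ≤ nm v x) ∧ (∀ x : Kvs v, nm v x = 0 ↔ x = 0) ∧
    (∀ x y : Kvs v, nm v (x * y) = nm v x * nm v y) ∧
    (∀ x y : Kvs v, nm v (x + y) ≤ max (nm v x) (nm v y)) ∧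
    (∀ x : v.Completion, nm v (algebraMap v.Completion (Kvs v) x) = ‖x‖) ∧
    (∀ (g : Gal(Kvs v/v.Completion)) (x : Kvs v), nm v (g x) = nm v x) ∧
    (∀ x ∈ Cst (Nat.card F) (Kvs v), x ≠ 0 → nm v x = 1) ∧
    ((2 : F) ≠ 0 → ∀ y : Kvs v, nm v y < 1 → ∃ s : Kvs v, s ^ 2 = 1 + y ∧ nm v (s - 1) < 1)

/-- **Cs** (150 lines; see `W2/C/Cst.lean`). The constants form a subfield which is algebraically
closed in `L`.

Proof. If `x ^ (q ^ n) = x`, then `x ^ (q ^ (n k)) = x` for all `k ≥ 1`; for two elements use the exponent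
`n n'`; sums, products, negatives and inverses are clear (`add_pow_char_pow`). For `n ≥ 1` the set of
the `x` with `x ^ (q ^ n) = x` has `q ^ n` elements (`X ^ (q ^ n) - X` is separable, `L` separably closed).
Roots: let `f` be monic with constant coefficients; there is `n ≥ 1` with `c ^ (q ^ n) = c` for all the
coefficients; `F' = {c | c ^ (q ^ n) = c}` is a finite subfield of `L` and `x` is integral over `F'`, so
`F'[x]` is a finite integral domain (finitely generated as a module over the finite ring `F'`), so a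
finite field with `(q ^ n) ^ N` elements, `N ≥ 1`, and `x ^ (q ^ (n N)) = x` (`FiniteField.pow_card`). The
statement on `x ^ m` is the case `f = X ^ m - x ^ m`. -/
def S_Cs : Prop :=
  ∀ (p q r : ℕ) [Fact p.Prime], 1 ≤ r → q = p ^ r →
    ∀ (L : Type) [Field L] [CharP L p] [IsSepClosed L],
    (0 : L) ∈ Cst q L ∧ (1 : L) ∈ Cst q L ∧
    (∀ x ∈ Cst q L, ∀ y ∈ Cst q L, x + y ∈ Cst q L ∧ x * y ∈ Cst q L) ∧
    (∀ x ∈ Cst q L, -x ∈ Cst q L ∧ x⁻¹ ∈ Cst q L) ∧
    (∀ (x : L) (m : ℕ), 1 ≤ m → x ^ m ∈ Cst q L → x ∈ Cst q L) ∧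
    (∀ n, 1 ≤ n → {x : L | x ^ q ^ n = x}.ncard = q ^ n) ∧
    ∀ f : Polynomial L, f.Monic → (∀ i, f.coeff i ∈ Cst q L) → ∀ x, f.eval x = 0 → x ∈ Cst q L

/-- **Nn** (250 lines; copy of a part of `W2/C/Nr.lean`; uses `S_Lc`, `S_Ln`, `S_Cs`). The maximal
unramified extension.

Proof. Let `Q = q ^ d`, `κ = {x ∈ K_v | x ^ Q = x}`. (0) `κ = K_v ∩ Cst`: if `x ∈ K_v` and
`x ^ (q ^ n) = x` then `‖x‖ ≤ 1`, `‖x ^ Q - x‖ < 1` (`S_Lc` (6)) and `x ^ Q - x` is a constant, so it is `0`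
(`S_Ln` (7)). This is (5). For `n` divisible by `d` let `F_n = {x | x ^ (q ^ n) = x} ⊂ Kvs`, a finite
field containing (the image of) `κ`, and `c_1, ..., c_m` a basis of `F_n` over `κ`. The set
`T = {∑ x_i c_i | x_i ∈ K_v}` is a subring (products of the `c_i` are combinations with coefficients in
`κ`), it contains `K_v` (`1` is a combination) and `F_n`; it is an integral domain, finite over `K_v`, so a
field, and equal to `K_v(F_n)`. `Knr` is the union of the `K_v(F_n)` (`d ∣ n`; they are directed: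
`F_n, F_m ⊂ F_{nm}`).
Claim: `nm (∑ x_i c_i) = max ‖x_i‖`. We may assume that the maximum is `1` (multiply by an element of
`K_v`; if all `x_i` are `0` it is clear). By `S_Lc` (7) let `r_i ∈ κ` with `‖x_i - r_i‖ < 1`. Not all `r_i`
are `0`, so `∑ r_i c_i` is a nonzero element of `F_n` with norm `1`, and
`nm (∑ (x_i - r_i) c_i) < 1`; so the norm is `1`.
(1) follows from the claim and `S_Lc` (4). (2): if the norm is at most `1`, all `‖x_i‖ ≤ 1`, and
`c = ∑ r_i c_i` with `r_i` as before. (3) clear. (4) `g` fixes `Knr` iff it fixes `Cst` (adjoin). -/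
def S_Nn : Prop :=
  ∀ (F : Type) [Field F] [Finite F] (v : AbsoluteValue (RatFunc F) ℝ) (d : ℕ)
    (ϖ : RatFunc F) (R : Finset (RatFunc F)), LF v d ϖ R →
    (∀ x ∈ Knr v, x ≠ 0 → ∃ n : ℤ, nm v x = v ϖ ^ n) ∧
    (∀ x ∈ Knr v, nm v x ≤ 1 → ∃ c ∈ Cst (Nat.card F) (Kvs v), nm v (x - c) < 1) ∧
    (∀ x ∈ Cst (Nat.card F) (Kvs v), x ∈ Knr v) ∧
    (∀ g : Gal(Kvs v/v.Completion), IsGeo (Nat.card F) g ↔ ∀ x ∈ Knr v, g x = x) ∧
    ∀ x : v.Completion, algebraMap v.Completion (Kvs v) x ∈ Cst (Nat.card F) (Kvs v) →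
      x ^ (Nat.card F ^ d) = x

/-- **Fb** (200 lines; copy of a part of `W2/C/Fr.lean`; uses `S_Ln`, `S_Cs`, `S_Nn`). Local Frobenius
elements exist.

Proof. `Q = q ^ d`. For `n ≥ 1` let `F_n = {x | x ^ (q ^ n) = x}`, a finite field stable under
`G_v = Gal(Kvs/K_v)`, and `c` a generator of its multiplicative group. Let `R_n = {g c | g ∈ G_v} ⊂ F_n`.
The coefficients of `∏_{x ∈ R_n} (X - x)` are fixed by `G_v`, so in `K_v`, and constants, so fixed by
`y ↦ y ^ Q` (`S_Nn` (5)). So `x ↦ x ^ Q` maps the roots to the roots, and `c ^ Q = g c` for some `g`; then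
`g x = x ^ Q` for all `x ∈ F_n` (powers of `c`, and `0`). The sets
`C_n = {g | ∀ x ∈ F_n, g x = x ^ Q}` are closed in the compact group `G_v`, nonempty, and
`C_{nm} ⊂ C_n ∩ C_m`; so their intersection is not empty. -/
def S_Fb : Prop :=
  ∀ (F : Type) [Field F] [Finite F] (v : AbsoluteValue (RatFunc F) ℝ) (d : ℕ)
    (ϖ : RatFunc F) (R : Finset (RatFunc F)), LF v d ϖ R →
    ∃ g : Gal(Kvs v/v.Completion), IsFro (Nat.card F) (Nat.card F ^ d) g

/-- **Fg** (200 lines; see `W2/C/FrG.lean`; uses `S_Cs`). The global constants.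

Proof. (1) Let `x ∈ K`, `x ^ (q ^ n) = x`, `x = a / b` in lowest terms; `a ^ (q ^ n) * b = a * b ^ (q ^ n)`,
so for `x ≠ 0` `a ^ (q ^ n - 1) = b ^ (q ^ n - 1)`, and `a, b` are units (coprime); so `x = C c`.
(2) `ι c` is a constant if `c` is. Conversely for `n ≥ 1` the `q ^ n` roots of `X ^ (q ^ n) - X` in `K^s` are
mapped injectively to roots in `L`, which has at most `q ^ n` roots, so they are all of them. (3) A
constant is a root of `X ^ (q ^ n) - X`. Conversely if `x` is algebraic over `F`, then `F(x)` is a finite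
field with `q ^ N` elements and `x ^ (q ^ N) = x`. -/
def S_Fg : Prop :=
  ∀ (F : Type) [Field F] [Finite F],
    (∀ x : RatFunc F, algebraMap (RatFunc F) (Kgs F) x ∈ Cst (Nat.card F) (Kgs F) →
      ∃ c : F, x = RatFunc.C c) ∧
    (∀ (L : Type) [Field L] [Algebra (RatFunc F) L] (ι : Kgs F →ₐ[RatFunc F] L),
      (∀ c ∈ Cst (Nat.card F) (Kgs F), ι c ∈ Cst (Nat.card F) L) ∧
      ∀ c ∈ Cst (Nat.card F) L, ∃ c' ∈ Cst (Nat.card F) (Kgs F), ι c' = c) ∧
    ∀ x : Kgs F, x ∈ Cst (Nat.card F) (Kgs F) ↔ IsAlgebraic F x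

/-- **Re** (80 lines; copy of a part of `W2/C/Res.lean`). Restriction homomorphisms.

Proof. For `g ∈ Gal(L/M)` the homomorphism `x ↦ g (ι x)` is a `K`-embedding `Ω → L`; `Ω / K` is normal, so
it has the same image as `ι`, so there is a unique `σ : Ω → Ω` with `g (ι x) = ι (σ x)`, an
automorphism. Uniqueness gives a homomorphism `r`. Continuity at `1`: a basic neighbourhood of `1` in
`Gal(Ω/K)` is the fixing subgroup of a finite extension `E = K(x_1, ..., x_n)`; its preimage contains the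
fixing subgroup of `M(ι x_1, ..., ι x_n)`, which is open. -/
def S_Re : Prop :=
  ∀ (K Ω M L : Type) [Field K] [Field Ω] [Field M] [Field L] [Algebra K Ω] [Algebra K M]
    [Algebra K L] [Algebra M L] [IsScalarTower K M L] [IsGalois K Ω] [IsGalois M L]
    (ι : Ω →ₐ[K] L),
    Continuous (rsH (M := M) ι) ∧ (∀ g : Gal(L/M), Rst ι g (rsH (M := M) ι g)) ∧
    ∀ (g : Gal(L/M)) (σ : Gal(Ω/K)), Rst ι g σ → σ = rsH (M := M) ι g

/-- **Rt** (120 lines, uses `S_Ln`, `S_Cs`). Principal `2 ^ m`-th roots.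

Proof. (1) induction on `m` with `S_Ln` (8). (2) `s = z s'` with `z ^ (2 ^ m) = 1` (`s' ≠ 0`, its norm is `1`);
`z` is a constant (`S_Cs` (5), `1` is a constant), and `nm (z - 1) * nm s' = nm (s - s') < 1`, `nm s' = 1`,
so the constant `z - 1` has norm less than `1`, so it is `0` (`S_Ln` (7), `S_Cs`). (3) Induction on `m`:
`m = 0` with `z = 1`. For `m + 1`: apply the case `m` to `s ^ 2`: `nm (s ^ 2 - z) < 1`, `z ^ (2 ^ m) = 1`. Let
`ξ ^ 2 = z` (`Kvs` is separably closed and `2 ≠ 0`), a constant by `S_Cs` (5), `ξ ^ (2 ^ (m + 1)) = 1`.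
`nm (s - ξ) * nm (s + ξ) < 1`, so one of them is less than `1`; take `ξ` or `-ξ`
(`(-ξ) ^ (2 ^ (m + 1)) = 1`). (4) `g s` and `s` have the same `2 ^ m`-th power and
`nm (g s - 1) = nm (g (s - 1)) < 1`; use (2). -/
def S_Rt : Prop :=
  ∀ (F : Type) [Field F] [Finite F], (2 : F) ≠ 0 → ∀ (v : AbsoluteValue (RatFunc F) ℝ) (d : ℕ)
    (ϖ : RatFunc F) (R : Finset (RatFunc F)), LF v d ϖ R →
    (∀ (m : ℕ) (y : Kvs v), nm v y < 1 → ∃ s : Kvs v, s ^ 2 ^ m = 1 + y ∧ nm v (s - 1) < 1) ∧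
    (∀ (m : ℕ) (s s' : Kvs v), s ^ 2 ^ m = s' ^ 2 ^ m → nm v (s - 1) < 1 → nm v (s' - 1) < 1 →
      s = s') ∧
    (∀ (m : ℕ) (s : Kvs v), nm v (s ^ 2 ^ m - 1) < 1 → ∃ z ∈ Cst (Nat.card F) (Kvs v),
      z ^ 2 ^ m = 1 ∧ nm v (s - z) < 1) ∧
    ∀ (g : Gal(Kvs v/v.Completion)) (m : ℕ) (s : Kvs v), g (s ^ 2 ^ m) = s ^ 2 ^ m →
      nm v (s - 1) < 1 → g s = s

/-- **Zt** (120 lines, uses `S_Lf`, `S_Lc`, `S_Ln`, `S_Cs`, `S_Nn`). Inertia elements.

Proof. `nm (unK w v) = 1 / 2` (`S_Lf`, `S_Lc` (1), `S_Ln` (5)). (1) Let `r ^ 2 = unK` (`Kvs` is separably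
closed, `2 ≠ 0`, `unK ≠ 0`). By `S_Nn` (1) the norms of elements of `Knr` are powers `(1 / 2) ^ n`, but
`nm r ^ 2 = 1 / 2`, so `r ∉ Knr`. By Galois theory
(`InfiniteGalois.fixedField_fixingSubgroup`, `Kvs / K_v` is Galois) there is `g` which fixes `Knr` and
`g r ≠ r`; `g r = -r` as `(g r) ^ 2 = r ^ 2`. The other square root is `-r`. `g` is trivial on the constants by
`S_Nn` (4). (2) `(g r) ^ (2 ^ m) = g (unK) = unK`, so `g r = z r` with `z ^ (2 ^ m) = 1` (`r ≠ 0`), a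
constant (`S_Cs` (5)). If `m ≥ 1` then `(r ^ (2 ^ (m - 1))) ^ 2 = unK`, so
`z ^ (2 ^ (m - 1)) r ^ (2 ^ (m - 1)) = g (r ^ (2 ^ (m - 1))) = - r ^ (2 ^ (m - 1))`. -/
def S_Zt : Prop :=
  ∀ (F : Type) [Field F] [Finite F], (2 : F) ≠ 0 →
    ∀ (w : Option F[X]) (v : AbsoluteValue (RatFunc F) ℝ), IsPl w v →
    (∃ g : Gal(Kvs v/v.Completion), IsGeo (Nat.card F) g ∧
      ∀ r : Kvs v, r ^ 2 = unK w v → g r = -r) ∧
    ∀ g : Gal(Kvs v/v.Completion), IsGeo (Nat.card F) g →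
      (∀ r : Kvs v, r ^ 2 = unK w v → g r = -r) →
      ∀ (m : ℕ) (r : Kvs v), r ^ 2 ^ m = unK w v → ∃ z ∈ Cst (Nat.card F) (Kvs v),
        g r = z * r ∧ z ^ 2 ^ m = 1 ∧ (1 ≤ m → z ^ 2 ^ (m - 1) = -1)

/-- **Tst** (300 lines, uses `S_Lf`, `S_Lc`, `S_Ln`, `S_Cs`, `S_Nn`). The structure of the elements of
the tame field `Tam`.

Proof. Choose `r_0 = unK` and `r_{m+1} ^ 2 = r_m` (`Kvs` is separably closed, `2 ≠ 0`), so
`r_m ^ (2 ^ m) = unK` and `nm r_m ^ (2 ^ m) = 1 / 2`. Let `P(x)`: there are `m` and `a_i ∈ Knr`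
(`i < 2 ^ m`) with `x = ∑ a_i r_m ^ i`. (a) Let `x ≠ 0` be such an element. The `a_i r_m ^ i` which are
not `0` have norms `(1 / 2) ^ (n_i + i / 2 ^ m)` (`S_Nn` (1)), which are different for different
`i < 2 ^ m` (raise to the power `2 ^ m`: `(1 / 2) ^ (2 ^ m n_i + i)`). So there is one `i` with the
largest norm and `x = a_i r_m ^ i (1 + y)`, `nm y < 1`. Let `a_i` have norm `(1 / 2) ^ n`; the element
`a_i / unK ^ n ∈ Knr` has norm `1`; by `S_Nn` (2) there is a constant `c` with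
`nm (a_i / unK ^ n - c) < 1`, so `c ≠ 0` and `a_i = unK ^ n c (1 + y')`, `nm y' < 1`. So
`x = r_m ^ (2 ^ m n + i) c (1 + y) (1 + y')`, and `y'' = (1 + y) (1 + y') - 1` is an element of norm
less than `1`; it is in `Tam` if `x` is (it is `x / (r_m ^ j c) - 1`).
(b) All elements of `Tam` satisfy `P`: `P` is closed under sums (elements for `m ≤ m'`:
`r_m = r_{m'} ^ (2 ^ (m' - m))`), products (reduce exponents `≥ 2 ^ m` with `r_m ^ (2 ^ m) = unK ∈ Knr`)
and it holds for the elements of `K_v`, for constants (`S_Nn` (3)) and for `r` with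
`r ^ (2 ^ m) = unK` (`r = z r_m` with `z ^ (2 ^ m) = 1`, a constant by `S_Cs` (5)). Inverses: if
`x = ∑ a_i r_m ^ i ≠ 0`, then the set `T` of all elements `∑ b_i r_m ^ i`, `b_i ∈ Knr` is a subring of a
field which is finitely generated as a module over the field `Knr`, so it is a field (or:
`IntermediateField.adjoin Knr {r_m}` is equal to `Algebra.adjoin` since `r_m` is integral, and its
elements are polynomials in `r_m`, which can be reduced modulo `X ^ (2 ^ m) - unK`). -/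
def S_Tst : Prop :=
  ∀ (F : Type) [Field F] [Finite F], (2 : F) ≠ 0 →
    ∀ (w : Option F[X]) (v : AbsoluteValue (RatFunc F) ℝ), IsPl w v →
    ∀ x ∈ Tam w v, x ≠ 0 → ∃ (m : ℕ) (r : Kvs v) (j : ℤ) (c y : Kvs v), r ^ 2 ^ m = unK w v ∧
      c ∈ Cst (Nat.card F) (Kvs v) ∧ c ≠ 0 ∧ y ∈ Tam w v ∧ nm v y < 1 ∧ x = r ^ j * c * (1 + y)

/-- **Tsq** (100 lines, uses `S_Lf`, `S_Ln`, `S_Cs`, `S_Rt`, `S_Tst`). The tame field is closed under square
roots.

Proof. Let `a ^ 2 = x ∈ Tam`; `x = 0` is clear. Let `x = r ^ j c (1 + y)` as in `S_Tst`, and `ρ ^ 2 = r`,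
`e ^ 2 = c` in `Kvs` (separably closed, `2 ≠ 0`); `ρ ^ (2 ^ (m + 1)) = unK`, so `ρ ∈ Tam`, and `e` is a
constant (`S_Cs` (5)), so `e ∈ Tam`. Let `s ^ 2 = 1 + y`, `nm (s - 1) < 1` (`S_Rt` (1), `m = 1`). Every
`g ∈ Gal(Kvs/K_v)` which fixes `Tam` fixes `s ^ 2 = 1 + y`, so it fixes `s` (`S_Rt` (4)). So `s ∈ Tam`
(`InfiniteGalois.fixedField_fixingSubgroup`). `a ^ 2 = (ρ ^ j e s) ^ 2`, so `a = ± ρ ^ j e s ∈ Tam`. -/
def S_Tsq : Prop :=
  ∀ (F : Type) [Field F] [Finite F], (2 : F) ≠ 0 →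
    ∀ (w : Option F[X]) (v : AbsoluteValue (RatFunc F) ℝ), IsPl w v →
    ∀ a : Kvs v, a ^ 2 ∈ Tam w v → a ∈ Tam w v

/-- **Trl** (100 lines, uses `S_Cs`, `S_Zt`). The relation between inertia and Frobenius on the tame
field.

Proof. Let `Q = q ^ deg w`. The set of the `x` with `f (g x) = g ^ Q (f x)` is a subfield of `Kvs` (`f ∘ g` and
`g ^ Q ∘ f` are ring homomorphisms) which contains `K_v` (both maps are `K_v`-linear); so it is enough
to consider the generators of `Tam`. Constants `c`: `f (g c) = f c = c ^ Q`, a constant, and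
`g ^ Q (c ^ Q) = c ^ Q`. Let `r ^ (2 ^ m) = unK`. By `S_Zt` `g r = z r` with a constant `z`. Also
`(f r) ^ (2 ^ m) = unK`, so `f r = z' r` with `z' ^ (2 ^ m) = 1`, `z'` a constant (`S_Cs` (5)). So
`f (g r) = f z * f r = z ^ Q z' r` and `g ^ Q (f r) = z' g ^ Q r = z' z ^ Q r`. -/
def S_Trl : Prop :=
  ∀ (F : Type) [Field F] [Finite F], (2 : F) ≠ 0 →
    ∀ (w : Option F[X]) (v : AbsoluteValue (RatFunc F) ℝ), IsPl w v →
    ∀ g f : Gal(Kvs v/v.Completion), IsGeo (Nat.card F) g →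
      (∀ r : Kvs v, r ^ 2 = unK w v → g r = -r) → IsFro (Nat.card F) (Nat.card F ^ dgP w) f →
      ∀ x ∈ Tam w v, f (g x) = (g ^ (Nat.card F ^ dgP w)) (f x)

/-- **QG** (150 lines, uses `S_Cs`). The quadratic closure `Qf F`.

Proof. (2), (3): `Qf F` is the intersection of the fields with these properties. (1) `Kgs F / K` is
Galois; for `σ ∈ Gal(Kgs F/K)` and a field `L` of the family `σ L` is in the family (`σ` permutes the
constants), so `σ` maps `Qf F` to itself; so `Qf F / K` is normal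
(`IntermediateField.normal_iff_forall_map_le'` or similar) and separable. (4) `Kgs F` is separably
closed and `2 ≠ 0`, so `a` has a square root in `Kgs F`, and it is in `Qf F` by (3). (5) Let
`L = {a : Kgs F | ∃ h : a ∈ Qf F, pr ⟨a, h⟩}`, an intermediate field by the closure properties
(subtraction: `-1` is a constant), which contains the constants; if `a ^ 2 ∈ L`, then `a ∈ Qf F` by (3) and `pr a`.
So `L` is in the family and `Qf F ≤ L`. -/
def S_QG : Prop :=
  ∀ (F : Type) [Field F] [Finite F],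
    IsGalois (RatFunc F) (Qf F) ∧ (∀ c ∈ Cst (Nat.card F) (Kgs F), c ∈ Qf F) ∧
    (∀ a : Kgs F, a ^ 2 ∈ Qf F → a ∈ Qf F) ∧
    ((2 : F) ≠ 0 → ∀ a : Qf F, ∃ b : Qf F, b ^ 2 = a) ∧
    ∀ pr : Qf F → Prop, (∀ x : RatFunc F, pr (algebraMap _ _ x)) →
      (∀ c : Qf F, (c : Kgs F) ∈ Cst (Nat.card F) (Kgs F) → pr c) →
      (∀ a b, pr a → pr b → pr (a + b)) → (∀ a b, pr a → pr b → pr (a * b)) →
      (∀ a, pr a → pr a⁻¹) → (∀ a, pr (a ^ 2) → pr a) → ∀ a, pr a

/-- **QT** (40 lines, uses `S_Fg`, `S_Tsq`, `S_QG`). Every embedding maps `Qf F` into the tame field.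

Proof. `S_QG` (5) for `pr a = (ι a ∈ Tam w v)`: elements of `K` are mapped to `K_v`; constants to
constants (`S_Fg` (2)), which are in `Tam`; `Tam` is a field; square roots: `S_Tsq`. -/
def S_QT : Prop :=
  ∀ (F : Type) [Field F] [Finite F], (2 : F) ≠ 0 →
    ∀ (w : Option F[X]) (v : AbsoluteValue (RatFunc F) ℝ), IsPl w v →
    ∀ (ι : Kgs F →ₐ[RatFunc F] Kvs v) (x : Qf F), ι x ∈ Tam w v

/-- **Lo** (80 lines, uses `S_Lf`, `S_Fb`, `S_Zt`; and the proved theorem `Pool.Agent.MP72W.tAv` of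
`W2/C/Av.lean`, which you may take as the hypothesis `Pool.Agent.MP72W.S_Av`). Local data exist at all
places.

Proof. For every place `w` let `v` be an absolute value with `IsPl w v` (`S_Av`), `emb` an embedding
`Kgs F → Kvs v` over `K` (`IsSepClosed.lift`; `Kgs F / K` is separable algebraic, `Kvs v` is separably
closed), `t` an element `g` of `S_Zt` (1) and `f'` a Frobenius of `S_Fb`. Let `r ^ 2 = unK` (there is such
an `r`, `r ≠ 0`). If `f' r = r` put `f = f'`, otherwise `f' r = -r` and put `f = f' * t`: then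
`f r = f' (-r) = r`. The other square root is `-r`. On the constants `f' * t` acts as `f'`. The order
of the hypotheses is `S_Av`, `S_Lf`, `S_Fb`, `S_Zt`. -/
def S_Lo : Prop := ∀ (F : Type) [Field F] [Finite F], (2 : F) ≠ 0 → ∃ A : Pl F → Lcd F, LDok F A

/-- **Rq** (100 lines, uses `S_Re`, `S_Fg`, `S_QG`, `S_Trl`, `S_QT`). The restrictions to `Qf F`.

Proof. (1) `S_Re` (2) for `ι = A.eQ` (`Qf F / K` is Galois by `S_QG`; `Kvs / K_v` is Galois). (2) (3) `A.eQ c` is a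
constant (`S_Fg` (2)), so `A.eQ (rQ g c) = g (A.eQ c) = A.eQ c`, resp. `(A.eQ c) ^ Q = A.eQ (c ^ Q)`; `A.eQ` is
injective. (4) apply `A.eQ` to both sides at `x`: `f (t (A.eQ x)) = t ^ Q (f (A.eQ x))` by `S_QT` and
`S_Trl`, and `rQ` is a homomorphism. -/
def S_Rq : Prop :=
  ∀ (F : Type) [Field F] [Finite F], (2 : F) ≠ 0 → ∀ (w : Option F[X]) (A : Lcd F), A.Ok w →
    (∀ (g : Gal(Kvs A.av/A.av.Completion)) (x : Qf F), A.eQ (A.rQ g x) = g (A.eQ x)) ∧
    (∀ g : Gal(Kvs A.av/A.av.Completion), IsGeo (Nat.card F) g →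
      ∀ c : Qf F, (c : Kgs F) ∈ Cst (Nat.card F) (Kgs F) → A.rQ g c = c) ∧
    (∀ c : Qf F, (c : Kgs F) ∈ Cst (Nat.card F) (Kgs F) →
      A.rQ A.f c = c ^ (Nat.card F ^ dgP w)) ∧
    A.rQ A.f * A.rQ A.t = A.rQ A.t ^ (Nat.card F ^ dgP w) * A.rQ A.f

/-- **Kk** (150 lines, uses `S_Cs`, `S_Fg`, `S_QG`). The field of constants `kF F`.

Proof. (2) `c ∈ kF F` iff `c` is algebraic over `F` (`mem_algebraicClosure_iff`), iff its image in `Kgs F`
is (the inclusion is injective and an `F`-algebra homomorphism), iff it is in `Cst` (`S_Fg` (3)). (3)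
clear from (2). (1) Let `f` be an irreducible monic polynomial over `kF F`; `kF F` is algebraic over the
finite field `F`, so perfect (`IsAlgebraic.perfectField` or: every element is a `p`-th power as
`c ^ (q ^ n) = c`), so `f` is separable and has a root `x` in `Kgs F` (`IsSepClosed.exists_eval₂_eq_zero`),
which is algebraic over `F` (`isAlgebraic` is transitive) and so in `Cst`, in `Qf F` (`S_QG` (2)) and in `kF F`.
(4) `c ^ q = c`: the `q` elements of `F` are all the roots of `X ^ q - X`. (5) If `tQ F` were algebraic over `kF F`,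
then it would be algebraic over `F`, and `RatFunc.X` would be algebraic over `F`; but it is a constant
by `S_Fg` (3), (1): contradiction. -/
def S_Kk : Prop :=
  ∀ (F : Type) [Field F] [Finite F], IsAlgClosed (kF F) ∧
    (∀ c : Qf F, c ∈ kF F ↔ (c : Kgs F) ∈ Cst (Nat.card F) (Kgs F)) ∧
    (∀ c : kF F, ∃ n : ℕ, 0 < n ∧ c ^ Nat.card F ^ n = c) ∧
    (∀ c : kF F, c ^ Nat.card F = c →
      ∃ a : F, (c : Qf F) = algebraMap (RatFunc F) (Qf F) (RatFunc.C a)) ∧
    Transcendental (kF F) (tQ F)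

/-- **Fx** (120 lines, uses `S_QG`). The elements fixed by the automorphisms which are trivial on the
constants.

Proof. Let `M = {a : Qf F | ∃ p s : (kF F)[X], a = p(t) / s(t)}`: an intermediate field of `Qf F / K`:
it contains `K` (an element of `K` is `P / S` with `P, S ∈ F[X]`, map the coefficients to `kF F`), and it is
closed under sums, products, inverses (`p / s + p' / s' = (p s' + p' s) / (s s')`; if `s(t) = 0` the
quotient is `0 = 0(t) / 1(t)`, so we may assume `s(t) ≠ 0`). It contains the constants. Every `g` which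
fixes `M` is trivial on the constants, so it fixes `a`; so `a` is in the fixed field of the fixing
subgroup of `M`, which is `M` (`InfiniteGalois.fixedField_fixingSubgroup`, `S_QG` (1)). -/
def S_Fx : Prop :=
  ∀ (F : Type) [Field F] [Finite F] (a : Qf F),
    (∀ g : GQ F, Triv (kF F) (Q := Qf F) g → g • a = a) →
    ∃ p s : (kF F)[X], a = aeval (tQ F) p / aeval (tQ F) s

/-- **Pr** (100 lines, uses `S_Kk`, `S_QG`). The group of the automorphisms which are trivial on the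
constants is a pro-`2`-group.

Proof. For `a ∈ Qf F` let `pr a`: there is `n` with `g ^ (2 ^ n) a = a`. `S_QG` (5): elements of `K` and
constants (`n = 0`; constants are in `kF F` by `S_Kk` (2)); sums, products, inverses (the maximum of the
`n`'s); if `g ^ (2 ^ n) (a ^ 2) = a ^ 2` then `g ^ (2 ^ n) a = ± a` and `g ^ (2 ^ (n + 1)) a = a`. So it holds
for all `a`. `U` contains the fixing subgroup of a finite extension, generated by finitely many
elements `a` (`krullTopology_mem_nhds_one_iff`); take the maximum of their `n`'s. -/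
def S_Pr : Prop :=
  ∀ (F : Type) [Field F] [Finite F] (U : Subgroup (GQ F)), IsOpen (U : Set (GQ F)) →
    ∀ g : GQ F, Triv (kF F) (Q := Qf F) g → ∃ n : ℕ, g ^ 2 ^ n ∈ U

/-- **Kt** (60 lines, uses `S_QG`). The Krull topology.

Proof. (1) the stabilizer is the fixing subgroup of `K(a)`, which is finite over `K`
(`IntermediateField.fixingSubgroup_isOpen`). (2) `krullTopology_mem_nhds_one_iff`: `U` contains the
fixing subgroup of a finite extension `E`; take a finite set of generators. (3) `Qf F / K` is Galois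
(`InfiniteGalois`: `GQ F` is profinite, there is an instance of `CompactSpace`). -/
def S_Kt : Prop :=
  ∀ (F : Type) [Field F] [Finite F], (∀ a : Qf F, IsOpen {g : GQ F | g • a = a}) ∧
    (∀ U : Set (GQ F), IsOpen U → 1 ∈ U →
      ∃ s : Finset (Qf F), ∀ g : GQ F, (∀ a ∈ s, g • a = a) → g ∈ U) ∧
    CompactSpace (GQ F) ∧ IsTopologicalGroup (GQ F)

/-- **Ro** (250 lines, uses `S_Lf`, `S_Lc`, `S_Ln`, `S_Cs`, `S_Fg`, `S_Kk`). The roots `rtP`.

Proof. `nm (A.eQ (c - c')) = 1` for different `c, c' ∈ kF F` (constants, `S_Fg` (2), `S_Ln` (7)); so there is at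
most one `c ∈ kF F` with `nm (A.eQ (t - c)) < 1`. Let `w = some P`. Over the algebraically closed field
`kF F` `P = ∏ (X - c_i)`, so `P(t) = ∏ (t - c_i)` in `Qf F`, and `nm (A.eQ P(t)) = v(P) = 1 / 2 < 1`; so
there is an `i` with `nm (A.eQ (t - c_i)) < 1`. So `rtP A w = c_i`: (1), (2). (3) For `c ∈ kF F` let `P` be its
minimal polynomial over `F`, `d` its degree, monic and irreducible. `c' = rtP A (some P)` is a root of
`P` by (1). The set of the roots of `P` in `kF F` is `{c' ^ (q ^ i) | i < d}` with `d` different elements: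
`x ↦ x ^ q` maps roots to roots; `F(c')` has `q ^ d` elements, so `c' ^ (q ^ d) = c'`, and if
`c' ^ (q ^ i) = c' ^ (q ^ j)` with `i < j < d` then `c' ^ (q ^ (j - i)) = c'` (injectivity of the Frobenius)
and all elements of `F(c')` are roots of `X ^ (q ^ (j - i)) - X`, a contradiction; `P` has at most `d`
roots. So `c = c' ^ (q ^ i)` for exactly one `i < d`. If `c = (rtP A (some P')) ^ (q ^ i)`, then `c` is a root of
`P'`, so `P ∣ P'` and `P' = P`. -/
def S_Ro : Prop :=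
  ∀ (F : Type) [Field F] [Finite F] (A : Pl F → Lcd F), LDok F A →
    (∀ P : {P : F[X] // P.Monic ∧ Irreducible P}, aeval (rtP A (some P)) P.1 = 0 ∧
      nm (A (some P)).av ((A (some P)).eQ (tQ F - rtP A (some P))) < 1) ∧
    (∀ (w : Pl F) (c c' : kF F), c ≠ c' → nm (A w).av ((A w).eQ (c - c' : Qf F)) = 1) ∧
    ∀ c : kF F, ∃! p : Pl F × ℕ, p.1 ≠ none ∧ p.2 < dgP p.1.o ∧
      rtP A p.1 ^ Nat.card F ^ p.2 = c

/-- **Un** (250 lines, uses `S_Lf`, `S_Lc`, `S_Ln`, `S_Cs`, `S_Fg`, `S_Rt`, `S_Zt`, `S_Rq`, `S_Kk`, `S_Ro`). The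
action of the inertia generators on the roots of `t - c`.

Proof. Claim: let `g = (A w).t`, `a ∈ Qf F`, `e = (A w).eQ`, `e a = ρ ^ j * c * s`, where
`ρ ^ (2 ^ m) = unK`, `j ∈ ℤ`, `c` is a constant and `nm (s ^ (2 ^ m) - 1) < 1`, `g (s ^ (2 ^ m)) = s ^ (2 ^ m)`.
Then `g (e a) = z ^ j e a` with the `z` of `S_Zt` (`g ρ = z ρ`). Indeed by `S_Rt` (3) there is a constant `z'`
with `nm (s - z') < 1`, `z' ^ (2 ^ m) = 1`, so `s / z'` is fixed by `g` (`S_Rt` (4)) and `g s = s`.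
(1) `c ≠ rtP`, `c₀ = rtP - c ≠ 0`: `e (t - c) = c₀ (1 + y)`, `y = e (t - rtP) / c₀`, `nm y < 1`. Let
`c₁ ^ (2 ^ m) = e c₀` in `Kvs`, a constant (`S_Cs` (5)), `s = e r / c₁`: `s ^ (2 ^ m) = 1 + y`, which is
fixed by `g` (`t ∈ K`, constants). So `g (e r) = e r` and `τ r = r` (`S_Rq` (1), `e` injective).
(2) `w = some P`, `c = rtP`. `P(t) = (t - c) ∏_{i} (t - c_i)` with `c_i ≠ c` (`P` is separable: its roots in
`kF F` are different), `e (t - c_i) = (c - c_i) (1 + y_i)` as in (1); so `e (t - c) = unK * c₀ * (1 + y)` with a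
nonzero constant `c₀` and `nm y < 1`. Choose `ρ ^ (2 ^ m) = unK` (`Kvs` separably closed) and
`c₁ ^ (2 ^ m) = c₀`; `s = e r / (ρ c₁)` has `s ^ (2 ^ m) = 1 + y`; `g (e r) = z e r` with `z ^ (2 ^ m) = 1` and
`z ^ (2 ^ (m - 1)) = -1` for `m ≥ 1`, so `z` is a primitive `2 ^ m`-th root of unity; `z = e ζ` with `ζ ∈ kF F`
(`S_Fg` (2), `S_Kk` (2)), independent of `r` (it is defined by `ρ`, which is fixed).
(3) infinity: `unK = 1 / t`, `e (t - c) = unK ^ (-1) (1 - c unK)`, `nm (c unK) < 1`. `s = e r ρ` has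
`s ^ (2 ^ m) = 1 - c unK`, and `g (e r) = z ^ (-1) e r` for all `c` and `r`. -/
def S_Un : Prop :=
  ∀ (F : Type) [Field F] [Finite F], (2 : F) ≠ 0 → ∀ (A : Pl F → Lcd F), LDok F A →
    (∀ (m : ℕ) (w : Pl F) (c : kF F) (r : Qf F), w ≠ none → c ≠ rtP A w →
      r ^ 2 ^ m = tQ F - algebraMap (kF F) (Qf F) c → (A w).rQ (A w).t r = r) ∧
    (∀ (m : ℕ) (w : Pl F), w ≠ none → ∃ ζ : kF F, IsPrimitiveRoot ζ (2 ^ m) ∧
      ∀ r : Qf F, r ^ 2 ^ m = tQ F - algebraMap (kF F) (Qf F) (rtP A w) →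
        (A w).rQ (A w).t r = algebraMap (kF F) (Qf F) ζ * r) ∧
    ∀ m : ℕ, ∃ ζ : kF F, IsPrimitiveRoot ζ (2 ^ m) ∧
      ∀ (c : kF F) (r : Qf F), r ^ 2 ^ m = tQ F - algebraMap (kF F) (Qf F) c →
        (A none).rQ (A none).t r = algebraMap (kF F) (Qf F) ζ * r

/-- **Fi** (250 lines, uses `S_Lf`, `S_Lc`, `S_Ln`, `S_Cs`, `S_Nn`, `S_Fg`, `S_QG`, `S_Rt`, `S_Rq`, `S_Kt`).
Every open subgroup contains almost all the inertia generators.

Proof. We write: for almost all `w`, for: for all but finitely many places `w`. (a) For `x ∈ K`, `x ≠ 0`, we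
have `v_w(x) = 1` for almost all `w` (`x = a / b`, the places dividing `a` or `b`; monic irreducible
divisors of a nonzero polynomial are finitely many). (b) For `a ∈ Qf F`, `a ≠ 0` we have
`nm (e_w a) = 1` for almost all `w`, `e_w = (A w).eQ`: `a` is a root of a monic polynomial over `K`; for
almost all `w` its coefficients have absolute value at most `1`, so `nm (e_w a) ≤ 1` (otherwise
`a ^ n` is larger than the other terms); the same for `a⁻¹`. (c) Let `pr a`: `e_w a ∈ Knr` for almost all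
`w`. Use `S_QG` (5): `K` (mapped to `K_v`), constants (`S_Fg` (2), `S_Nn` (3)), sums, products, inverses are
clear. Let `pr (a ^ 2)`; `a = 0` is clear. For almost all `w` `x = e_w (a ^ 2) ∈ Knr` and `nm x = 1`. By `S_Nn` (2)
`x = c (1 + y)` with a constant `c ≠ 0`, `nm y < 1`, `y = x / c - 1 ∈ Knr`. Let `c₁ ^ 2 = c`, a constant
(`S_Cs` (5)), `s = e_w a / c₁`, `s ^ 2 = 1 + y`; by `S_Rt` (3) there is a constant `z` with
`z ^ 2 = 1`, `nm (s - z) < 1`; every `g` fixing `Knr` fixes `s / z` (`S_Rt` (4)), so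
`s ∈ Knr` and `e_w a ∈ Knr` (`InfiniteGalois.fixedField_fixingSubgroup`). (d) So for `a ∈ Qf F` and almost
all `w` `t_w (e_w a) = e_w a` (`S_Nn` (4)), so `rQ t_w a = a` (`S_Rq` (1)). `U` contains
the stabilizer of a finite set (`S_Kt` (2)). -/
def S_Fi : Prop :=
  ∀ (F : Type) [Field F] [Finite F], (2 : F) ≠ 0 → ∀ (A : Pl F → Lcd F), LDok F A →
    ∀ U : Subgroup (GQ F), IsOpen (U : Set (GQ F)) → {w | (A w).rQ (A w).t ∉ U}.Finite

/-- **Km** (100 lines, uses `S_QG`, `S_Kt`). The quadratic characters.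

Proof. Let `x ∈ Qf F`, `x ^ 2 = f` (`S_QG` (4)), `x ≠ 0`; the other square root is `-x ≠ x`. `σ x = ± x`, and
`hK f σ = 0` iff `σ x = x` (iff `σ (-x) = -x`): (2). (1) `hK f (σ τ) = hK f σ + hK f τ` as
`σ (τ x) = ± ± x`; locally constant: it is constant on the cosets of the stabilizer of `x`, which is
open (`S_Kt` (1)). (3) `(x y) ^ 2 = f g`. (4) `σ 1 = 1`. -/
def S_Km : Prop :=
  ∀ (F : Type) [Field F] [Finite F], (2 : F) ≠ 0 →
    (∀ f : RatFunc F, f ≠ 0 → IsCh (hK f)) ∧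
    (∀ f : RatFunc F, f ≠ 0 → ∀ x : Qf F, x ^ 2 = algebraMap _ _ f →
      ∀ σ : GQ F, σ x = if hK f σ = 0 then x else -x) ∧
    (∀ f g : RatFunc F, f ≠ 0 → g ≠ 0 → ∀ σ : GQ F, hK (f * g) σ = hK f σ + hK g σ) ∧
    ∀ f : RatFunc F, f ≠ 0 → ∀ σ : GQ F, hK (f ^ 2) σ = 0

/-- **Kl** (250 lines, uses `S_Lf`, `S_Lc`, `S_Ln`, `S_Cs`, `S_Nn`, `S_Fg`, `S_QG`, `S_Rt`, `S_Rq`, `S_Km`). The
values of the quadratic characters at the inertia generators and at the Frobenius elements.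

Proof. Write `τ = rQ t`, `φ = rQ f`, `e = A.eQ`. (1) Let `f₀ ∈ K` with `v f₀ = 1`, `x ^ 2 = f₀`. As in the proof
of `S_Fi` (c) `e x ∈ Knr` (`e f₀ ∈ K_v ⊂ Knr` has norm `1`), so `t (e x) = e x` and `hK f₀ τ = 0`. (2) If
`v f₀ = (1 / 2) ^ n` then `f₀ = unP ^ n * f₁` with `v f₁ = 1`; `hK (unP) τ = 1` as `t` changes the sign of the
square roots of `unK`; so `hK f₀ τ = n mod 2`. (3) `hK (unP) φ = 0` by `Lcd.Ok.fs`. (4) If `v (f₀ - 1) < 1`
then `hK f₀ φ = 0` and `hK f₀ τ = 0`: `x ^ 2 = f₀`; `nm (e x ^ 2 - 1) < 1`, so by `S_Rt` (3) (`m = 1`)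
`nm (e x - z) < 1` with `z = ± 1`; replace `x` by `z x`: then `S_Rt` (4) gives `f (e x) = e x`, the same
for `t`. (5) Let `a ∈ F` be not a square, `x ^ 2 = C a`; `e x` is a constant, `f (e x) = (e x) ^ Q`,
`Q = q ^ deg w`; `x ^ (q - 1) = a ^ ((q - 1) / 2) = -1` (Euler), so `x ^ q = - x` and
`x ^ Q = (-1) ^ (deg w) x`. If `a = b ^ 2 ≠ 0` then `hK = 0`. (6) infinity: `P` monic of degree `d`:
`P = t ^ d f₁`, `v (f₁ - 1) < 1`; `hK t = hK (1 / t)` is `0` at `φ`; use (3), (4). -/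
def S_Kl : Prop :=
  ∀ (F : Type) [Field F] [Finite F], (2 : F) ≠ 0 → ∀ (w : Option F[X]) (A : Lcd F), A.Ok w →
    (∀ (f : RatFunc F) (n : ℤ), A.av f = (1 / 2) ^ n → hK f (A.rQ A.t) = n) ∧
    hK (unP w) (A.rQ A.f) = 0 ∧
    (∀ f : RatFunc F, A.av (f - 1) < 1 → hK f (A.rQ A.f) = 0) ∧
    (∀ a : F, (¬ ∃ b, b ^ 2 = a) → hK (RatFunc.C a) (A.rQ A.f) = (dgP w : ZMod 2)) ∧
    (w = none → ∀ P : F[X], P.Monic →
      hK (algebraMap F[X] (RatFunc F) P) (A.rQ A.f) = 0)

/-- **Qd** (100 lines, uses `S_Rq`, `S_Kk`, `S_Fx`, `S_Pr`, `S_Kt`, `S_Ro`, `S_Un`, `S_QG`). The hypotheses of block E.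

Proof. `q4`, `q1`: hypothesis and `1 < q`. `two`: `kF F` is an extension of `F`. `tr`, `kalg`, `kf`: `S_Kk`
(`c ^ q = c` gives `c ∈ F ⊂ K`, fixed by `g`). `tfix`: `t ∈ K`. `sq`: `S_QG` (4). `fix`: `S_Fx`. `stab`, `bas`:
`S_Kt`. `pro`: `S_Pr`. `nq`, `dg_inf`: definitions. `phi`: `S_Rq` (3), `tau`: `S_Rq` (2), `rel`: `S_Rq` (4). `orb`:
`S_Ro` (3). `unr`, `ram`, `rami`: `S_Un`. (`g • x` is `g x`; elements of `kF F` are constants by `S_Kk` (2).) -/
def S_Qd : Prop :=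
  ∀ (F : Type) [Field F] [Finite F], Nat.card F % 4 = 1 → ∀ (A : Pl F → Lcd F), LDok F A →
    IsAlgClosed (kF F) ∧ ∀ (N : Type) (D : Dat (GQ F) N (Pl F)), D.inf = none →
      (∀ w, D.tau w = (A w).rQ (A w).t) → (∀ w, D.phi w = (A w).rQ (A w).f) →
      (∀ w, D.nq w = Nat.card F ^ dgP w.o) →
      Qd D (kF F) (Qf F) (tQ F) (Nat.card F) (fun w => dgP w.o) (rtP A)

/-- **Pc** (300 lines, uses `S_Lf`, `S_Lc`, `S_Ln`, `S_Cs`, `S_Fg`, `S_Rt`, `S_Zt`, `S_Tst`, `S_QT`, `S_Rq`, `S_Kk`). The places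
of `Qf F` as needed by block C.

Proof. Let `e = A.eQ`. By `S_QT`, `S_Tst` every `x ≠ 0` in `Qf F` has `e x = r ^ j c (1 + y)` with
`r ^ (2 ^ m) = unK`, `nm unK = 1 / 2`, so `nm (e x) = (1 / 2) ^ (j / 2 ^ m)` (`nm r` is the positive number
with `2 ^ m`-th power `1 / 2`), and `nuP A x = j / 2 ^ m` (the exponent is unique), `nuP A 0 = ⊤` (`nm 0 = 0` is not a
power). (V) So `nm (e x) = (1 / 2) ^ (nuP A x)` for `x ≠ 0`, and `top`, `mul`, `add`, `two`, `nt`, `nf` are the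
properties of the norm (`S_Ln`; `nm 2 = 1` as `2` is a nonzero constant). (R) If `nm (e x) ≤ 1` then
there is exactly one `a ∈ kF F` with `nm (e (x - a)) < 1`: if the norm is less than `1` take `a = 0`; if
it is `1` then `j = 0` (`(1 / 2) ^ (j / 2 ^ m) = 1`), `e x = c (1 + y)`, `c = e a` (`S_Fg` (2), `S_Kk` (2)). Uniqueness:
constants at distance less than `1` are equal. So `resP A x` is this `a`, and `r1`, `radd`, `rmul`,
`r0` are clear; `rt`: `e (τ x - a) = t (e (x - a))` as `t` fixes the constants; `rf`: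
`e (φ x - a ^ Q) = f (e (x - a))`.
`int`: let `τ x = x`, `x ≠ 0`, `e x = r ^ j c (1 + y)`. `t r = z r` with `z` as in `S_Zt`, so
`z ^ j (1 + t y) = 1 + y`, `nm (z ^ j - 1) < 1` and `z ^ j = 1` (constants). As `z` is a primitive
`2 ^ m`-th root of unity, `2 ^ m ∣ j` and `nuP A x = j / 2 ^ m` is an integer.
`sq`: `y₀ ^ 2 = x`, `τ x = x`, `nuP A x = n`: `e y₀ = r ^ j c (1 + y)` (`S_Tst` for `y₀`, level `m ≥ 1`
without loss: replace `r` by a square root `ρ` and `j` by `2 j`), `2 j / 2 ^ m = n`, so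
`j = n 2 ^ (m - 1)`. `t (e y₀) = z ^ j r ^ j c (1 + t y)` and `z ^ j = (-1) ^ n`; and `τ y₀ = ± y₀`, with the sign
`ε`: `z ^ j (1 + t y) = ε (1 + y)`, so `nm (z ^ j - ε) < 1` and `ε = z ^ j = (-1) ^ n`.
`rel`: `S_Rq` (4). (2) `nm (e (algebraMap x)) = v x`. -/
def S_Pc : Prop :=
  ∀ (F : Type) [Field F] [Finite F], (2 : F) ≠ 0 → ∀ (w : Option F[X]) (A : Lcd F), A.Ok w →
    C.Plc (A.rQ A.t) (A.rQ A.f) (Nat.card F ^ dgP w) (nuP A) (resP A) ∧
    ∀ (x : RatFunc F) (n : ℤ), A.av x = (1 / 2) ^ n →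
      nuP A (algebraMap (RatFunc F) (Qf F) x) = ((n : ℚ) : WithTop ℚ)

end Pool.Agent.MP72S.D
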