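import Pool.Agent.Lib.MP_72e2e6_nt.W2.C.Defs
import Pool.Agent.Lib.MP_72e2e6_nt.Sm.C.Defs
import Pool.Agent.Lib.MP_72e2e6_nt.Sm.E.Spec

/-!
# MP_72e2e6_nt, `Sm`, block D (the quadratic closure of `F̄(t)` and its places): definitions

`F` is a finite field, `q = Nat.card F`, `K = RatFunc F`, `Kgs F` its separable closure, `Kvs v` the
separable closure of the completion of `K` for the absolute value `v` (see `W2/C/Defs.lean`; there
also `Cst q L`: the constants, `IsPl w v`, `LF`, `nm v`, `Knr v`, `Kgeo F`, `IsFro`, `IsGeo`, `Rst`, `rsH`).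
-/

namespace Pool.Agent.MP72S.D

open Polynomial IntermediateField Pool.Agent.MP72W

/-- The quadratic closure of `F̄(t)`: the smallest field between `F(t)` and its separable closure
which contains the constants and is closed under square roots. -/
noncomputable def Qf (F : Type) [Field F] : IntermediateField (RatFunc F) (Kgs F) :=
  sInf {L | (∀ c ∈ Cst (Nat.card F) (Kgs F), c ∈ L) ∧ ∀ a : Kgs F, a ^ 2 ∈ L → a ∈ L}

/-- The Galois group of `Qf F` over `F(t)`. -/
abbrev GQ (F : Type) [Field F] : Type := Gal(Qf F/RatFunc F)

/-- The field of the constants of `Qf F` (the elements algebraic over `F`). -/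
noncomputable abbrev kF (F : Type) [Field F] : IntermediateField F (Qf F) := algebraicClosure F (Qf F)

/-- The element `t` of `Qf F`. -/
noncomputable def tQ (F : Type) [Field F] : Qf F := algebraMap (RatFunc F) (Qf F) RatFunc.X

/-- The places of `F(t)`: `none` is infinity. -/
abbrev Pl (F : Type) [Field F] : Type := Option {P : F[X] // P.Monic ∧ Irreducible P}

/-- The place as an element of `Option F[X]`. -/
def Pl.o {F : Type} [Field F] (w : Pl F) : Option F[X] := w.map Subtype.val

/-- The quadratic character of `f ∈ F(t)`. -/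
noncomputable def hK {F : Type} [Field F] (f : RatFunc F) (σ : GQ F) : ZMod 2 :=
  open Classical in
  if ∃ x : Qf F, x ^ 2 = algebraMap (RatFunc F) (Qf F) f ∧ σ x = x then 0 else 1

/-- Local data at a place `w`: an absolute value, an embedding of the separable closures, a
generator `t` of the inertia group and a Frobenius automorphism `f`. -/
structure Lcd (F : Type) [Field F] where
  av : AbsoluteValue (RatFunc F) ℝ
  emb : Kgs F →ₐ[RatFunc F] Kvs av
  t : Gal(Kvs av/av.Completion)
  f : Gal(Kvs av/av.Completion)

/-- The uniformizer of the place `w` in the separable closure of the completion. -/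
noncomputable def unK {F : Type} [Field F] (w : Option F[X]) (v : AbsoluteValue (RatFunc F) ℝ) : Kvs v :=
  algebraMap v.Completion (Kvs v) (algebraMap (RatFunc F) v.Completion (unP w))

/-- The properties of the local data: `t` acts trivially on the constants, `f` by the `q ^ deg`-th
power; `t` changes the sign of the square roots of the uniformizer and `f` does not. -/
structure Lcd.Ok {F : Type} [Field F] (w : Option F[X]) (A : Lcd F) : Prop where
  pl : IsPl w A.av
  tg : IsGeo (Nat.card F) A.t
  ts : ∀ r : Kvs A.av, r ^ 2 = unK w A.av → A.t r = - r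
  ff : IsFro (Nat.card F) (Nat.card F ^ dgP w) A.f
  fs : ∀ r : Kvs A.av, r ^ 2 = unK w A.av → A.f r = r

/-- The embedding of `Qf F`. -/
noncomputable def Lcd.eQ {F : Type} [Field F] (A : Lcd F) : Qf F →ₐ[RatFunc F] Kvs A.av :=
  A.emb.comp (Qf F).val

/-- The restriction of the local Galois group to `Qf F`. -/
noncomputable def Lcd.rQ {F : Type} [Field F] (A : Lcd F) :
    Gal(Kvs A.av/A.av.Completion) →* GQ F :=
  rsH (M := A.av.Completion) A.eQ

/-- The tame closure of the completion: `K_v(constants, ϖ^(1/2^m) for all m)`. -/
noncomputable def Tam {F : Type} [Field F] (w : Option F[X]) (v : AbsoluteValue (RatFunc F) ℝ) :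
    IntermediateField v.Completion (Kvs v) :=
  adjoin v.Completion (Cst (Nat.card F) (Kvs v) ∪ {r | ∃ m : ℕ, r ^ 2 ^ m = unK w v})

/-- A system of local data for all the places. -/
structure LDok (F : Type) [Field F] (A : Pl F → Lcd F) : Prop where
  ok : ∀ w, (A w).Ok w.o

/-- The root `c ∈ k` of the polynomial of the place which is near to `t`. -/
noncomputable def rtP {F : Type} [Field F] (A : Pl F → Lcd F) (w : Pl F) : kF F :=
  open Classical in
  if h : ∃ c : kF F, nm (A w).av ((A w).eQ (tQ F - c)) < 1 ∧ w ≠ none then h.choose else 0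

/-- The valuation of `Qf F` at a place, `ν(unP) = 1`. -/
noncomputable def nuP {F : Type} [Field F] (A : Lcd F) (x : Qf F) : WithTop ℚ :=
  open Classical in
  if h : ∃ r : ℚ, nm A.av (A.eQ x) = (1 / 2 : ℝ) ^ (r : ℝ) then (h.choose : WithTop ℚ) else ⊤

/-- The residue map of `Qf F` at a place. -/
noncomputable def resP {F : Type} [Field F] (A : Lcd F) (x : Qf F) : kF F :=
  open Classical in
  if h : ∃ c : kF F, nm A.av (A.eQ (x - c)) < 1 then h.choose else 0

end Pool.Agent.MP72S.D
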