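import Pool.Agent.Lib.MP_72e2e6_nt.Sm.D.Spec

/-!
# MP_72e2e6_nt, `Sm`, block D: the Krull topology
-/

namespace Pool.Agent.MP72S.D

open Polynomial IntermediateField Pool.Agent.MP72W

theorem tKt (h : S_QG) : S_Kt := by
  intro F _ _
  obtain ⟨hG, -⟩ := h F
  have hG' : IsGalois (RatFunc F) (Qf F) := hG
  refine ⟨?_, ?_, inferInstance, inferInstance⟩
  · intro a
    have hfd : FiniteDimensional (RatFunc F) (adjoin (RatFunc F) {a}) :=
      adjoin.finiteDimensional (Algebra.IsIntegral.isIntegral a)
    have h1 := fixingSubgroup_isOpen (adjoin (RatFunc F) {a})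
    have h2 : (adjoin (RatFunc F) {a}).fixingSubgroup ≤ MulAction.stabilizer (GQ F) a := by
      intro g hg
      exact (mem_fixingSubgroup_iff _ _).1 hg a (mem_adjoin_simple_self _ a)
    exact Subgroup.isOpen_mono h2 h1
  · intro U hU h1
    have h2 := (krullTopology_mem_nhds_one_iff (RatFunc F) (Qf F) U).1 (hU.mem_nhds h1)
    obtain ⟨E, hE, hEU⟩ := h2
    have hfg : E.FG := by
      refine fg_of_fg_toSubalgebra E ?_
      rw [Subalgebra.fg_iff_finiteType]
      exact inferInstanceAs (Algebra.FiniteType (RatFunc F) E)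
    obtain ⟨t, htfin, htE⟩ := fg_def.mp hfg
    refine ⟨htfin.toFinset, fun g hg => hEU ?_⟩
    refine (mem_fixingSubgroup_iff _ _).mpr fun x hx => ?_
    rw [← htE] at hx
    induction hx using adjoin_induction with
    | mem x hx => exact hg x (htfin.mem_toFinset.2 hx)
    | algebraMap x => exact g.commutes x
    | add x y _ _ hx hy => rw [map_add, hx, hy]
    | inv x _ hx => rw [map_inv₀, hx]
    | mul x y _ _ hx hy => rw [map_mul, hx, hy]

end Pool.Agent.MP72S.D
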