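import Pool.Agent.Lib.MP_72e2e6_nt.Sm.D.Spec

/-!
# MP_72e2e6_nt, `Sm/D/Qd`: the hypotheses of block E
-/

namespace Pool.Agent.MP72S.D

open Polynomial IntermediateField Pool.Agent.MP72W

private theorem root_pow {F k : Type} [Field F] [Finite F] [Field k] [Algebra F k] (P : F[X])
    (hm : P.Monic) (hi : Irreducible P) (c : k) (hc : aeval c P = 0) :
    c ^ Nat.card F ^ P.natDegree = c := by
  have hP : P = minpoly F c := minpoly.eq_of_irreducible_of_monic hi hc hm
  have hint : IsIntegral F c := ⟨P, hm, hc⟩
  have hfr : Module.finrank F F⟮c⟯ = P.natDegree := by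
    rw [IntermediateField.adjoin.finrank hint, ← hP]
  have : FiniteDimensional F F⟮c⟯ := IntermediateField.adjoin.finiteDimensional hint
  have : Finite F⟮c⟯ := Module.finite_of_finite F
  have := Fintype.ofFinite F⟮c⟯
  have hcard : Fintype.card F⟮c⟯ = Nat.card F ^ P.natDegree := by
    rw [← Nat.card_eq_fintype_card, Module.natCard_eq_pow_finrank (K := F), hfr]
  have h := FiniteField.pow_card (⟨c, IntermediateField.mem_adjoin_simple_self F c⟩ : F⟮c⟯)
  rw [hcard] at h
  exact congrArg Subtype.val h

theorem tQd (hRq : S_Rq) (hKk : S_Kk) (hFx : S_Fx) (hPr : S_Pr) (hKt : S_Kt) (hRo : S_Ro)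
    (hUn : S_Un) (hQG : S_QG) : S_Qd := by
  intro F _ _ hq A hA
  obtain ⟨k1, k2, k3, k4, k5⟩ := hKk F
  have h2 : (2 : F) ≠ 0 := by
    intro h
    have h0 : (Nat.card F : F) = 0 := by
      rw [← nsmul_one]
      exact card_nsmul_eq_zero'
    obtain ⟨j, hj⟩ : ∃ j, Nat.card F = 2 * j + 1 := ⟨Nat.card F / 2, by omega⟩
    rw [hj, Nat.cast_add, Nat.cast_mul, Nat.cast_ofNat, h, zero_mul, zero_add,
      Nat.cast_one] at h0
    exact one_ne_zero h0
  refine ⟨k1, fun N D hinf htau hphi hnq => ?_⟩
  have hrq := fun w : Pl F => hRq F h2 w.o (A w) (hA.ok w)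
  obtain ⟨r1, -, r3⟩ := hRo F A hA
  obtain ⟨u1, u2, u3⟩ := hUn F h2 A hA
  exact
    { q4 := hq
      q1 := Finite.one_lt_card
      two := by
        intro h
        apply h2
        apply (algebraMap F (kF F)).injective
        rw [map_ofNat, h, map_zero]
      tr := k5
      tfix := fun g => g.commutes _
      sq := (hQG F).2.2.2.1 h2
      fix := hFx F
      stab := (hKt F).1
      bas := (hKt F).2.1
      pro := fun U hU _ => hPr F U hU
      kf := by
        intro g c hc
        obtain ⟨a, ha⟩ := k4 c hc
        change g (c : Qf F) = (c : Qf F)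
        rw [ha]
        exact g.commutes _
      kalg := k3
      nq := hnq
      dg_inf := by
        rw [hinf]
        rfl
      phi := by
        intro v c
        rw [hphi]
        exact (hrq v).2.2.1 c ((k2 c).mp c.2)
      tau := by
        intro v c
        rw [htau]
        exact (hrq v).2.1 (A v).t (hA.ok v).tg c ((k2 c).mp c.2)
      rel := by
        intro v
        rw [hphi, htau, hnq]
        exact (hrq v).2.2.2
      orb := by
        intro c
        rw [hinf]
        exact r3 c
      rtd := by
        intro v hv
        rw [hinf] at hv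
        rcases v with _ | P
        · exact absurd rfl hv
        · exact root_pow P.1 P.2.1 P.2.2 _ (r1 P).1
      unr := by
        intro m v c r hv
        rw [hinf] at hv
        rw [htau]
        exact u1 m v c r hv
      ram := by
        intro m v hv
        rw [hinf] at hv
        rw [htau]
        exact u2 m v hv
      rami := by
        intro m
        rw [htau, hinf]
        exact u3 m }

end Pool.Agent.MP72S.D
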